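import Mathlib

/-!
Commutative algebra over the group ring of a free abelian group of finite rank.
-/

namespace Pool.Agent.Helper94

open Multiplicative

universe u v

/-- The integral group ring of `ℤ^m`. -/
abbrev LR (m : ℕ) : Type := AddMonoidAlgebra ℤ (Fin m → ℤ)

/-- Monomials. -/
noncomputable def Tm {m : ℕ} (x : Fin m → ℤ) : LR m := AddMonoidAlgebra.single x 1

/-- Unit vectors. -/
abbrev ue {m : ℕ} (j : Fin m) : Fin m → ℤ := Pi.single j 1

section basics
variable {m : ℕ}

theorem Tm_zero : (Tm 0 : LR m) = 1 := rfl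

theorem Tm_add (x y : Fin m → ℤ) : Tm (x + y) = Tm x * Tm y := by
  simp [Tm, AddMonoidAlgebra.single_mul_single]

theorem Tm_inj {x y : Fin m → ℤ} : Tm x = Tm y ↔ x = y := by
  constructor
  · intro h
    have := Finsupp.single_left_injective (one_ne_zero : (1 : ℤ) ≠ 0) (α := Fin m → ℤ) (a₁ := x) (a₂ := y)
    apply this
    exact congrArg (fun f : LR m => f.coeff) h
  · rintro rfl; rfl

theorem Tm_mul_neg (x : Fin m → ℤ) : Tm x * Tm (-x) = 1 := by
  rw [← Tm_add, add_neg_cancel, Tm_zero]

theorem subring_eq_top (B : Subring (LR m)) (h1 : ∀ j, Tm (ue j) ∈ B) (h2 : ∀ j, Tm (-ue j) ∈ B)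
    (f : LR m) : f ∈ B := by
  have hx : ∀ x : Fin m → ℤ, Tm x ∈ B := by
    let H : AddSubgroup (Fin m → ℤ) :=
      { carrier := {x | Tm x ∈ B ∧ Tm (-x) ∈ B}
        add_mem' := by
          rintro x y ⟨hx, hx'⟩ ⟨hy, hy'⟩
          refine ⟨?_, ?_⟩
          · rw [Tm_add]; exact B.mul_mem hx hy
          · rw [neg_add, Tm_add]; exact B.mul_mem hx' hy'
        zero_mem' := by
          refine ⟨?_, ?_⟩
          · rw [Tm_zero]; exact B.one_mem
          · rw [neg_zero, Tm_zero]; exact B.one_mem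
        neg_mem' := by
          rintro x ⟨hx, hx'⟩
          exact ⟨hx', by rw [neg_neg]; exact hx⟩ }
    intro x
    have hH : x ∈ H := by
      have : x = ∑ j, x j • ue j := by
        funext k
        simp [Finset.sum_apply, Pi.single_apply]
      rw [this]
      exact H.sum_mem fun j _ => H.zsmul_mem ⟨h1 j, h2 j⟩ _
    exact hH.1
  induction f using AddMonoidAlgebra.induction_on with
  | of x => exact hx x
  | add f g hf hg => exact B.add_mem hf hg
  | smul r f hf => exact B.zsmul_mem hf r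

/-- Evaluation at a tuple of units. -/
noncomputable def ev {K : Type u} [CommRing K] (κ : Fin m → Kˣ) : LR m →+* K :=
  (AddMonoidAlgebra.lift ℤ K (Fin m → ℤ)
    { toFun := fun x => ((∏ j, κ j ^ (x.toAdd j) : Kˣ) : K)
      map_one' := by simp
      map_mul' := fun x y => by
        rw [← Units.val_mul, ← Finset.prod_mul_distrib]
        congr 1
        refine Finset.prod_congr rfl fun j _ => ?_
        rw [← zpow_add]; rfl }).toRingHom

theorem ev_Tm {K : Type u} [CommRing K] (κ : Fin m → Kˣ) (x : Fin m → ℤ) :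
    ev κ (Tm x) = ((∏ j, κ j ^ (x j) : Kˣ) : K) := by
  simp [ev, Tm, AddMonoidAlgebra.lift_single]

theorem ev_ue {K : Type u} [CommRing K] (κ : Fin m → Kˣ) (j : Fin m) :
    ev κ (Tm (ue j)) = κ j := by
  rw [ev_Tm, Finset.prod_eq_single j]
  · simp
  · intro i _ hij; simp [hij]
  · intro h; exact absurd (Finset.mem_univ j) h

theorem hom_ext' {K : Type u} [CommRing K] {χ χ' : LR m →+* K}
    (h : ∀ j, χ (Tm (ue j)) = χ' (Tm (ue j))) : χ = χ' := by
  refine RingHom.ext fun f => ?_
  refine subring_eq_top (RingHom.eqLocus χ χ') h (fun j => ?_) f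
  show χ (Tm (-ue j)) = χ' (Tm (-ue j))
  have e1 : χ (Tm (ue j)) * χ (Tm (-ue j)) = 1 := by rw [← map_mul, Tm_mul_neg, map_one]
  have e2 : χ' (Tm (ue j)) * χ' (Tm (-ue j)) = 1 := by rw [← map_mul, Tm_mul_neg, map_one]
  rw [← h j] at e2
  calc χ (Tm (-ue j)) = χ (Tm (-ue j)) * (χ (Tm (ue j)) * χ' (Tm (-ue j))) := by rw [e2, mul_one]
    _ = (χ (Tm (ue j)) * χ (Tm (-ue j))) * χ' (Tm (-ue j)) := by ring
    _ = χ' (Tm (-ue j)) := by rw [e1, one_mul]

end basics

section sep
variable {m : ℕ}

/-- Characters into prime fields separate the points of the group ring. -/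
theorem sep (f : LR m) (hf : f ≠ 0) :
    ∃ p : ℕ, p.Prime ∧ ∃ κ : Fin m → (ZMod p)ˣ, ev κ f ≠ 0 := by
  classical
  -- a bound
  let S := f.coeff.support
  let N : ℕ := (∑ x ∈ S, ∑ y ∈ S, ∑ j, (x j - y j).natAbs) + ∑ x ∈ S, (f.coeff x).natAbs
  obtain ⟨p, hp1, hp⟩ := Nat.exists_infinite_primes (N + 2)
  have : Fact p.Prime := ⟨hp⟩
  refine ⟨p, hp, ?_⟩
  by_contra hcon
  push Not at hcon
  obtain ⟨u, hu⟩ := IsCyclic.exists_generator (α := (ZMod p)ˣ)
  have hord : orderOf u = p - 1 := by
    rw [orderOf_eq_card_of_forall_mem_zpowers hu, Nat.card_eq_fintype_card, ZMod.card_units_eq_totient,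
      Nat.totient_prime hp]
  let θ : (Fin m → ℤ) → ((Fin m → (ZMod p)ˣ) →* ZMod p) := fun x =>
    { toFun := fun κ => ((∏ j, κ j ^ (x j) : (ZMod p)ˣ) : ZMod p)
      map_one' := by simp
      map_mul' := fun κ κ' => by
        rw [← Units.val_mul, ← Finset.prod_mul_distrib]
        congr 1
        refine Finset.prod_congr rfl fun j _ => ?_
        simp [mul_zpow] }
  have hθ : ∀ x ∈ S, ∀ y ∈ S, θ x = θ y → x = y := by
    intro x hx y hy hxy
    funext j
    have h1 := DFunLike.congr_fun hxy (Pi.mulSingle j u)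
    have h2 : ∀ z : Fin m → ℤ, θ z (Pi.mulSingle j u) = ((u ^ (z j) : (ZMod p)ˣ) : ZMod p) := by
      intro z
      show ((∏ i, (Pi.mulSingle j u : Fin m → (ZMod p)ˣ) i ^ (z i) : (ZMod p)ˣ) : ZMod p) = _
      rw [Finset.prod_eq_single j]
      · simp
      · intro i _ hij; simp [hij]
      · intro h; exact absurd (Finset.mem_univ j) h
    rw [h2, h2] at h1
    have h3 : u ^ (x j) = u ^ (y j) := Units.ext h1
    have h4 : u ^ (x j - y j) = 1 := by rw [zpow_sub, h3, mul_inv_cancel]
    have h5 : (orderOf u : ℤ) ∣ x j - y j := orderOf_dvd_iff_zpow_eq_one.mpr h4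
    have h6 : (x j - y j).natAbs ≤ N := by
      have a1 : (x j - y j).natAbs ≤ ∑ j, (x j - y j).natAbs :=
        Finset.single_le_sum (f := fun j => (x j - y j).natAbs) (fun _ _ => Nat.zero_le _)
          (Finset.mem_univ j)
      have a2 : ∑ j, (x j - y j).natAbs ≤ ∑ y ∈ S, ∑ j, (x j - y j).natAbs :=
        Finset.single_le_sum (f := fun y => ∑ j, (x j - y j).natAbs) (fun _ _ => Nat.zero_le _) hy
      have a3 : ∑ y ∈ S, ∑ j, (x j - y j).natAbs ≤ ∑ x ∈ S, ∑ y ∈ S, ∑ j, (x j - y j).natAbs :=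
        Finset.single_le_sum (f := fun x => ∑ y ∈ S, ∑ j, (x j - y j).natAbs)
          (fun _ _ => Nat.zero_le _) hx
      omega
    have h7 : (x j - y j).natAbs = 0 := by
      by_contra h0
      have h8 := Int.natAbs_dvd_natAbs.mpr h5
      have h9 := Nat.le_of_dvd (Nat.pos_of_ne_zero h0) h8
      rw [hord] at h9
      simp only [Int.natAbs_natCast] at h9
      omega
    have := Int.natAbs_eq_zero.mp h7
    omega
  have hlin : LinearIndependent (ZMod p) (fun x : S => (θ x.1 : (Fin m → (ZMod p)ˣ) → ZMod p)) :=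
    (linearIndependent_monoidHom (Fin m → (ZMod p)ˣ) (ZMod p)).comp (fun x : S => θ x.1)
      (fun x y hxy => Subtype.ext (hθ x.1 x.2 y.1 y.2 hxy))
  rw [Fintype.linearIndependent_iff] at hlin
  have hzero := hlin (fun x => ((f.coeff x.1 : ℤ) : ZMod p)) (by
    funext κ
    have h1 := hcon κ
    have h2 : ev κ f = ∑ x ∈ S, ((f.coeff x : ℤ) : ZMod p) * θ x κ := by
      show (AddMonoidAlgebra.lift ℤ (ZMod p) (Fin m → ℤ) _) f = _
      rw [AddMonoidAlgebra.lift_apply]
      refine Finset.sum_congr rfl fun x _ => ?_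
      simp [θ]
    rw [h2] at h1
    rw [Finset.sum_apply]
    simp only [Pi.smul_apply, smul_eq_mul, Pi.zero_apply]
    rw [← h1]
    exact Finset.sum_coe_sort S (fun x => ((f.coeff x : ℤ) : ZMod p) * θ x κ))
  have hne : S.Nonempty := by
    by_contra h
    rw [Finset.not_nonempty_iff_eq_empty] at h
    apply hf
    have h0 : f.coeff = 0 := Finsupp.support_eq_empty.mp h
    ext x
    rw [h0]; rfl
  obtain ⟨x, hx⟩ := hne
  have h1 := hzero ⟨x, hx⟩
  simp only [] at h1
  rw [ZMod.intCast_zmod_eq_zero_iff_dvd] at h1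
  have h2 : f.coeff x ≠ 0 := Finsupp.mem_support_iff.mp hx
  have h3 := Int.natAbs_dvd_natAbs.mpr h1
  have h4 := Nat.le_of_dvd (Int.natAbs_pos.mpr h2) h3
  have h5 : (f.coeff x).natAbs ≤ ∑ x ∈ S, (f.coeff x).natAbs :=
    Finset.single_le_sum (f := fun x => (f.coeff x).natAbs) (fun _ _ => Nat.zero_le _) hx
  simp only [Int.natAbs_natCast] at h4
  omega

end sep

section ch

variable {R : Type u} [CommRing R] {V : Type v} [AddCommGroup V] [Module R V]

/-- The determinant trick. -/
theorem ch [Module.Finite R V] (hfaith : ∀ r : R, (∀ v : V, r • v = 0) → r = 0) (I : Ideal R) (x : R)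
    (h : ∀ v : V, x • v ∈ I • (⊤ : Submodule R V)) : ∃ n : ℕ, x ^ n ∈ I := by
  obtain ⟨p, hmonic, -, hcoeff, hp⟩ :=
    LinearMap.exists_monic_and_natDegree_eq_and_coeff_mem_pow_and_aeval_eq_zero R
      (algebraMap R (Module.End R V) x) I (by
        rintro _ ⟨v, rfl⟩
        exact h v)
  rw [Polynomial.aeval_algebraMap_apply] at hp
  have h0 : Polynomial.aeval x p = 0 := by
    apply hfaith
    intro v
    have := LinearMap.congr_fun hp v
    simpa using this
  refine ⟨p.natDegree, ?_⟩
  rw [Polynomial.aeval_eq_sum_range, Finset.sum_range_succ, hmonic.coeff_natDegree, one_smul] at h0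
  have h1 : x ^ p.natDegree = - ∑ i ∈ Finset.range p.natDegree, p.coeff i • x ^ i := by
    rw [eq_neg_iff_add_eq_zero, add_comm]; exact h0
  rw [h1]
  refine I.neg_mem (I.sum_mem fun i hi => ?_)
  rw [smul_eq_mul]
  refine I.mul_mem_right _ ?_
  have hi' := Finset.mem_range.mp hi
  have h2 : I ^ (p.natDegree - i) ≤ I := by
    obtain ⟨k, hk⟩ : ∃ k, p.natDegree - i = k + 1 := ⟨p.natDegree - i - 1, by omega⟩
    rw [hk, pow_succ]
    exact Ideal.mul_le_right
  exact h2 (hcoeff i)

/-- Integer powers modulo the square of an augmentation. -/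
theorem zpow_cong {G : Type v} [Group G] (τ : G →* R) (g : G) (k : ℤ) :
    ∃ r : R, τ (g ^ k) = 1 + k * (τ g - 1) + (τ g - 1) ^ 2 * r := by
  have hinv : τ g * τ g⁻¹ = 1 := by rw [← map_mul, mul_inv_cancel, map_one]
  induction k using Int.induction_on with
  | zero => exact ⟨0, by simp⟩
  | succ k ih =>
    obtain ⟨r, hr⟩ := ih
    refine ⟨k + r * τ g, ?_⟩
    rw [zpow_add_one, map_mul, hr]
    push_cast
    ring
  | pred k ih =>
    obtain ⟨r, hr⟩ := ih
    refine ⟨(r + k + 1) * τ g⁻¹, ?_⟩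
    rw [zpow_sub_one, map_mul, hr]
    push_cast
    have h1 : (τ g - 1) * τ g⁻¹ = 1 - τ g⁻¹ := by rw [sub_mul, hinv, one_mul]
    have h2 : (τ g - 1) ^ 2 * τ g⁻¹ = (τ g - 1) * (1 - τ g⁻¹) := by rw [← h1]; ring
    have h3 : (τ g - 1) * (1 - τ g⁻¹) = τ g - 2 + τ g⁻¹ := by
      rw [mul_sub, h1]; ring
    linear_combination (-(k:R)) * h1 + (k + 1) * (h2 + h3) * (-1)

/-- A finite torsion-free module over a domain embeds in a finite free module. -/
theorem exists_embedding [IsDomain R] [Module.Finite R V]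
    (tf : ∀ (r : R) (v : V), r • v = 0 → r = 0 ∨ v = 0) :
    ∃ (n : ℕ) (φ : V →ₗ[R] (Fin n → R)), Function.Injective φ := by
  classical
  let S := nonZeroDivisors R
  let K := FractionRing R
  let W := LocalizedModule S V
  let mk : V →ₗ[R] W := LocalizedModule.mkLinearMap S V
  have hmk : Function.Injective mk := by
    rw [injective_iff_map_eq_zero]
    intro v hv
    obtain ⟨c, hc⟩ := (IsLocalizedModule.eq_zero_iff S mk).mp hv
    have hc' : (c : R) • v = 0 := hc
    rcases tf _ _ hc' with h | h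
    · exact absurd h (nonZeroDivisors.coe_ne_zero c)
    · exact h
  have : Module.Finite K W := Module.Finite.of_isLocalizedModule S (Rₚ := K) mk
  let b := Module.finBasis K W
  let n := Module.finrank K W
  obtain ⟨d, s, hs⟩ := Module.Finite.exists_fin (R := R) (M := V)
  obtain ⟨q, hq⟩ := IsLocalization.exist_integer_multiples_of_finset S
    (Finset.univ.image fun p : Fin d × Fin n => b.repr (mk (s p.1)) p.2)
  let ρ : V →ₗ[R] (Fin n → K) := (q : R) • ((b.equivFun.toLinearMap.restrictScalars R).comp mk)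
  let inc : (Fin n → R) →ₗ[R] (Fin n → K) := (Algebra.linearMap R K).compLeft (Fin n)
  have hinc : Function.Injective inc := by
    intro x y hxy
    funext j
    have := congrFun hxy j
    exact IsFractionRing.injective R K this
  have hρ : ∀ v, ρ v ∈ LinearMap.range inc := by
    intro v
    have hv : v ∈ Submodule.span R (Set.range s) := by rw [hs]; trivial
    induction hv using Submodule.span_induction with
    | mem x hx =>
      obtain ⟨l, rfl⟩ := hx
      have h1 : ∀ j : Fin n, ∃ r : R, algebraMap R K r = (q : R) • b.repr (mk (s l)) j := by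
        intro j
        exact hq _ (Finset.mem_image.mpr ⟨(l, j), Finset.mem_univ _, rfl⟩)
      choose r hr using h1
      exact ⟨r, funext hr⟩
    | zero => rw [map_zero]; exact Submodule.zero_mem _
    | add x y _ _ hx hy => rw [map_add]; exact Submodule.add_mem _ hx hy
    | smul a x _ hx => rw [map_smul]; exact Submodule.smul_mem _ _ hx
  let ρ' : V →ₗ[R] LinearMap.range inc := ρ.codRestrict _ hρ
  let E := LinearEquiv.ofInjective inc hinc
  refine ⟨n, E.symm.toLinearMap.comp ρ', ?_⟩
  have h2 : Function.Injective ρ' := by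
    intro x y hxy
    have h3 : ρ x = ρ y := congrArg Subtype.val hxy
    have h4 : (q : R) • b.equivFun (mk x) = (q : R) • b.equivFun (mk y) := h3
    have h5 : b.equivFun (mk x) = b.equivFun (mk y) := by
      funext j
      have h6 := congrFun h4 j
      simp only [Pi.smul_apply] at h6
      rw [Algebra.smul_def, Algebra.smul_def] at h6
      refine mul_left_cancel₀ ?_ h6
      intro h7
      have := IsFractionRing.injective R K (h7.trans (map_zero _).symm)
      exact nonZeroDivisors.coe_ne_zero q this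
    exact hmk (b.equivFun.injective h5)
  exact E.symm.injective.comp h2

end ch

end Pool.Agent.Helper94
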