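import Mathlib

/-!
# Interpretations, bi-interpretability, rigid metabelian groups: the definitions
-/

namespace Pool.Agent.Helper94

open FirstOrder FirstOrder.Language
open scoped commutatorElement

universe u v w u' v' w'

/-- Function symbols of the language of groups. -/
inductive GrpFunc : ℕ → Type
  | one : GrpFunc 0
  | inv : GrpFunc 1
  | mul : GrpFunc 2

/-- The first-order language of groups. -/
def groupLang : FirstOrder.Language.{0, 0} := ⟨GrpFunc, fun _ => Empty⟩

/-- Every group is a structure for the language of groups. -/
instance groupStructure (G : Type u) [Group G] : groupLang.Structure G where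
  funMap := fun {n} (f : GrpFunc n) => match n, f with
    | _, .one => fun _ => 1
    | _, .inv => fun x => (x 0)⁻¹
    | _, .mul => fun x => x 0 * x 1
  RelMap := fun {_} r => Empty.elim r

/-- Function symbols of the language of arithmetic `(+, *)`. -/
inductive ArithFunc : ℕ → Type
  | add : ArithFunc 2
  | mul : ArithFunc 2

/-- The language of arithmetic, with `+` and `*` only. -/
def arithLang : FirstOrder.Language.{0, 0} := ⟨ArithFunc, fun _ => Empty⟩

/-- The standard model `(ℕ; +, *)`. -/
instance arithStructure : arithLang.Structure ℕ where
  funMap := fun {n} (f : ArithFunc n) => match n, f with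
    | _, .add => fun x => x 0 + x 1
    | _, .mul => fun x => x 0 * x 1
  RelMap := fun {_} r => Empty.elim r

/-- A first-order interpretation (with parameters) of the `L'`-structure `N` in the
`L`-structure `M`: a definable set `dom` of `dim`-tuples of `M` and a coordinate map from `dom`
onto `N` such that the preimages of equality and of (the graphs of) all basic operations and
relations of `N` are definable (with parameters) in `M`. The values of `coord` outside `dom` are
irrelevant. -/
structure Interpretation (L : FirstOrder.Language.{u, v}) (M : Type w) [L.Structure M]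
    (L' : FirstOrder.Language.{u', v'}) (N : Type w') [L'.Structure N] where
  /-- the dimension -/
  dim : ℕ
  /-- the domain -/
  dom : Set (Fin dim → M)
  /-- the coordinate map -/
  coord : (Fin dim → M) → N
  surj : ∀ y : N, ∃ x ∈ dom, coord x = y
  dom_def : (Set.univ : Set M).Definable L dom
  eq_def : (Set.univ : Set M).Definable L
    {x : Fin 2 × Fin dim → M | (∀ i, (fun j => x (i, j)) ∈ dom) ∧
      coord (fun j => x (0, j)) = coord (fun j => x (1, j))}
  fun_def : ∀ (n : ℕ) (f : L'.Functions n), (Set.univ : Set M).Definable L
    {x : Fin (n + 1) × Fin dim → M | (∀ i, (fun j => x (i, j)) ∈ dom) ∧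
      Structure.funMap f (fun i : Fin n => coord (fun j => x (i.castSucc, j))) =
        coord (fun j => x (Fin.last n, j))}
  rel_def : ∀ (n : ℕ) (r : L'.Relations n), (Set.univ : Set M).Definable L
    {x : Fin n × Fin dim → M | (∀ i, (fun j => x (i, j)) ∈ dom) ∧
      Structure.RelMap r (fun i : Fin n => coord (fun j => x (i, j)))}

/-- Given interpretations `Γ` of `N` in `M` and `Δ` of `M` in `N`, the composite is an
interpretation of `M` in itself. `CompositeDefinable Γ Δ` says that its coordinate map (from
`Δ.dim × Γ.dim`-tuples of `M` to `M`), i.e. the composite isomorphism between `M` and its copy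
interpreted inside the copy of `N` in `M`, is definable (with parameters) in `M`. -/
def CompositeDefinable {L : FirstOrder.Language.{u, v}} {M : Type w} [L.Structure M]
    {L' : FirstOrder.Language.{u', v'}} {N : Type w'} [L'.Structure N]
    (Γ : Interpretation L M L' N) (Δ : Interpretation L' N L M) : Prop :=
  (Set.univ : Set M).Definable L
    {x : (Fin Δ.dim × Fin Γ.dim) ⊕ Unit → M |
      (∀ i, (fun j => x (Sum.inl (i, j))) ∈ Γ.dom) ∧
      (fun i => Γ.coord (fun j => x (Sum.inl (i, j)))) ∈ Δ.dom ∧
      Δ.coord (fun i => Γ.coord (fun j => x (Sum.inl (i, j)))) = x (Sum.inr ())}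

/-- Bi-interpretability (with parameters) of two structures. -/
def BiInterpretable (L : FirstOrder.Language.{u, v}) (M : Type w) [L.Structure M]
    (L' : FirstOrder.Language.{u', v'}) (N : Type w') [L'.Structure N] : Prop :=
  ∃ (Γ : Interpretation L M L' N) (Δ : Interpretation L' N L M),
    CompositeDefinable Γ Δ ∧ CompositeDefinable Δ Γ

/-- Two structures are universally equivalent if they satisfy the same universal sentences. -/
def UniversallyEquivalent (L : FirstOrder.Language.{u, v}) (M : Type w) [L.Structure M]
    (N : Type w') [L.Structure N] : Prop :=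
  ∀ φ : L.Sentence, FirstOrder.Language.BoundedFormula.IsUniversal φ → (M ⊨ φ ↔ N ⊨ φ)

/-- The free metabelian group of rank `n`: the free group modulo its second derived subgroup. -/
abbrev FreeMetabelian (n : ℕ) : Type :=
  FreeGroup (Fin n) ⧸ derivedSeries (FreeGroup (Fin n)) 2

/-- A metabelian group is rigid when it is universally equivalent to a free metabelian group
of rank at least two. -/
def IsRigidMetabelian (G : Type u) [Group G] : Prop :=
  (∀ x y z w : G, ⁅⁅x, y⁆, ⁅z, w⁆⁆ = 1) ∧
    ∃ n : ℕ, 2 ≤ n ∧ UniversallyEquivalent groupLang G (FreeMetabelian n)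

end Pool.Agent.Helper94
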