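import Pool.Agent.Helper94.Def
import Pool.Agent.Helper94.BiDefs

/-!
Arithmetic definability: pairing, remainders, Goedel's beta function, primitive recursion.
-/

namespace Pool.Agent.Helper94

open FirstOrder FirstOrder.Language

section
variable {α β : Type}

/-- definable predicates of arithmetic -/
abbrev AP (P : (α → ℕ) → Prop) : Prop := DP arithLang P
/-- definable functions of arithmetic -/
abbrev AF (t : (α → ℕ) → ℕ) : Prop := DF arithLang t

theorem AF.add {s t : (α → ℕ) → ℕ} (hs : AF s) (ht : AF t) : AF (fun x => s x + t x) := by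
  have h : (∅ : Set ℕ).DefinableFun arithLang
    (Structure.funMap (ArithFunc.add : arithLang.Functions 2) : (Fin 2 → ℕ) → ℕ) :=
    Set.DefinableFun.fun_symbol _
  have h' : DF arithLang (fun x : Fin 2 → ℕ => x 0 + x 1) := h.of_empty
  exact DF.fun2 h' hs ht

theorem AF.mul {s t : (α → ℕ) → ℕ} (hs : AF s) (ht : AF t) : AF (fun x => s x * t x) := by
  have h : (∅ : Set ℕ).DefinableFun arithLang
    (Structure.funMap (ArithFunc.mul : arithLang.Functions 2) : (Fin 2 → ℕ) → ℕ) :=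
    Set.DefinableFun.fun_symbol _
  have h' : DF arithLang (fun x : Fin 2 → ℕ => x 0 * x 1) := h.of_empty
  exact DF.fun2 h' hs ht

theorem AP.le {s t : (α → ℕ) → ℕ} (hs : AF s) (ht : AF t) : AP (fun x => s x ≤ t x) := by
  have h : AP (fun x : Fin 2 → ℕ => ∃ c, x 0 + c = x 1) := by
    apply DP.ex
    exact DP.eq (AF.add (DF.var _) (DF.var _)) (DF.var _)
  have h' : AP (fun x : Fin 2 → ℕ => x 0 ≤ x 1) := by
    refine DP.congr h fun x => ?_
    constructor
    · rintro ⟨c, hc⟩; omega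
    · intro h; exact ⟨x 1 - x 0, by omega⟩
  exact DP.rel2 (R := fun a b => a ≤ b) h' hs ht

theorem AP.lt {s t : (α → ℕ) → ℕ} (hs : AF s) (ht : AF t) : AP (fun x => s x < t x) :=
  (AP.le (hs.add (DF.const 1)) ht).congr fun x => by omega

theorem AP.dvd {s t : (α → ℕ) → ℕ} (hs : AF s) (ht : AF t) : AP (fun x => s x ∣ t x) := by
  have h : AP (fun x : Fin 2 → ℕ => ∃ c, x 1 = x 0 * c) := by
    apply DP.ex
    exact DP.eq (DF.var _) (AF.mul (DF.var _) (DF.var _))
  have h' : AP (fun x : Fin 2 → ℕ => x 0 ∣ x 1) := DP.congr h fun x => Iff.rfl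
  exact DP.rel2 (R := fun a b => a ∣ b) h' hs ht

theorem AF.pair {s t : (α → ℕ) → ℕ} (hs : AF s) (ht : AF t) :
    AF (fun x => Nat.pair (s x) (t x)) := by
  have h : AF (fun x : Fin 2 → ℕ => Nat.pair (x 0) (x 1)) := by
    apply DF.of_graph
    have h1 : AP (fun x : Fin 2 ⊕ Unit → ℕ =>
      (x (Sum.inl 0) < x (Sum.inl 1) ∧ x (Sum.inl 1) * x (Sum.inl 1) + x (Sum.inl 0) = x (Sum.inr ()))
      ∨ (x (Sum.inl 1) ≤ x (Sum.inl 0) ∧
        x (Sum.inl 0) * x (Sum.inl 0) + x (Sum.inl 0) + x (Sum.inl 1) = x (Sum.inr ()))) := by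
      refine DP.or (DP.and (AP.lt (DF.var _) (DF.var _)) (DP.eq ?_ (DF.var _)))
        (DP.and (AP.le (DF.var _) (DF.var _)) (DP.eq ?_ (DF.var _)))
      · exact (AF.mul (DF.var _) (DF.var _)).add (DF.var _)
      · exact ((AF.mul (DF.var _) (DF.var _)).add (DF.var _)).add (DF.var _)
    refine DP.congr h1 fun x => ?_
    unfold Nat.pair
    split_ifs with hlt
    · simp only [hlt, true_and, not_le.mpr hlt, false_and, or_false]
    · simp only [hlt, false_and, false_or, not_lt.mp hlt, true_and]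
  exact DF.fun2 (R := Nat.pair) h hs ht

theorem AF.mod {s t : (α → ℕ) → ℕ} (hs : AF s) (ht : AF t) :
    AF (fun x => s x % t x) := by
  have h : AF (fun x : Fin 2 → ℕ => x 0 % x 1) := by
    apply DF.of_graph
    have h1 : AP (fun x : Fin 2 ⊕ Unit → ℕ =>
      (x (Sum.inl 1) = 0 ∧ x (Sum.inl 0) = x (Sum.inr ())) ∨
      (x (Sum.inr ()) < x (Sum.inl 1) ∧
        ∃ q, x (Sum.inl 0) = x (Sum.inl 1) * q + x (Sum.inr ()))) := by
      refine DP.or (DP.and (DP.eq (DF.var _) (DF.const _)) (DP.eq (DF.var _) (DF.var _)))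
        (DP.and (AP.lt (DF.var _) (DF.var _)) (DP.ex ?_))
      exact DP.eq (DF.var _) ((AF.mul (DF.var _) (DF.var _)).add (DF.var _))
    refine DP.congr h1 fun x => ?_
    beta_reduce
    generalize x (Sum.inl 0) = a
    generalize x (Sum.inl 1) = b
    generalize x (Sum.inr ()) = c
    constructor
    · rintro (⟨h1, h2⟩ | ⟨h1, q, h2⟩)
      · rw [h1, h2, Nat.mod_zero]
      · rw [h2, Nat.mul_add_mod, Nat.mod_eq_of_lt h1]
    · intro h
      rcases Nat.eq_zero_or_pos b with hb | hb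
      · left; refine ⟨hb, ?_⟩; rw [hb, Nat.mod_zero] at h; exact h
      · right
        refine ⟨h ▸ Nat.mod_lt _ hb, a / b, ?_⟩
        rw [← h]; exact (Nat.div_add_mod a b).symm
  exact DF.fun2 (R := fun a b => a % b) h hs ht

theorem AF.beta {s t : (α → ℕ) → ℕ} (hs : AF s) (ht : AF t) :
    AF (fun x => Nat.beta (s x) (t x)) := by
  have h : AF (fun x : Fin 2 → ℕ => Nat.beta (x 0) (x 1)) := by
    apply DF.of_graph
    have h1 : AP (fun x : Fin 2 ⊕ Unit → ℕ => ∃ a, ∃ b, Nat.pair a b = x (Sum.inl 0) ∧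
      a % ((x (Sum.inl 1) + 1) * b + 1) = x (Sum.inr ())) := by
      refine DP.ex (DP.ex (DP.and (DP.eq (AF.pair (DF.var _) (DF.var _)) (DF.var _))
        (DP.eq (AF.mod (DF.var _) ?_) (DF.var _))))
      exact ((AF.add (DF.var _) (DF.const 1)).mul (DF.var _)).add (DF.const 1)
    refine DP.congr h1 fun x => ?_
    constructor
    · rintro ⟨a, b, h1, h2⟩
      unfold Nat.beta
      beta_reduce
      rw [← h1, Nat.unpair_pair]
      exact h2
    · intro h
      refine ⟨(x (Sum.inl 0)).unpair.1, (x (Sum.inl 0)).unpair.2, Nat.pair_unpair _, ?_⟩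
      exact h
  exact DF.fun2 (R := Nat.beta) h hs ht

theorem AF.unpair1 {s : (α → ℕ) → ℕ} (hs : AF s) : AF (fun x => (s x).unpair.1) := by
  have h : AF (fun x : Fin 1 → ℕ => (x 0).unpair.1) := by
    apply DF.of_graph
    have h1 : AP (fun x : Fin 1 ⊕ Unit → ℕ => ∃ b, Nat.pair (x (Sum.inr ())) b = x (Sum.inl 0)) :=
      DP.ex (DP.eq (AF.pair (DF.var _) (DF.var _)) (DF.var _))
    refine DP.congr h1 fun x => ?_
    constructor
    · rintro ⟨b, hb⟩; beta_reduce; rw [← hb, Nat.unpair_pair]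
    · intro h; exact ⟨(x (Sum.inl 0)).unpair.2, by rw [← h, Nat.pair_unpair]⟩
  exact DF.fun1 (R := fun a => a.unpair.1) h hs

theorem AF.unpair2 {s : (α → ℕ) → ℕ} (hs : AF s) : AF (fun x => (s x).unpair.2) := by
  have h : AF (fun x : Fin 1 → ℕ => (x 0).unpair.2) := by
    apply DF.of_graph
    have h1 : AP (fun x : Fin 1 ⊕ Unit → ℕ => ∃ b, Nat.pair b (x (Sum.inr ())) = x (Sum.inl 0)) :=
      DP.ex (DP.eq (AF.pair (DF.var _) (DF.var _)) (DF.var _))
    refine DP.congr h1 fun x => ?_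
    constructor
    · rintro ⟨b, hb⟩; beta_reduce; rw [← hb, Nat.unpair_pair]
    · intro h; exact ⟨(x (Sum.inl 0)).unpair.1, by rw [← h, Nat.pair_unpair]⟩
  exact DF.fun1 (R := fun a => a.unpair.2) h hs

theorem AP.prime {s : (α → ℕ) → ℕ} (hs : AF s) : AP (fun x => (s x).Prime) := by
  have h : AP (fun x : Fin 1 → ℕ => (x 0).Prime) := by
    have h1 : AP (fun x : Fin 1 → ℕ => 2 ≤ x 0 ∧ ∀ a, a ∣ x 0 → a = 1 ∨ a = x 0) := by
      refine DP.and (AP.le (DF.const _) (DF.var _)) (DP.all (DP.imp (AP.dvd (DF.var _) (DF.var _))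
        (DP.or (DP.eq (DF.var _) (DF.const _)) (DP.eq (DF.var _) (DF.var _)))))
    exact DP.congr h1 fun x => Nat.prime_def.symm
  exact DP.rel1 (R := Nat.Prime) h hs

theorem AP.modEq {n s t : (α → ℕ) → ℕ} (hn : AF n) (hs : AF s) (ht : AF t) :
    AP (fun x => s x ≡ t x [MOD n x]) :=
  DP.eq (hs.mod hn) (ht.mod hn)

/-- Primitive recursion. -/
theorem AF.natRec [Finite α] {i : (α → ℕ) → ℕ} {F : (α → ℕ) → ℕ → ℕ → ℕ} {t : (α → ℕ) → ℕ}
    (hi : AF i)
    (hF : AF (fun x : (α ⊕ Unit) ⊕ Unit → ℕ =>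
      F (fun a => x (Sum.inl (Sum.inl a))) (x (Sum.inl (Sum.inr ()))) (x (Sum.inr ()))))
    (ht : AF t) :
    AF (fun x => (Nat.rec (i x) (fun j y => F x j y) (t x) : ℕ)) := by
  apply DF.of_graph
  have h1 : AP (fun x : α ⊕ Unit → ℕ => ∃ s,
      (Nat.beta s 0 = i (fun a => x (Sum.inl a)) ∧
      (∀ j, j < t (fun a => x (Sum.inl a)) →
        Nat.beta s (j + 1) = F (fun a => x (Sum.inl a)) j (Nat.beta s j))) ∧
      Nat.beta s (t (fun a => x (Sum.inl a))) = x (Sum.inr ())) := by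
    refine DP.ex (DP.and (DP.and (DP.eq (AF.beta (DF.var _) (DF.const _)) ?_) ?_)
      (DP.eq (AF.beta (DF.var _) ?_) (DF.var _)))
    · exact DF.subst hi (fun b => DF.var _)
    · refine DP.all (DP.imp (AP.lt (DF.var _) ?_) (DP.eq (AF.beta (DF.var _)
        (AF.add (DF.var _) (DF.const 1))) ?_))
      · exact DF.subst ht (fun b => DF.var _)
      · refine DF.subst (β := (α ⊕ Unit) ⊕ Unit) hF
          (t := fun b x => match b with
            | Sum.inl (Sum.inl a) => x (Sum.inl (Sum.inl (Sum.inl a)))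
            | Sum.inl (Sum.inr _) => x (Sum.inr ())
            | Sum.inr _ => Nat.beta (x (Sum.inl (Sum.inr ()))) (x (Sum.inr ()))) ?_
        rintro ((a | _) | _)
        · exact DF.var _
        · exact DF.var _
        · exact AF.beta (DF.var _) (DF.var _)
    · exact DF.subst ht (fun b => DF.var _)
  refine DP.congr h1 fun x => ?_
  set x' : α → ℕ := fun a => x (Sum.inl a) with hx'
  constructor
  · rintro ⟨s, ⟨h0, hs⟩, hz⟩
    have key : ∀ j, j ≤ t x' → Nat.beta s j = (Nat.rec (i x') (fun j y => F x' j y) j : ℕ) := by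
      intro j
      induction j with
      | zero => intro _; exact h0
      | succ j ih => intro hj; rw [hs j (by omega), ih (by omega)]
    rw [← hz, key _ le_rfl]
  · intro hz
    let r : ℕ → ℕ := fun j => (Nat.rec (i x') (fun j y => F x' j y) j : ℕ)
    let l : List ℕ := (List.range (t x' + 1)).map r
    have hl : l.length = t x' + 1 := by simp [l]
    have hb : ∀ j, j ≤ t x' → Nat.beta (Nat.unbeta l) j = r j := by
      intro j hj
      have := Nat.beta_unbeta_coe l ⟨j, by omega⟩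
      simp only [] at this
      rw [this]
      simp [l]
    refine ⟨Nat.unbeta l, ⟨hb 0 (Nat.zero_le _), fun j hj => ?_⟩, ?_⟩
    · rw [hb (j+1) hj, hb j (by omega)]
    · rw [hb _ le_rfl]; exact hz

/-- definition by cases on a number which only matters below `l` -/
theorem AF.cases {l : ℕ} {f : ℕ → (α → ℕ) → ℕ} {g : (α → ℕ) → ℕ} {t : (α → ℕ) → ℕ} [Finite α]
    (hf : ∀ a, a < l → AF (f a)) (hg : AF g) (hfg : ∀ a, l ≤ a → f a = g) (ht : AF t) :
    AF (fun x => f (t x) x) := by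
  apply DF.of_graph
  have h1 : AP (fun x : α ⊕ Unit → ℕ =>
      (∀ a : Fin l, t (fun a => x (Sum.inl a)) = a → f a (fun a => x (Sum.inl a)) = x (Sum.inr ()))
      ∧ (l ≤ t (fun a => x (Sum.inl a)) → g (fun a => x (Sum.inl a)) = x (Sum.inr ()))) := by
    refine DP.and (DP.forall_fin fun a => DP.imp (DP.eq (DF.subst ht (fun b => DF.var _))
      (DF.const _)) (DP.eq (DF.subst (hf a a.2) (fun b => DF.var _)) (DF.var _))) ?_
    exact DP.imp (AP.le (DF.const _) (DF.subst ht (fun b => DF.var _)))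
      (DP.eq (DF.subst hg (fun b => DF.var _)) (DF.var _))
  refine DP.congr h1 fun x => ?_
  set x' : α → ℕ := fun a => x (Sum.inl a) with hx'
  constructor
  · rintro ⟨h1, h2⟩
    by_cases h : t x' < l
    · exact h1 ⟨t x', h⟩ rfl
    · rw [hfg _ (not_lt.mp h)]; exact h2 (not_lt.mp h)
  · intro h
    refine ⟨fun a ha => ?_, fun hl => ?_⟩
    · rw [← ha]; exact h
    · rw [← hfg _ hl]; exact h

end

end Pool.Agent.Helper94
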