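import Pool.Agent.Helper94.GroupSide

/-!
Congruences modulo the submodules `(p, T_j - k_j) V`.
-/

namespace Pool.Agent.Helper94

open FirstOrder FirstOrder.Language Multiplicative
open scoped commutatorElement

universe u v w

theorem DF.lift {L : FirstOrder.Language.{u, v}} {M : Type w} [L.Structure M] {α β : Type}
    [Finite α] {t : (α → M) → M} (ht : DF L t) :
    DF L (fun x : α ⊕ β → M => t (fun a => x (Sum.inl a))) :=
  DF.subst ht fun _ => DF.var _

theorem DP.lift {L : FirstOrder.Language.{u, v}} {M : Type w} [L.Structure M] {α β : Type}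
    {t : (α → M) → Prop} (ht : DP L t) :
    DP L (fun x : α ⊕ β → M => t (fun a => x (Sum.inl a))) :=
  DP.reindex ht _

section AT
variable {m : ℕ} (V : Type v) [AddCommGroup V] [Module (LR m) V]

/-- The submodule `(p, T_j - k_j) V`. -/
def AT (p : ℕ) (k : Fin m → ℕ) : Submodule (LR m) V where
  carrier := {v | ∃ (w : Fin m → V) (w' : V), v = ∑ j, (Tm (ue j) • w j - k j • w j) + p • w'}
  add_mem' := by
    rintro _ _ ⟨w, w', rfl⟩ ⟨u, u', rfl⟩
    refine ⟨w + u, w' + u', ?_⟩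
    simp only [Pi.add_apply, smul_add, Finset.sum_sub_distrib, Finset.sum_add_distrib]
    abel
  zero_mem' := ⟨0, 0, by simp⟩
  smul_mem' := by
    rintro r _ ⟨w, w', rfl⟩
    refine ⟨fun j => r • w j, r • w', ?_⟩
    rw [smul_add, Finset.smul_sum]
    congr 1
    · refine Finset.sum_congr rfl fun j _ => ?_
      rw [smul_sub, smul_comm r, smul_comm r]
    · rw [smul_comm r]

variable {V}

theorem AT_char {p : ℕ} {k : Fin m → ℕ} {v : V} (hv : v ∈ AT V p k) (χ : LR m →+* ZMod p)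
    (hχ : ∀ j, χ (Tm (ue j)) = (k j : ZMod p)) (f : V →ₗ[LR m] LR m) : χ (f v) = 0 := by
  obtain ⟨w, w', rfl⟩ := hv
  rw [map_add, map_sum, map_add, map_sum, map_nsmul, map_nsmul]
  have h1 : p • χ (f w') = 0 := by simp
  rw [h1, add_zero]
  refine Finset.sum_eq_zero fun j _ => ?_
  rw [map_sub, map_sub, map_smul, map_nsmul, smul_eq_mul, map_mul, hχ, map_nsmul, nsmul_eq_mul, sub_self]

theorem AT_p {p : ℕ} (k : Fin m → ℕ) (v : V) : p • v ∈ AT V p k :=
  ⟨0, v, by simp⟩

theorem AT_T (p : ℕ) (k : Fin m → ℕ) (j : Fin m) (v : V) : Tm (ue j) • v - k j • v ∈ AT V p k := by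
  classical
  refine ⟨Pi.single j v, 0, ?_⟩
  rw [Finset.sum_eq_single j]
  · simp
  · intro l _ hl; simp [hl]
  · intro h0; exact absurd (Finset.mem_univ j) h0

theorem AT_int {p : ℕ} {k : Fin m → ℕ} (hp : p.Prime) (hk : ∀ j, ¬ p ∣ k j) (r : LR m) :
    ∃ n : ℤ, ∀ v : V, r • v - n • v ∈ AT V p k := by
  let B : Subring (LR m) :=
    { carrier := {r | ∃ n : ℤ, ∀ v : V, r • v - n • v ∈ AT V p k}
      mul_mem' := by
        rintro r r' ⟨n, hn⟩ ⟨n', hn'⟩
        refine ⟨n * n', fun v => ?_⟩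
        have e : (r * r') • v - (n * n') • v = r • (r' • v - n' • v) + (r • (n' • v) - n • (n' • v)) := by
          rw [smul_sub, mul_smul, mul_smul]; abel
        rw [e]
        exact Submodule.add_mem _ (Submodule.smul_mem _ _ (hn' v)) (hn _)
      one_mem' := ⟨1, fun v => by simp⟩
      add_mem' := by
        rintro r r' ⟨n, hn⟩ ⟨n', hn'⟩
        refine ⟨n + n', fun v => ?_⟩
        have e : (r + r') • v - (n + n') • v = (r • v - n • v) + (r' • v - n' • v) := by
          rw [add_smul, add_smul]; abel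
        rw [e]
        exact Submodule.add_mem _ (hn v) (hn' v)
      zero_mem' := ⟨0, fun v => by simp⟩
      neg_mem' := by
        rintro r ⟨n, hn⟩
        refine ⟨-n, fun v => ?_⟩
        have e : (-r) • v - (-n) • v = -(r • v - n • v) := by
          rw [neg_smul, neg_smul]; abel
        rw [e]
        exact Submodule.neg_mem _ (hn v) }
  refine subring_eq_top B (fun j => ⟨k j, fun v => ?_⟩) (fun j => ?_) r
  · rw [natCast_zsmul]; exact AT_T p k j v
  · -- the inverse of k j modulo p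
    have hc : Nat.Coprime (k j) p := (Nat.Prime.coprime_iff_not_dvd hp).mpr (hk j) |>.symm
    have hb := Int.gcd_eq_gcd_ab (k j) p
    have hg : Int.gcd (k j) p = 1 := by simpa using hc
    rw [hg] at hb
    set a := Int.gcdA (k j) p
    set b := Int.gcdB (k j) p
    refine ⟨a, fun v => ?_⟩
    have e : Tm (-ue j) • v - a • v = -(a • (Tm (-ue j) • (Tm (ue j) • v - k j • v)))
        + b • (p • (Tm (-ue j) • v)) := by
      have h1 : Tm (-ue j) • Tm (ue j) • v = v := by
        rw [smul_smul, mul_comm, Tm_mul_neg, one_smul]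
      rw [smul_sub, h1, smul_sub]
      have h3 : a • Tm (-ue j) • k j • v = (k j * a : ℤ) • Tm (-ue j) • v := by
        rw [mul_comm, mul_smul, natCast_zsmul, smul_comm (k j) (Tm (-ue j)) v]
      have h4 : b • (p • (Tm (-ue j) • v)) = (p * b : ℤ) • Tm (-ue j) • v := by
        rw [mul_comm, mul_smul, natCast_zsmul]
      rw [h3, h4]
      have h5 : Tm (-ue j) • v = (k j * a : ℤ) • Tm (-ue j) • v + (p * b : ℤ) • Tm (-ue j) • v := by
        rw [← add_smul, ← hb]; simp
      rw [neg_sub, sub_add_eq_add_sub, ← h5]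
    rw [e]
    refine Submodule.add_mem _ (Submodule.neg_mem _ ?_) ?_
    · exact zsmul_mem (Submodule.smul_mem _ _ (AT_T p k j v)) a
    · exact zsmul_mem (AT_p k _) b

theorem AT_nat {p : ℕ} {k : Fin m → ℕ} (hp : p.Prime) (hk : ∀ j, ¬ p ∣ k j) {d : ℕ} {s : Fin d → V}
    (hs : Submodule.span (LR m) (Set.range s) = ⊤) (v : V) :
    ∃ z : Fin d → ℕ, v - ∑ l, z l • s l ∈ AT V p k := by
  have hv : v ∈ Submodule.span (LR m) (Set.range s) := by rw [hs]; trivial
  rw [Submodule.mem_span_range_iff_exists_fun] at hv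
  obtain ⟨c, rfl⟩ := hv
  have h1 : ∀ l, ∃ n : ℕ, c l • s l - n • s l ∈ AT V p k := by
    intro l
    obtain ⟨n, hn⟩ := AT_int (V := V) hp hk (c l)
    refine ⟨(n % p).toNat, ?_⟩
    have h2 : 0 ≤ n % p := Int.emod_nonneg _ (by exact_mod_cast hp.ne_zero)
    have h3 : ((n % p).toNat) • s l = (n % p) • s l := by
      rw [← natCast_zsmul, Int.toNat_of_nonneg h2]
    have e : c l • s l - ((n % p).toNat) • s l = (c l • s l - n • s l) + p • ((n / p) • s l) := by
      rw [h3]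
      have h4 : n • s l = (n % p) • s l + p • ((n / p) • s l) := by
        rw [← natCast_zsmul, smul_smul, ← add_smul]
        congr 1
        exact (Int.emod_add_mul_ediv n p).symm
      rw [h4]; abel
    rw [e]
    exact Submodule.add_mem _ (hn _) (AT_p k _)
  choose z hz using h1
  refine ⟨z, ?_⟩
  rw [← Finset.sum_sub_distrib]
  exact Submodule.sum_mem _ fun l _ => hz l

end AT

namespace Setup

variable {G : Type u} [Group G] {m : ℕ} {V : Type v} [AddCommGroup V] [Module (LR m) V]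
  {π : G →* Multiplicative (Fin m → ℤ)} {i : Multiplicative V →* G}

/-- `a` is congruent to a given combination of generators. -/
def Erel (i : Multiplicative V →* G) (h : G) {d : ℕ} (s : Fin d → V) (a P : G) (K : Fin m → G)
    (Z : Fin d → G) : Prop :=
  ∃ (p : ℕ) (k : Fin m → ℕ) (z : Fin d → ℕ), (P = h ^ p ∧ (∀ j, K j = h ^ (k j)) ∧
    (∀ l, Z l = h ^ (z l))) ∧ ∃ v : V, v ∈ AT V p k ∧ a = i (ofAdd (∑ l, z l • s l + v))

variable (S : Setup π i) {h : G} {j0 : Fin m} (hh : π h = ofAdd (ue j0))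
include S hh

theorem Erel_def {d : ℕ} (s : Fin d → V) {α : Type} [Finite α] {a P : (α → G) → G}
    {K : Fin m → (α → G) → G} {Z : Fin d → (α → G) → G}
    (ha : GF a) (hP : GF P) (hK : ∀ j, GF (K j)) (hZ : ∀ l, GF (Z l)) :
    GP (fun x => Erel i h s (a x) (P x) (fun j => K j x) (fun l => Z l x)) := by
  choose g hg using fun j : Fin m => S.surj (ofAdd (ue j))
  have h1 : GP (fun x : α → G => ∃ y : (Fin m ⊕ Fin m) ⊕ ((Unit ⊕ Unit) ⊕ Fin d) → G,
      (∀ j, ∃ (k : ℕ) (v : V), K j x = h ^ k ∧ y (Sum.inl (Sum.inl j)) = i (ofAdd v) ∧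
        y (Sum.inl (Sum.inr j)) = i (ofAdd (k • v))) ∧
      (∃ (k : ℕ) (v : V), P x = h ^ k ∧ y (Sum.inr (Sum.inl (Sum.inl ()))) = i (ofAdd v) ∧
        y (Sum.inr (Sum.inl (Sum.inr ()))) = i (ofAdd (k • v))) ∧
      (∀ l, ∃ (k : ℕ) (v : V), Z l x = h ^ k ∧ i (ofAdd (s l)) = i (ofAdd v) ∧
        y (Sum.inr (Sum.inr l)) = i (ofAdd (k • v))) ∧
      a x = (List.ofFn fun l => y (Sum.inr (Sum.inr l))).prod *
        ((List.ofFn fun j => (g j * y (Sum.inl (Sum.inl j)) * (g j)⁻¹) *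
          (y (Sum.inl (Sum.inr j)))⁻¹).prod * y (Sum.inr (Sum.inl (Sum.inr ()))))) := by
    refine DP.exs (DP.and (DP.forall_fin fun j => S.powA hh (hK j).lift (DF.var _) (DF.var _))
      (DP.and (S.powA hh hP.lift (DF.var _) (DF.var _))
      (DP.and (DP.forall_fin fun l => S.powA hh (hZ l).lift (DF.const _) (DF.var _))
      (DP.eq ha.lift (GF.mul (GF.prod fun l => DF.var _) (GF.mul (GF.prod fun j => ?_) (DF.var _)))))))
    exact GF.mul (GF.mul (GF.mul (DF.const _) (DF.var _)) (DF.const _)) (GF.inv (DF.var _))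
  refine h1.congr fun x => ?_
  have hconj : ∀ (j : Fin m) (v : V), g j * i (ofAdd v) * (g j)⁻¹ = i (ofAdd (Tm (ue j) • v)) := by
    intro j v
    rw [S.conj', tau_eq, hg j]; rfl
  have hprod : ∀ {n : ℕ} (f : Fin n → V), (List.ofFn fun j => i (ofAdd (f j))).prod =
      i (ofAdd (∑ j, f j)) := by
    intro n f
    have : (List.ofFn fun j => i (ofAdd (f j))) = (List.ofFn fun j => ofAdd (f j)).map i := by
      rw [List.map_ofFn]; rfl
    rw [this, ← map_list_prod, List.prod_ofFn, ofAdd_sum]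
  constructor
  · rintro ⟨y, h2, ⟨p, w', hp, hw', hpw'⟩, h4, h5⟩
    choose k w hk hw hkw using h2
    choose z u hz hu hzu using h4
    refine ⟨p, k, z, ⟨hp, hk, hz⟩, _, ⟨w, w', rfl⟩, ?_⟩
    rw [h5]
    simp only [hw, hkw, hconj, hpw', hzu, ← i_sub, hprod, ← i_add]
    rw [S.i_inj]
    congr 1
    refine Finset.sum_congr rfl fun l _ => ?_
    rw [(S.i_inj).mp (hu l)]
  · rintro ⟨p, k, z, ⟨hp, hk, hz⟩, _, ⟨w, w', rfl⟩, h5⟩
    refine ⟨Sum.elim (Sum.elim (fun j => i (ofAdd (w j))) (fun j => i (ofAdd (k j • w j))))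
      (Sum.elim (Sum.elim (fun _ => i (ofAdd w')) (fun _ => i (ofAdd (p • w'))))
        (fun l => i (ofAdd (z l • s l)))), fun j => ⟨k j, w j, hk j, rfl, rfl⟩,
        ⟨p, w', hp, rfl, rfl⟩, fun l => ⟨z l, s l, hz l, rfl, rfl⟩, ?_⟩
    rw [h5]
    simp only [Sum.elim_inl, Sum.elim_inr, hconj, ← i_sub, hprod, ← i_add]

/-- Separation. -/
theorem Erel_sep {d : ℕ} {s : Fin d → V} (hs : Submodule.span (LR m) (Set.range s) = ⊤) {v v' : V}
    (hvv : ∀ (P : G) (K : Fin m → G) (Z : Fin d → G), Erel i h s (i (ofAdd v)) P K Z → Erel i h s (i (ofAdd v')) P K Z) : v = v' := by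
  by_contra hne
  have := S.fin
  obtain ⟨n, φ, hφ⟩ := exists_embedding (R := LR m) (V := V) S.tf
  have h1 : ∃ l, φ (v - v') l ≠ 0 := by
    by_contra h2
    push Not at h2
    apply hne
    rw [← sub_eq_zero]
    apply hφ
    rw [map_zero]
    exact funext h2
  obtain ⟨l, hl⟩ := h1
  obtain ⟨p, hp, κ, hκ⟩ := sep (φ (v - v') l) hl
  have : Fact p.Prime := ⟨hp⟩
  have : NeZero p := ⟨hp.ne_zero⟩
  let k : Fin m → ℕ := fun j => (κ j : ZMod p).val
  have hk1 : ∀ j, ((k j : ℕ) : ZMod p) = κ j := fun j => ZMod.natCast_zmod_val _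
  have hk : ∀ j, ¬ p ∣ k j := by
    intro j hd
    have h2 := (ZMod.natCast_eq_zero_iff _ _).mpr hd
    rw [hk1] at h2
    exact (κ j).ne_zero h2
  obtain ⟨z, hz⟩ := AT_nat (V := V) hp hk hs v
  have h3 : Erel i h s (i (ofAdd v)) (h ^ p) (fun j => h ^ (k j)) (fun l => h ^ (z l)) :=
    ⟨p, k, z, ⟨rfl, fun _ => rfl, fun _ => rfl⟩, _, hz, by rw [add_sub_cancel]⟩
  obtain ⟨p', k', z', ⟨hp', hk', hz'⟩, u, hu, hu'⟩ := hvv _ _ _ h3
  have e1 : p' = p := ((S.pow_inj hh).mp hp').symm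
  have e2 : k' = k := funext fun j => ((S.pow_inj hh).mp (hk' j)).symm
  have e3 : z' = z := funext fun j => ((S.pow_inj hh).mp (hz' j)).symm
  rw [e1, e2] at hu
  rw [e3, S.i_inj] at hu'
  have h4 : v - v' ∈ AT V p k := by
    have : v - v' = (v - ∑ l, z l • s l) - u := by rw [hu']; abel
    rw [this]
    exact Submodule.sub_mem _ hz hu
  have h5 := AT_char h4 (ev κ) (fun j => by rw [ev_ue, hk1]) ((LinearMap.proj l).comp φ)
  exact hκ h5

end Setup

end Pool.Agent.Helper94
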