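import Pool.Agent.Helper94.Arith
import Pool.Agent.Helper94.Alg

/-!
The word problem is arithmetic.
-/

namespace Pool.Agent.Helper94

open FirstOrder FirstOrder.Language Multiplicative

universe u v w

theorem AF.sub {α : Type} {s t : (α → ℕ) → ℕ} (hs : AF s) (ht : AF t) : AF (fun x => s x - t x) := by
  have h : AF (fun x : Fin 2 → ℕ => x 0 - x 1) := by
    apply DF.of_graph
    have h1 : AP (fun x : Fin 2 ⊕ Unit → ℕ =>
      (x (Sum.inl 1) ≤ x (Sum.inl 0) ∧ x (Sum.inl 1) + x (Sum.inr ()) = x (Sum.inl 0))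
      ∨ (x (Sum.inl 0) < x (Sum.inl 1) ∧ x (Sum.inr ()) = 0)) := by
      refine DP.or (DP.and (AP.le (DF.var _) (DF.var _)) (DP.eq (AF.add (DF.var _) (DF.var _)) (DF.var _)))
        (DP.and (AP.lt (DF.var _) (DF.var _)) (DP.eq (DF.var _) (DF.const _)))
    refine DP.congr h1 fun x => ?_
    beta_reduce
    omega
  exact DF.fun2 (R := fun a b => a - b) h hs ht

theorem AF.pow {α : Type} {s t : (α → ℕ) → ℕ} (hs : AF s) (ht : AF t) : AF (fun x => s x ^ t x) := by
  have h : AF (fun x : Fin 2 → ℕ => x 0 ^ x 1) := by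
    have h1 : AF (fun x : Fin 2 → ℕ => (Nat.rec 1 (fun _ y => y * x 0) (x 1) : ℕ)) :=
      AF.natRec (F := fun x _ y => y * x 0) (DF.const 1) (AF.mul (DF.var _) (DF.var _)) (DF.var _)
    have h2 : (fun x : Fin 2 → ℕ => (Nat.rec 1 (fun _ y => y * x 0) (x 1) : ℕ)) =
        fun x : Fin 2 → ℕ => x 0 ^ x 1 := by
      funext x
      induction x 1 with
      | zero => simp
      | succ n ih => simp only [pow_succ, ← ih]
    rwa [h2] at h1
  exact DF.fun2 (R := fun a b => a ^ b) h hs ht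

section RF
variable {m : ℕ}

/-- The values of `f` at characters into prime fields are given by a definable function. -/
def RFun (f : LR m) (F : (Option (Fin m) → ℕ) → ℕ) : Prop :=
  AF F ∧ ∀ (p : ℕ) (k : Fin m → ℕ), p.Prime → ∀ χ : LR m →+* ZMod p,
    (∀ j, χ (Tm (ue j)) = (k j : ZMod p)) → χ f = (F (fun o => o.elim p k) : ZMod p)

theorem RFun_exists (f : LR m) : ∃ F, RFun f F := by
  let B : Subring (LR m) :=
    { carrier := {f | ∃ F, RFun f F}
      mul_mem' := by
        rintro f f' ⟨F, hF, hF'⟩ ⟨F₁, hF₁, hF₁'⟩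
        exact ⟨fun x => F x * F₁ x, hF.mul hF₁, fun p k hp χ hχ => by
          rw [map_mul, hF' p k hp χ hχ, hF₁' p k hp χ hχ, Nat.cast_mul]⟩
      one_mem' := ⟨fun _ => 1, DF.const _, fun p k hp χ hχ => by rw [map_one, Nat.cast_one]⟩
      add_mem' := by
        rintro f f' ⟨F, hF, hF'⟩ ⟨F₁, hF₁, hF₁'⟩
        exact ⟨fun x => F x + F₁ x, hF.add hF₁, fun p k hp χ hχ => by
          rw [map_add, hF' p k hp χ hχ, hF₁' p k hp χ hχ, Nat.cast_add]⟩
      zero_mem' := ⟨fun _ => 0, DF.const _, fun p k hp χ hχ => by rw [map_zero, Nat.cast_zero]⟩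
      neg_mem' := by
        rintro f ⟨F, hF, hF'⟩
        refine ⟨fun x => (x none - 1) * F x, (AF.sub (DF.var _) (DF.const _)).mul hF,
          fun p k hp χ hχ => ?_⟩
        rw [map_neg, hF' p k hp χ hχ, Nat.cast_mul]
        simp only [Option.elim]
        rw [Nat.cast_sub hp.one_lt.le, ZMod.natCast_self, Nat.cast_one, zero_sub, neg_one_mul] }
  refine subring_eq_top B (fun j => ?_) (fun j => ?_) f
  · exact ⟨fun x => x (some j), DF.var _, fun p k hp χ hχ => hχ j⟩
  · refine ⟨fun x => x (some j) ^ (x none - 2), AF.pow (DF.var _) (AF.sub (DF.var _) (DF.const _)),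
      fun p k hp χ hχ => ?_⟩
    have : Fact p.Prime := ⟨hp⟩
    simp only [Option.elim]
    have e1 : χ (Tm (ue j)) * χ (Tm (-ue j)) = 1 := by rw [← map_mul, Tm_mul_neg, map_one]
    rw [hχ j] at e1
    have hne : (k j : ZMod p) ≠ 0 := left_ne_zero_of_mul_eq_one e1
    have e2 : (k j : ZMod p) * (k j : ZMod p) ^ (p - 2) = 1 := by
      rw [← pow_succ']
      have : p - 2 + 1 = p - 1 := by have := hp.two_le; omega
      rw [this]
      exact ZMod.pow_card_sub_one_eq_one hne
    push_cast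
    exact mul_left_cancel₀ hne (e1.trans e2.symm)

/-- a choice of definable evaluation functions -/
noncomputable def RFn (f : LR m) : (Option (Fin m) → ℕ) → ℕ := Classical.choose (RFun_exists f)

theorem RFn_af (f : LR m) : AF (RFn f) := (Classical.choose_spec (RFun_exists f)).1

theorem RFn_spec (f : LR m) {p : ℕ} {k : Fin m → ℕ} (hp : p.Prime) {χ : LR m →+* ZMod p}
    (hχ : ∀ j, χ (Tm (ue j)) = (k j : ZMod p)) : χ f = (RFn f (fun o => o.elim p k) : ZMod p) :=
  (Classical.choose_spec (RFun_exists f)).2 p k hp χ hχ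

theorem exists_char {p : ℕ} {k : Fin m → ℕ} (hp : p.Prime) (hk : ∀ j, ¬ p ∣ k j) :
    ∃ χ : LR m →+* ZMod p, ∀ j, χ (Tm (ue j)) = (k j : ZMod p) := by
  have : Fact p.Prime := ⟨hp⟩
  have hne : ∀ j, (k j : ZMod p) ≠ 0 := fun j h => hk j ((ZMod.natCast_eq_zero_iff _ _).mp h)
  exact ⟨ev (fun j => Units.mk0 _ (hne j)), fun j => by rw [ev_ue, Units.val_mk0]⟩

theorem char_sep {f f' : LR m} (h : ∀ (p : ℕ) (k : Fin m → ℕ), p.Prime → (∀ j, ¬ p ∣ k j) →
    ∀ χ : LR m →+* ZMod p, (∀ j, χ (Tm (ue j)) = (k j : ZMod p)) → χ f = χ f') : f = f' := by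
  by_contra hne
  obtain ⟨p, hp, κ, hκ⟩ := sep (f - f') (sub_ne_zero.mpr hne)
  have : Fact p.Prime := ⟨hp⟩
  have : NeZero p := ⟨hp.ne_zero⟩
  have hk1 : ∀ j, (((κ j : ZMod p).val : ℕ) : ZMod p) = κ j := fun j => ZMod.natCast_zmod_val _
  apply hκ
  rw [map_sub, sub_eq_zero]
  refine h p (fun j => (κ j : ZMod p).val) hp (fun j hd => ?_) _ (fun j => by rw [ev_ue, hk1])
  have h2 := (ZMod.natCast_eq_zero_iff _ _).mpr hd
  rw [hk1] at h2
  exact (κ j).ne_zero h2

end RF

section WP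
variable {m : ℕ} {G : Type u} [Group G]

/-- The enumeration of a group from an enumeration of its generators. -/
noncomputable def nu (s : ℕ → G) (c : ℕ) : G :=
  Nat.rec 1 (fun j y => s (Nat.beta c.unpair.2 j) * y) c.unpair.1

variable (τ : G →* LR m) {n : ℕ} (D : Fin n → G → LR m)

/-- evaluation of `τ` along a code -/
noncomputable def uval (s : ℕ → G) (c p : ℕ) (k : Fin m → ℕ) : ℕ :=
  Nat.rec 1 (fun j y => RFn (τ (s (Nat.beta c.unpair.2 j))) (fun o => o.elim p k) * y) c.unpair.1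

/-- evaluation of a crossed homomorphism along a code -/
noncomputable def vval (E : G → LR m) (s : ℕ → G) (c p : ℕ) (k : Fin m → ℕ) : ℕ :=
  Nat.rec 0 (fun j y => RFn (E (s (Nat.beta c.unpair.2 j))) (fun o => o.elim p k) +
    RFn (τ (s (Nat.beta c.unpair.2 j))) (fun o => o.elim p k) * y) c.unpair.1

theorem table_af {α : Type} [Finite α] (E : G → LR m) {s : ℕ → G} {l : ℕ} (hs : ∀ a, l ≤ a → s a = 1)
    {a p : (α → ℕ) → ℕ} {k : Fin m → (α → ℕ) → ℕ} (ha : AF a) (hp : AF p) (hk : ∀ j, AF (k j)) :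
    AF (fun x => RFn (E (s (a x))) (fun o => o.elim (p x) (fun j => k j x))) := by
  refine AF.cases (f := fun a x => RFn (E (s a)) (fun o => o.elim (p x) (fun j => k j x)))
    (g := fun x => RFn (E 1) (fun o => o.elim (p x) (fun j => k j x))) (l := l) (t := a) ?_ ?_ ?_ ha
  · intro a _
    refine DF.subst (β := Option (Fin m)) (RFn_af _) (t := fun o x => o.elim (p x) (fun j => k j x)) ?_
    rintro (_ | j)
    · exact hp
    · exact hk j
  · refine DF.subst (β := Option (Fin m)) (RFn_af _) (t := fun o x => o.elim (p x) (fun j => k j x)) ?_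
    rintro (_ | j)
    · exact hp
    · exact hk j
  · intro a ha
    rw [hs a ha]

theorem lift2 {α : Type} [Finite α] {t : (α → ℕ) → ℕ} (ht : AF t) :
    AF (fun x : (α ⊕ Unit) ⊕ Unit → ℕ => t (fun a => x (Sum.inl (Sum.inl a)))) :=
  DF.subst ht fun _ => DF.var _

theorem uval_af {α : Type} [Finite α] {s : ℕ → G} {l : ℕ} (hs : ∀ a, l ≤ a → s a = 1)
    {c p : (α → ℕ) → ℕ} {k : Fin m → (α → ℕ) → ℕ} (hc : AF c) (hp : AF p) (hk : ∀ j, AF (k j)) :
    AF (fun x => uval τ s (c x) (p x) (fun j => k j x)) := by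
  refine AF.natRec (F := fun x j y => RFn (τ (s (Nat.beta (c x).unpair.2 j)))
    (fun o => o.elim (p x) (fun j => k j x)) * y) (DF.const 1) ?_ (AF.unpair1 hc)
  refine AF.mul ?_ (DF.var _)
  exact table_af (fun g => τ g) hs (AF.beta (AF.unpair2 (lift2 hc)) (DF.var _)) (lift2 hp)
    (fun j => lift2 (hk j))

theorem vval_af (E : G → LR m) {α : Type} [Finite α] {s : ℕ → G} {l : ℕ} (hs : ∀ a, l ≤ a → s a = 1)
    {c p : (α → ℕ) → ℕ} {k : Fin m → (α → ℕ) → ℕ} (hc : AF c) (hp : AF p) (hk : ∀ j, AF (k j)) :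
    AF (fun x => vval τ E s (c x) (p x) (fun j => k j x)) := by
  refine AF.natRec (F := fun x j y => RFn (E (s (Nat.beta (c x).unpair.2 j)))
    (fun o => o.elim (p x) (fun j => k j x)) + RFn (τ (s (Nat.beta (c x).unpair.2 j)))
    (fun o => o.elim (p x) (fun j => k j x)) * y) (DF.const 0) ?_ (AF.unpair1 hc)
  refine AF.add ?_ (AF.mul ?_ (DF.var _))
  · exact table_af E hs (AF.beta (AF.unpair2 (lift2 hc)) (DF.var _)) (lift2 hp)
      (fun j => lift2 (hk j))
  · exact table_af (fun g => τ g) hs (AF.beta (AF.unpair2 (lift2 hc)) (DF.var _)) (lift2 hp)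
      (fun j => lift2 (hk j))

theorem uval_spec (s : ℕ → G) (c : ℕ) {p : ℕ} {k : Fin m → ℕ} (hp : p.Prime) {χ : LR m →+* ZMod p}
    (hχ : ∀ j, χ (Tm (ue j)) = (k j : ZMod p)) : (uval τ s c p k : ZMod p) = χ (τ (nu s c)) := by
  unfold uval nu
  induction c.unpair.1 with
  | zero => simp
  | succ N ih =>
    simp only [Nat.cast_mul, map_mul, ih]
    rw [RFn_spec (τ (s (Nat.beta c.unpair.2 N))) hp hχ]

theorem vval_spec {E : G → LR m} (hE : ∀ x y, E (x * y) = E x + τ x * E y) (s : ℕ → G) (c : ℕ)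
    {p : ℕ} {k : Fin m → ℕ} (hp : p.Prime) {χ : LR m →+* ZMod p}
    (hχ : ∀ j, χ (Tm (ue j)) = (k j : ZMod p)) : (vval τ E s c p k : ZMod p) = χ (E (nu s c)) := by
  have hE1 : E 1 = 0 := by
    have := hE 1 1
    simpa using this
  unfold vval nu
  induction c.unpair.1 with
  | zero => simp [hE1]
  | succ N ih =>
    simp only [Nat.cast_add, Nat.cast_mul, hE, map_add, map_mul, ih]
    rw [RFn_spec (τ (s (Nat.beta c.unpair.2 N))) hp hχ, RFn_spec (E (s (Nat.beta c.unpair.2 N))) hp hχ]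

variable {τ D} (hD : ∀ l x y, D l (x * y) = D l x + τ x * D l y)
  (hsep : ∀ x y, τ x = τ y → (∀ l, D l x = D l y) → x = y)
include hD hsep

theorem nu_eq_iff (s : ℕ → G) (a b : ℕ) : nu s a = nu s b ↔ ∀ (p : ℕ) (k : Fin m → ℕ),
    (p.Prime ∧ ∀ j, ¬ p ∣ k j) → uval τ s a p k ≡ uval τ s b p k [MOD p] ∧
      ∀ l, vval τ (D l) s a p k ≡ vval τ (D l) s b p k [MOD p] := by
  constructor
  · rintro hab p k ⟨hp, hk⟩
    obtain ⟨χ, hχ⟩ := exists_char hp hk
    refine ⟨?_, fun l => ?_⟩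
    · rw [← ZMod.natCast_eq_natCast_iff, uval_spec τ s a hp hχ, uval_spec τ s b hp hχ, hab]
    · rw [← ZMod.natCast_eq_natCast_iff, vval_spec τ (hD l) s a hp hχ, vval_spec τ (hD l) s b hp hχ,
        hab]
  · intro h
    refine hsep _ _ (char_sep fun p k hp hk χ hχ => ?_) (fun l => char_sep fun p k hp hk χ hχ => ?_)
    · have := (h p k ⟨hp, hk⟩).1
      rwa [← ZMod.natCast_eq_natCast_iff, uval_spec τ s a hp hχ, uval_spec τ s b hp hχ] at this
    · have := (h p k ⟨hp, hk⟩).2 l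
      rwa [← ZMod.natCast_eq_natCast_iff, vval_spec τ (hD l) s a hp hχ, vval_spec τ (hD l) s b hp hχ]
        at this

theorem nu_mul_iff (s : ℕ → G) (a b c : ℕ) : nu s a * nu s b = nu s c ↔ ∀ (p : ℕ) (k : Fin m → ℕ),
    (p.Prime ∧ ∀ j, ¬ p ∣ k j) → uval τ s a p k * uval τ s b p k ≡ uval τ s c p k [MOD p] ∧
      ∀ l, vval τ (D l) s a p k + uval τ s a p k * vval τ (D l) s b p k
        ≡ vval τ (D l) s c p k [MOD p] := by
  constructor
  · rintro hab p k ⟨hp, hk⟩
    obtain ⟨χ, hχ⟩ := exists_char hp hk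
    refine ⟨?_, fun l => ?_⟩
    · rw [← ZMod.natCast_eq_natCast_iff]
      push_cast
      rw [uval_spec τ s a hp hχ, uval_spec τ s b hp hχ,
        uval_spec τ s c hp hχ, ← hab, map_mul, map_mul]
    · rw [← ZMod.natCast_eq_natCast_iff]
      push_cast
      rw [uval_spec τ s a hp hχ, vval_spec τ (hD l) s a hp hχ,
        vval_spec τ (hD l) s b hp hχ, vval_spec τ (hD l) s c hp hχ, ← hab, hD, map_add, map_mul]
  · intro h
    refine hsep _ _ (char_sep fun p k hp hk χ hχ => ?_) (fun l => char_sep fun p k hp hk χ hχ => ?_)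
    · have := (h p k ⟨hp, hk⟩).1
      rw [← ZMod.natCast_eq_natCast_iff] at this
      push_cast at this
      rw [uval_spec τ s a hp hχ, uval_spec τ s b hp hχ, uval_spec τ s c hp hχ] at this
      rw [map_mul, map_mul, this]
    · have := (h p k ⟨hp, hk⟩).2 l
      rw [← ZMod.natCast_eq_natCast_iff] at this
      push_cast at this
      rw [uval_spec τ s a hp hχ, vval_spec τ (hD l) s a hp hχ,
        vval_spec τ (hD l) s b hp hχ, vval_spec τ (hD l) s c hp hχ] at this
      rw [hD, map_add, map_mul, this]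

theorem nu_eq_ap {s : ℕ → G} {N : ℕ} (hs : ∀ a, N ≤ a → s a = 1) {α : Type} [Finite α]
    {a b : (α → ℕ) → ℕ} (ha : AF a) (hb : AF b) : AP (fun x => nu s (a x) = nu s (b x)) := by
  have h1 : AP (fun x : Fin 2 → ℕ => ∀ (p : ℕ), ∀ (k : Fin m → ℕ),
    (p.Prime ∧ ∀ j, ¬ p ∣ k j) → uval τ s (x 0) p k ≡ uval τ s (x 1) p k [MOD p] ∧
      ∀ l, vval τ (D l) s (x 0) p k ≡ vval τ (D l) s (x 1) p k [MOD p]) := by
    refine DP.all (DP.alls (DP.imp (DP.and (AP.prime (DF.var _)) (DP.forall_fin fun j =>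
      DP.not (AP.dvd (DF.var _) (DF.var _)))) (DP.and ?_ (DP.forall_fin fun l => ?_))))
    · exact AP.modEq (DF.var _) (uval_af τ hs (DF.var _) (DF.var _) (fun j => DF.var _))
        (uval_af τ hs (DF.var _) (DF.var _) (fun j => DF.var _))
    · exact AP.modEq (DF.var _) (vval_af τ _ hs (DF.var _) (DF.var _) (fun j => DF.var _))
        (vval_af τ _ hs (DF.var _) (DF.var _) (fun j => DF.var _))
  have h2 : AP (fun x : Fin 2 → ℕ => nu s (x 0) = nu s (x 1)) :=
    h1.congr fun x => (nu_eq_iff hD hsep s (x 0) (x 1)).symm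
  exact DP.rel2 (R := fun a b => nu s a = nu s b) h2 ha hb

theorem nu_mul_ap {s : ℕ → G} {N : ℕ} (hs : ∀ a, N ≤ a → s a = 1) {α : Type} [Finite α]
    {a b c : (α → ℕ) → ℕ} (ha : AF a) (hb : AF b) (hc : AF c) :
    AP (fun x => nu s (a x) * nu s (b x) = nu s (c x)) := by
  have h1 : AP (fun x : Fin 3 → ℕ => ∀ (p : ℕ), ∀ (k : Fin m → ℕ),
    (p.Prime ∧ ∀ j, ¬ p ∣ k j) → uval τ s (x 0) p k * uval τ s (x 1) p k ≡ uval τ s (x 2) p k [MOD p] ∧
      ∀ l, vval τ (D l) s (x 0) p k + uval τ s (x 0) p k * vval τ (D l) s (x 1) p k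
        ≡ vval τ (D l) s (x 2) p k [MOD p]) := by
    refine DP.all (DP.alls (DP.imp (DP.and (AP.prime (DF.var _)) (DP.forall_fin fun j =>
      DP.not (AP.dvd (DF.var _) (DF.var _)))) (DP.and ?_ (DP.forall_fin fun l => ?_))))
    · exact AP.modEq (DF.var _) (AF.mul (uval_af τ hs (DF.var _) (DF.var _) (fun j => DF.var _))
        (uval_af τ hs (DF.var _) (DF.var _) (fun j => DF.var _)))
        (uval_af τ hs (DF.var _) (DF.var _) (fun j => DF.var _))
    · exact AP.modEq (DF.var _) (AF.add (vval_af τ _ hs (DF.var _) (DF.var _) (fun j => DF.var _))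
        (AF.mul (uval_af τ hs (DF.var _) (DF.var _) (fun j => DF.var _))
        (vval_af τ _ hs (DF.var _) (DF.var _) (fun j => DF.var _))))
        (vval_af τ _ hs (DF.var _) (DF.var _) (fun j => DF.var _))
  have h2 : AP (fun x : Fin 3 → ℕ => nu s (x 0) * nu s (x 1) = nu s (x 2)) :=
    h1.congr fun x => (nu_mul_iff hD hsep s (x 0) (x 1) (x 2)).symm
  exact DP.rel3 (R := fun a b c => nu s a * nu s b = nu s c) h2 ha hb hc

omit hD hsep in
/-- Every element has a code. -/
theorem nu_surj {s : ℕ → G} (hs : Submonoid.closure (Set.range s) = ⊤) (g : G) : ∃ c, nu s c = g := by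
  have key : ∀ l : List ℕ, ∃ w, ∀ (j : ℕ) (hj : j < l.length), Nat.beta w j = l[j] := by
    intro l
    refine ⟨Nat.unbeta l, fun j hj => ?_⟩
    have := Nat.beta_unbeta_coe l ⟨j, hj⟩
    simpa using this
  have hl : ∃ l : List ℕ, (l.map s).prod = g := by
    have hg : g ∈ Submonoid.closure (Set.range s) := by rw [hs]; trivial
    induction hg using Submonoid.closure_induction with
    | mem x hx => obtain ⟨a, rfl⟩ := hx; exact ⟨[a], by simp⟩
    | one => exact ⟨[], by simp⟩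
    | mul x y _ _ hx hy =>
      obtain ⟨l, rfl⟩ := hx
      obtain ⟨l', rfl⟩ := hy
      exact ⟨l ++ l', by simp⟩
  obtain ⟨l, rfl⟩ := hl
  obtain ⟨w, hw⟩ := key l.reverse
  refine ⟨Nat.pair l.length w, ?_⟩
  unfold nu
  rw [Nat.unpair_pair]
  have h2 : ∀ n, n ≤ l.length → (Nat.rec 1 (fun j y => s (Nat.beta w j) * y) n : G) =
      ((l.drop (l.length - n)).map s).prod := by
    intro n
    induction n with
    | zero => intro _; simp
    | succ n ih =>
      intro hn
      have h3 := ih (by omega)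
      show s (Nat.beta w n) * (Nat.rec 1 (fun j y => s (Nat.beta w j) * y) n : G) = _
      rw [h3, hw n (by rw [List.length_reverse]; omega), List.getElem_reverse]
      have h4 : l.length - (n + 1) < l.length := by omega
      rw [List.drop_eq_getElem_cons h4, List.map_cons, List.prod_cons]
      have h5 : l.length - (n + 1) + 1 = l.length - n := by omega
      have h6 : l.length - 1 - n = l.length - (n + 1) := by omega
      rw [h5]
      congr 2
      exact getElem_congr_idx h6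
  have := h2 l.length le_rfl
  simpa using this

end WP

end Pool.Agent.Helper94
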