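import Pool.Agent.Helper94.Pull
import Pool.Agent.Helper94.Cong
import Pool.Agent.Helper94.WP

/-!
Assembly of the bi-interpretation.
-/

namespace Pool.Agent.Helper94

open FirstOrder FirstOrder.Language Multiplicative
open scoped commutatorElement

universe u v w

section interp

variable {L : FirstOrder.Language.{u, v}} {M : Type w} [L.Structure M]

/-- The interpretation of arithmetic given by a definable copy. -/
noncomputable def ofArithIn {e : ℕ → M} (h : ArithIn L e) : Interpretation L M arithLang ℕ where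
  dim := 1
  dom := {x | ∃ n, x 0 = e n}
  coord := fun x => Function.invFun e (x 0)
  surj := fun y => ⟨fun _ => e y, ⟨y, rfl⟩, Function.leftInverse_invFun h.inj y⟩
  dom_def := h.domP (DF.var _)
  eq_def := by
    have h1 : DP L (fun x : Fin 2 × Fin 1 → M => (∀ i, ∃ n, x (i, 0) = e n) ∧ x (0, 0) = x (1, 0)) :=
      DP.and (DP.forall_fin fun i => h.domP (DF.var _)) (DP.eq (DF.var _) (DF.var _))
    refine h1.congr fun x => ?_
    constructor
    · rintro ⟨h2, h3⟩
      refine ⟨fun i => h2 i, ?_⟩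
      show Function.invFun e (x (0, 0)) = Function.invFun e (x (1, 0))
      rw [h3]
    · rintro ⟨h2, h3⟩
      refine ⟨fun i => h2 i, ?_⟩
      obtain ⟨a, ha⟩ := h2 0
      obtain ⟨b, hb⟩ := h2 1
      have ha' : x (0, 0) = e a := ha
      have hb' : x (1, 0) = e b := hb
      have h4 : Function.invFun e (x (0, 0)) = Function.invFun e (x (1, 0)) := h3
      rw [ha', hb', Function.leftInverse_invFun h.inj a, Function.leftInverse_invFun h.inj b] at h4
      rw [ha', hb', h4]
  fun_def := by
    intro n f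
    cases f with
    | add =>
      have h1 : DP L (fun x : Fin 3 × Fin 1 → M => ∃ m n, x (0, 0) = e m ∧ x (1, 0) = e n ∧
          x (2, 0) = e (m + n)) := h.addP (DF.var _) (DF.var _) (DF.var _)
      refine h1.congr fun x => ?_
      constructor
      · rintro ⟨a, b, ha, hb, hc⟩
        refine ⟨fun i => ?_, ?_⟩
        · fin_cases i
          · exact ⟨a, ha⟩
          · exact ⟨b, hb⟩
          · exact ⟨_, hc⟩
        · show Function.invFun e (x (0, 0)) + Function.invFun e (x (1, 0)) =
            Function.invFun e (x (2, 0))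
          rw [ha, hb, hc, Function.leftInverse_invFun h.inj, Function.leftInverse_invFun h.inj,
            Function.leftInverse_invFun h.inj]
      · rintro ⟨h2, h3⟩
        obtain ⟨a, ha⟩ := h2 0
        obtain ⟨b, hb⟩ := h2 1
        obtain ⟨c, hc⟩ := h2 2
        have h4 : Function.invFun e (x (0, 0)) + Function.invFun e (x (1, 0)) =
            Function.invFun e (x (2, 0)) := h3
        have ha' : x (0, 0) = e a := ha
        have hb' : x (1, 0) = e b := hb
        have hc' : x (2, 0) = e c := hc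
        rw [ha', hb', hc', Function.leftInverse_invFun h.inj, Function.leftInverse_invFun h.inj,
            Function.leftInverse_invFun h.inj] at h4
        exact ⟨a, b, ha', hb', by rw [hc', h4]⟩
    | mul =>
      have h1 : DP L (fun x : Fin 3 × Fin 1 → M => ∃ m n, x (0, 0) = e m ∧ x (1, 0) = e n ∧
          x (2, 0) = e (m * n)) := h.mulP (DF.var _) (DF.var _) (DF.var _)
      refine h1.congr fun x => ?_
      constructor
      · rintro ⟨a, b, ha, hb, hc⟩
        refine ⟨fun i => ?_, ?_⟩
        · fin_cases i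
          · exact ⟨a, ha⟩
          · exact ⟨b, hb⟩
          · exact ⟨_, hc⟩
        · show Function.invFun e (x (0, 0)) * Function.invFun e (x (1, 0)) =
            Function.invFun e (x (2, 0))
          rw [ha, hb, hc, Function.leftInverse_invFun h.inj, Function.leftInverse_invFun h.inj,
            Function.leftInverse_invFun h.inj]
      · rintro ⟨h2, h3⟩
        obtain ⟨a, ha⟩ := h2 0
        obtain ⟨b, hb⟩ := h2 1
        obtain ⟨c, hc⟩ := h2 2
        have h4 : Function.invFun e (x (0, 0)) * Function.invFun e (x (1, 0)) =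
            Function.invFun e (x (2, 0)) := h3
        have ha' : x (0, 0) = e a := ha
        have hb' : x (1, 0) = e b := hb
        have hc' : x (2, 0) = e c := hc
        rw [ha', hb', hc', Function.leftInverse_invFun h.inj, Function.leftInverse_invFun h.inj,
            Function.leftInverse_invFun h.inj] at h4
        exact ⟨a, b, ha', hb', by rw [hc', h4]⟩
  rel_def := fun _ r => Empty.elim r

variable {G : Type u} [Group G]

/-- The interpretation of a group in arithmetic given by an arithmetic presentation. -/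
noncomputable def ofPresIn {ν : ℕ → G} (h : PresIn ν) : Interpretation arithLang ℕ groupLang G where
  dim := 1
  dom := Set.univ
  coord := fun x => ν (x 0)
  surj := fun y => by
    obtain ⟨c, hc⟩ := h.surj y
    exact ⟨fun _ => c, trivial, hc⟩
  dom_def := DP.const True
  eq_def := by
    refine DP.congr (h.eqP (DF.var ((0 : Fin 2), (0 : Fin 1))) (DF.var ((1 : Fin 2), (0 : Fin 1))))
      fun x => ?_
    exact ⟨fun h1 => ⟨fun _ => trivial, h1⟩, fun h1 => h1.2⟩
  fun_def := by
    intro n f
    cases f with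
    | one =>
      obtain ⟨c, hc⟩ := h.surj 1
      refine DP.congr (h.eqP (DF.const c) (DF.var ((0 : Fin 1), (0 : Fin 1)))) fun x => ?_
      rw [hc]
      exact ⟨fun h1 => ⟨fun _ => trivial, h1⟩, fun h1 => h1.2⟩
    | inv =>
      obtain ⟨c, hc⟩ := h.surj 1
      refine DP.congr (h.mulP (DF.var ((0 : Fin 2), (0 : Fin 1))) (DF.var ((1 : Fin 2), (0 : Fin 1)))
        (DF.const c)) fun x => ?_
      rw [hc]
      constructor
      · intro h1
        exact ⟨fun _ => trivial, inv_eq_of_mul_eq_one_right h1⟩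
      · rintro ⟨-, h1⟩
        have h2 : (ν (x (0, 0)))⁻¹ = ν (x (1, 0)) := h1
        rw [← h2, mul_inv_cancel]
    | mul =>
      refine DP.congr (h.mulP (DF.var ((0 : Fin 3), (0 : Fin 1))) (DF.var ((1 : Fin 3), (0 : Fin 1)))
        (DF.var ((2 : Fin 3), (0 : Fin 1)))) fun x => ?_
      exact ⟨fun h1 => ⟨fun _ => trivial, h1⟩, fun h1 => h1.2⟩
  rel_def := fun _ r => Empty.elim r

theorem biInterpretable_of {e : ℕ → G} (h : ArithIn groupLang e) {ν : ℕ → G} (h' : PresIn ν)
    (D1 : GP (fun x : Fin 2 → G => ∃ c, x 0 = e c ∧ ν c = x 1))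
    (D2 : AP (fun x : Fin 2 → ℕ => ν (x 0) = e (x 1))) : BiInterpretable groupLang G arithLang ℕ := by
  refine ⟨ofArithIn h, ofPresIn h', ?_, ?_⟩
  · have h1 := DP.reindex (α := (Fin 1 × Fin 1) ⊕ Unit) D1
      (fun | 0 => Sum.inl (0, 0) | 1 => Sum.inr ())
    refine h1.congr fun x => ?_
    show (∃ c, x (Sum.inl (0, 0)) = e c ∧ ν c = x (Sum.inr ())) ↔
      (∀ i : Fin 1, ∃ n, x (Sum.inl (i, 0)) = e n) ∧ True ∧
        ν (Function.invFun e (x (Sum.inl (0, 0)))) = x (Sum.inr ())
    constructor
    · rintro ⟨c, hc, hc'⟩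
      refine ⟨fun i => ⟨c, ?_⟩, trivial, ?_⟩
      · rw [← hc]; congr 2; rw [Subsingleton.elim i 0]
      · rw [hc, Function.leftInverse_invFun h.inj, hc']
    · rintro ⟨h2, -, h3⟩
      obtain ⟨c, hc⟩ := h2 0
      refine ⟨c, hc, ?_⟩
      rw [hc, Function.leftInverse_invFun h.inj] at h3
      exact h3
  · have h1 := DP.reindex (α := (Fin 1 × Fin 1) ⊕ Unit) D2
      (fun | 0 => Sum.inl (0, 0) | 1 => Sum.inr ())
    refine h1.congr fun x => ?_
    show (ν (x (Sum.inl (0, 0))) = e (x (Sum.inr ()))) ↔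
      (∀ i : Fin 1, True) ∧ (∃ n, ν (x (Sum.inl (0, 0))) = e n) ∧
        Function.invFun e (ν (x (Sum.inl (0, 0)))) = x (Sum.inr ())
    constructor
    · intro h2
      exact ⟨fun _ => trivial, ⟨_, h2⟩, by rw [h2, Function.leftInverse_invFun h.inj]⟩
    · rintro ⟨-, ⟨n, hn⟩, h3⟩
      rw [hn, Function.leftInverse_invFun h.inj] at h3
      rw [hn, h3]

end interp

namespace Setup

variable {G : Type u} [Group G] {m : ℕ} {V : Type v} [AddCommGroup V] [Module (LR m) V]
  {π : G →* Multiplicative (Fin m → ℤ)} {i : Multiplicative V →* G}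

/-- the quantity `[g, h]`, as an element of the module -/
theorem comm_mem (S : Setup π i) (h g : G) : ∃ v : V, ⁅g, h⁆ = i (ofAdd v) := by
  rw [← S.ker, map_commutatorElement, commutatorElement_eq_one_iff_mul_comm, mul_comm]

theorem eq_of (S : Setup π i) {h : G} {j0 : Fin m} (hh : π h = ofAdd (ue j0)) {x y : G}
    (h1 : tau π x = tau π y) (h2 : ⁅x, h⁆ = ⁅y, h⁆) : x = y := by
  have h3 : π (x⁻¹ * y) = 1 := by
    have h4 : π x = π y := by
      rw [tau_eq, tau_eq, Tm_inj] at h1
      exact toAdd.injective h1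
    rw [map_mul, map_inv, h4, inv_mul_cancel]
  obtain ⟨w, hw⟩ := (S.ker _).mp h3
  have h5 : y = x * i (ofAdd w) := by rw [← hw]; group
  have h6 : ⁅h, i (ofAdd w)⁆ = 1 := by
    rw [h5] at h2
    have h7 : ⁅x * i (ofAdd w), h⁆ = x * ⁅i (ofAdd w), h⁆ * x⁻¹ * ⁅x, h⁆ := by
      simp only [commutatorElement_def]; group
    rw [h7] at h2
    have h8 : x * ⁅i (ofAdd w), h⁆ * x⁻¹ = 1 := by
      have := h2.symm
      rwa [mul_eq_right] at this
    rw [conj_eq_one_iff] at h8
    rw [← commutatorElement_inv, h8, inv_one]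
  rw [S.comm, S.i_eq_one] at h6
  rcases S.tf _ _ h6 with h7 | h7
  · exact absurd h7 (S.tau_h1_ne_zero hh)
  · rw [h5, h7, i_zero, mul_one]

theorem exists_gens [Group.FG G] (h : G) : ∃ (s : ℕ → G) (N : ℕ), s 0 = h ∧ (∀ a, N ≤ a → s a = 1) ∧
    Submonoid.closure (Set.range s) = ⊤ := by
  classical
  have h1 : Monoid.FG G := inferInstance
  obtain ⟨T, hT⟩ := h1.fg_top
  let l := h :: T.toList
  refine ⟨fun a => l.getD a 1, l.length, rfl, fun a ha => ?_, ?_⟩
  · exact List.getD_eq_default _ _ ha
  · rw [eq_top_iff, ← hT]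
    apply Submonoid.closure_mono
    intro x hx
    have h2 : x ∈ l := List.mem_cons_of_mem _ (Finset.mem_toList.mpr hx)
    obtain ⟨a, ha, hax⟩ := List.getElem_of_mem h2
    exact ⟨a, by simp only []; rw [List.getD_eq_getElem _ _ ha, hax]⟩

/-- The main theorem for the abstract setup. -/
theorem biInterpretable (S : Setup π i) [Group.FG G] (hm : 0 < m) :
    BiInterpretable groupLang G arithLang ℕ := by
  obtain ⟨h, hh⟩ := S.surj (ofAdd (ue (⟨0, hm⟩ : Fin m)))
  obtain ⟨s, N, hs0, hsN, hs⟩ := exists_gens h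
  have := S.fin
  obtain ⟨n, φ, hφ⟩ := exists_embedding (R := LR m) (V := V) S.tf
  choose ψ hψ using S.comm_mem h
  have hψmul : ∀ x y, ψ (x * y) = ψ x + tau π x • ψ y := by
    intro x y
    have h1 : ⁅x * y, h⁆ = x * ⁅y, h⁆ * x⁻¹ * ⁅x, h⁆ := by
      simp only [commutatorElement_def]; group
    rw [hψ, hψ, hψ, S.conj', ← i_add, S.i_inj] at h1
    rw [h1, add_comm]
  let D : Fin n → G → LR m := fun l g => φ (ψ g) l
  have hD : ∀ l x y, D l (x * y) = D l x + tau π x * D l y := by
    intro l x y
    simp only [D, hψmul, map_add, map_smul, Pi.add_apply, Pi.smul_apply, smul_eq_mul]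
  have hsep : ∀ x y, tau π x = tau π y → (∀ l, D l x = D l y) → x = y := by
    intro x y h1 h2
    refine S.eq_of hh h1 ?_
    have h3 : ψ x = ψ y := hφ (funext h2)
    rw [hψ, hψ, h3]
  let ν := nu s
  have hν : PresIn ν :=
    { surj := nu_surj hs
      eq := nu_eq_ap hD hsep hsN (DF.var _) (DF.var _)
      mul := nu_mul_ap hD hsep hsN (DF.var _) (DF.var _) (DF.var _) }
  have hpow : ∀ k : ℕ, ν (Nat.pair k 0) = h ^ k := by
    intro k
    show nu s (Nat.pair k 0) = h ^ k
    unfold nu
    rw [Nat.unpair_pair]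
    induction k with
    | zero => simp
    | succ k ih =>
      have hb : Nat.beta 0 k = 0 := by
        unfold Nat.beta
        simp [Nat.unpair_zero]
      simp only [hb, hs0] at ih ⊢
      rw [ih, pow_succ']
  have hA := S.arithIn hh
  refine biInterpretable_of hA hν ?_ ?_
  · -- the isomorphism between the group and its copy
    obtain ⟨v0, hv0⟩ := S.exists_v0
    obtain ⟨d, sp, hsp⟩ := Module.Finite.exists_fin (R := LR m) (M := V)
    let a0 := i (ofAdd v0)
    -- transferred relations
    have hT : ∀ F : G → G, GP (fun x : Fin 1 → G => F (x 0) = F (x 0)) := fun F => by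
      refine (DP.const True).congr fun x => ?_
      simp
    have key : ∀ F : G → G, DF groupLang (fun x : Fin 1 → G => F (x 0)) →
        GP (fun x : (Unit ⊕ Unit) ⊕ (Fin m ⊕ Fin d) → G =>
          ∃ c : (Unit ⊕ Unit) ⊕ (Fin m ⊕ Fin d) → ℕ, (∀ a, x a = h ^ (c a)) ∧
            Erel i h sp (F (ν (c (Sum.inl (Sum.inl ()))))) (h ^ (c (Sum.inl (Sum.inr ()))))
              (fun j => h ^ (c (Sum.inr (Sum.inl j)))) (fun l => h ^ (c (Sum.inr (Sum.inr l))))) := by
      intro F hF
      refine hA.transfer ?_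
      have h1 : GP (fun x : (Unit ⊕ Unit) ⊕ (Fin m ⊕ Fin d) → G =>
          Erel i h sp (F (x (Sum.inl (Sum.inl ())))) (x (Sum.inl (Sum.inr ())))
              (fun j => x (Sum.inr (Sum.inl j))) (fun l => x (Sum.inr (Sum.inr l)))) :=
        S.Erel_def hh sp (DF.fun1 hF (DF.var _)) (DF.var _) (fun j => DF.var _) (fun l => DF.var _)
      have h2 := hν.pull h1
      have h3 := DP.subst h2 (α := (Unit ⊕ Unit) ⊕ (Fin m ⊕ Fin d))
        (t := fun b x => match b with
          | Sum.inl (Sum.inl _) => x (Sum.inl (Sum.inl ()))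
          | Sum.inl (Sum.inr _) => Nat.pair (x (Sum.inl (Sum.inr ()))) 0
          | Sum.inr (Sum.inl j) => Nat.pair (x (Sum.inr (Sum.inl j))) 0
          | Sum.inr (Sum.inr l) => Nat.pair (x (Sum.inr (Sum.inr l))) 0) (by
          rintro ((_ | _) | (j | l))
          · exact DF.var _
          · exact AF.pair (DF.var _) (DF.const _)
          · exact AF.pair (DF.var _) (DF.const _)
          · exact AF.pair (DF.var _) (DF.const _))
      refine h3.congr fun x => ?_
      simp only [hpow]
    have key2 : ∀ F : G → G, DF groupLang (fun x : Fin 1 → G => F (x 0)) →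
        GP (fun x : Fin 2 → G => ∀ y : Unit ⊕ (Fin m ⊕ Fin d) → G,
          (∃ c : (Unit ⊕ Unit) ⊕ (Fin m ⊕ Fin d) → ℕ, (∀ a, (match a with
            | Sum.inl (Sum.inl _) => x 0
            | Sum.inl (Sum.inr _) => y (Sum.inl ())
            | Sum.inr z => y (Sum.inr z)) = h ^ (c a)) ∧
            Erel i h sp (F (ν (c (Sum.inl (Sum.inl ()))))) (h ^ (c (Sum.inl (Sum.inr ()))))
              (fun j => h ^ (c (Sum.inr (Sum.inl j)))) (fun l => h ^ (c (Sum.inr (Sum.inr l))))) ↔
          Erel i h sp (F (x 1)) (y (Sum.inl ())) (fun j => y (Sum.inr (Sum.inl j)))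
            (fun l => y (Sum.inr (Sum.inr l)))) := by
      intro F hF
      refine DP.alls (DP.iff ?_ ?_)
      · refine DP.congr (DP.reindex (α := Fin 2 ⊕ (Unit ⊕ (Fin m ⊕ Fin d))) (key F hF) (fun
          | Sum.inl (Sum.inl _) => Sum.inl 0
          | Sum.inl (Sum.inr _) => Sum.inr (Sum.inl ())
          | Sum.inr z => Sum.inr (Sum.inr z))) fun x => ?_
        refine exists_congr fun c => and_congr_left fun _ => forall_congr' fun a => ?_
        rcases a with ((_ | _) | z) <;> rfl
      · exact S.Erel_def hh sp (DF.fun1 hF (DF.var _)) (DF.var _) (fun j => DF.var _)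
          (fun l => DF.var _)
    have key3 : ∀ (F : G → G) (c : ℕ) (y : Unit ⊕ (Fin m ⊕ Fin d) → G),
        (∃ c' : (Unit ⊕ Unit) ⊕ (Fin m ⊕ Fin d) → ℕ, (∀ a, (match a with
            | Sum.inl (Sum.inl _) => h ^ c
            | Sum.inl (Sum.inr _) => y (Sum.inl ())
            | Sum.inr z => y (Sum.inr z)) = h ^ (c' a)) ∧
            Erel i h sp (F (ν (c' (Sum.inl (Sum.inl ()))))) (h ^ (c' (Sum.inl (Sum.inr ()))))
              (fun j => h ^ (c' (Sum.inr (Sum.inl j)))) (fun l => h ^ (c' (Sum.inr (Sum.inr l))))) ↔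
          Erel i h sp (F (ν c)) (y (Sum.inl ())) (fun j => y (Sum.inr (Sum.inl j)))
            (fun l => y (Sum.inr (Sum.inr l))) := by
      intro F c y
      constructor
      · rintro ⟨c', hc', hE⟩
        have e0 : c = c' (Sum.inl (Sum.inl ())) := (S.pow_inj hh).mp (hc' (Sum.inl (Sum.inl ())))
        have e1 : y (Sum.inl ()) = h ^ (c' (Sum.inl (Sum.inr ()))) := hc' (Sum.inl (Sum.inr ()))
        have e2 : (fun j => y (Sum.inr (Sum.inl j))) = fun j => h ^ (c' (Sum.inr (Sum.inl j))) :=
          funext fun j => hc' (Sum.inr (Sum.inl j))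
        have e3 : (fun l => y (Sum.inr (Sum.inr l))) = fun l => h ^ (c' (Sum.inr (Sum.inr l))) :=
          funext fun l => hc' (Sum.inr (Sum.inr l))
        rw [e0, e1, e2, e3]
        exact hE
      · intro hE
        obtain ⟨p, k, z, ⟨hp, hk, hz⟩, hrest⟩ := hE
        refine ⟨Sum.elim (Sum.elim (fun _ => c) (fun _ => p)) (Sum.elim k z), ?_, ?_⟩
        · rintro ((_ | _) | (j | l))
          · rfl
          · exact hp
          · exact hk j
          · exact hz l
        · refine ⟨p, k, z, ⟨rfl, fun _ => rfl, fun _ => rfl⟩, hrest⟩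
    have F1 : DF groupLang (fun x : Fin 1 → G => x 0 * a0 * (x 0)⁻¹) :=
      GF.mul (GF.mul (DF.var _) (DF.const _)) (GF.inv (DF.var _))
    have F2 : DF groupLang (fun x : Fin 1 → G => ⁅x 0, h⁆) := GF.comm (DF.var _) (DF.const _)
    have h1 := DP.and (S.domN hh (DF.var (0 : Fin 2))) (DP.and (key2 (fun g => g * a0 * g⁻¹) F1)
      (key2 (fun g => ⁅g, h⁆) F2))
    refine h1.congr fun x => ?_
    constructor
    · rintro ⟨⟨c, hc⟩, hE1, hE2⟩
      refine ⟨c, hc, ?_⟩
      rw [hc] at hE1 hE2
      have hE1' := fun y => (key3 (fun g => g * a0 * g⁻¹) c y).symm.trans (hE1 y)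
      have hE2' := fun y => (key3 (fun g => ⁅g, h⁆) c y).symm.trans (hE2 y)
      refine S.eq_of hh ?_ ?_
      · have h2 : tau π (ν c) • v0 = tau π (x 1) • v0 := by
          refine S.Erel_sep hh hsp fun P K Z hP => ?_
          have h3 := hE1' (Sum.elim (fun _ => P) (Sum.elim K Z))
          simp only [a0, S.conj'] at h3
          exact h3.mp hP
        have h3 : (tau π (ν c) - tau π (x 1)) • v0 = 0 := by rw [sub_smul, h2, sub_self]
        rcases S.tf _ _ h3 with h4 | h4
        · exact sub_eq_zero.mp h4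
        · exact absurd h4 hv0
      · rw [hψ, hψ, S.i_inj]
        refine S.Erel_sep hh hsp fun P K Z hP => ?_
        have h3 := hE2' (Sum.elim (fun _ => P) (Sum.elim K Z))
        simp only [hψ] at h3
        exact h3.mp hP
    · rintro ⟨c, hc, hc'⟩
      refine ⟨⟨c, hc⟩, fun y => ?_, fun y => ?_⟩
      · rw [hc, ← hc']
        exact key3 (fun g => g * a0 * g⁻¹) c y
      · rw [hc, ← hc']
        exact key3 (fun g => ⁅g, h⁆) c y
  · -- the isomorphism between arithmetic and its copy
    have h1 : AP (fun x : Fin 2 → ℕ => ν (x 0) = ν (Nat.pair (x 1) 0)) :=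
      hν.eqP (DF.var _) (AF.pair (DF.var _) (DF.const _))
    refine h1.congr fun x => ?_
    rw [hpow]

end Setup

end Pool.Agent.Helper94
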