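import Mathlib

/-!
A small calculus for definability with parameters.
-/

namespace Pool.Agent.Helper94

open FirstOrder FirstOrder.Language

universe u v w

section Calculus

variable {L : FirstOrder.Language.{u, v}} {M : Type w} [L.Structure M] {α β : Type}

/-- `DP L P`: the predicate `P` on tuples is definable with parameters. -/
def DP (L : FirstOrder.Language.{u, v}) {M : Type w} [L.Structure M] {α : Type} (P : (α → M) → Prop) : Prop :=
  (Set.univ : Set M).Definable L {x | P x}

/-- `DF L t`: the function `t` on tuples is definable with parameters. -/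
def DF (L : FirstOrder.Language.{u, v}) {M : Type w} [L.Structure M] {α : Type} (t : (α → M) → M) : Prop :=
  (Set.univ : Set M).DefinableFun L t

theorem DP.congr {P Q : (α → M) → Prop} (h : DP L P) (hPQ : ∀ x, P x ↔ Q x) : DP L Q := by
  have : P = Q := funext fun x => propext (hPQ x)
  exact this ▸ h

theorem DP.and {P Q : (α → M) → Prop} (h : DP L P) (h' : DP L Q) : DP L (fun x => P x ∧ Q x) :=
  Set.Definable.inter h h'

theorem DP.or {P Q : (α → M) → Prop} (h : DP L P) (h' : DP L Q) : DP L (fun x => P x ∨ Q x) :=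
  Set.Definable.union h h'

theorem DP.not {P : (α → M) → Prop} (h : DP L P) : DP L (fun x => ¬ P x) :=
  Set.Definable.compl h

theorem DP.imp {P Q : (α → M) → Prop} (h : DP L P) (h' : DP L Q) : DP L (fun x => P x → Q x) :=
  (h.not.or h').congr fun x => by tauto

theorem DP.iff {P Q : (α → M) → Prop} (h : DP L P) (h' : DP L Q) : DP L (fun x => P x ↔ Q x) :=
  ((h.imp h').and (h'.imp h)).congr fun x => by tauto

theorem DP.const (p : Prop) : DP L (fun _ : α → M => p) := by
  by_cases hp : p
  · have : DP L (fun _ : α → M => True) := Set.definable_univ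
    exact this.congr fun x => by simp [hp]
  · have : DP L (fun _ : α → M => False) := Set.definable_empty
    exact this.congr fun x => by simp [hp]

theorem DP.ex {P : (α → M) → M → Prop}
    (h : DP L (fun x : α ⊕ Unit → M => P (fun a => x (Sum.inl a)) (x (Sum.inr ())))) :
    DP L (fun x => ∃ y, P x y) := by
  have := Set.Definable.exists_of_finite (β := Unit) h
  refine DP.congr (P := fun x => ∃ u : Unit → M, P (fun a => x a) (u ())) this fun x => ?_
  constructor
  · rintro ⟨u, hu⟩; exact ⟨u (), hu⟩
  · rintro ⟨y, hy⟩; exact ⟨fun _ => y, hy⟩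

theorem DP.all {P : (α → M) → M → Prop}
    (h : DP L (fun x : α ⊕ Unit → M => P (fun a => x (Sum.inl a)) (x (Sum.inr ())))) :
    DP L (fun x => ∀ y, P x y) := by
  have := Set.Definable.forall_of_finite (β := Unit) h
  refine DP.congr (P := fun x => ∀ u : Unit → M, P (fun a => x a) (u ())) this fun x => ?_
  constructor
  · intro h y; exact h (fun _ => y)
  · intro h u; exact h (u ())

/-- existential quantification over a finite tuple -/
theorem DP.exs {ι : Type} [Finite ι] {P : (α → M) → (ι → M) → Prop}
    (h : DP L (fun x : α ⊕ ι → M => P (fun a => x (Sum.inl a)) (fun i => x (Sum.inr i)))) :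
    DP L (fun x => ∃ y : ι → M, P x y) :=
  Set.Definable.exists_of_finite (β := ι) h

theorem DP.alls {ι : Type} [Finite ι] {P : (α → M) → (ι → M) → Prop}
    (h : DP L (fun x : α ⊕ ι → M => P (fun a => x (Sum.inl a)) (fun i => x (Sum.inr i)))) :
    DP L (fun x => ∀ y : ι → M, P x y) :=
  Set.Definable.forall_of_finite (β := ι) h

theorem DP.forall_fin {ι : Type} [Finite ι] {P : ι → (α → M) → Prop} (h : ∀ i, DP L (P i)) :
    DP L (fun x => ∀ i, P i x) := by
  have := Set.definable_iInter_of_finite (L := L) (A := Set.univ) (f := fun i => {x | P i x}) h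
  refine DP.congr (P := fun x => x ∈ ⋂ i, {x | P i x}) this fun x => ?_
  simp

theorem DP.exists_fin {ι : Type} [Finite ι] {P : ι → (α → M) → Prop} (h : ∀ i, DP L (P i)) :
    DP L (fun x => ∃ i, P i x) := by
  have := Set.definable_iUnion_of_finite (L := L) (A := Set.univ) (f := fun i => {x | P i x}) h
  refine DP.congr (P := fun x => x ∈ ⋃ i, {x | P i x}) this fun x => ?_
  simp

/-- Substitution of definable functions into a definable predicate. -/
theorem DP.subst [Finite β] {P : (β → M) → Prop} (h : DP L P) {t : β → (α → M) → M}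
    (ht : ∀ b, DF L (t b)) : DP L (fun x => P (fun b => t b x)) :=
  Set.Definable.preimage_map (F := fun x b => t b x) ht h

/-- Reindexing. -/
theorem DP.reindex {P : (β → M) → Prop} (h : DP L P) (f : β → α) :
    DP L (fun x => P (fun b => x (f b))) :=
  Set.Definable.preimage_comp f h

theorem DF.var (i : α) : DF L (fun x : α → M => x i) := Set.DefinableFun.proj L

theorem DF.const (c : M) : DF L (fun _ : α → M => c) :=
  L.definableFun_const α (Set.mem_univ c)

theorem DF.subst [Finite β] {s : (β → M) → M} (hs : DF L s) {t : β → (α → M) → M}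
    (ht : ∀ b, DF L (t b)) : DF L (fun x => s (fun b => t b x)) :=
  Set.DefinableFun.comp (g := fun x b => t b x) ht hs

theorem DF.reindex [Finite β] {s : (β → M) → M} (hs : DF L s) (f : β → α) :
    DF L (fun x => s (fun b => x (f b))) :=
  hs.subst fun b => DF.var (f b)

theorem DP.eq {s t : (α → M) → M} (hs : DF L s) (ht : DF L t) : DP L (fun x => s x = t x) :=
  Set.DefinableFun.ofPred_eq hs ht

/-- application of a definable unary relation -/
theorem DP.rel1 {R : M → Prop} (h : DP L (fun x : Fin 1 → M => R (x 0)))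
    {t0 : (α → M) → M} (h0 : DF L t0) : DP L (fun x => R (t0 x)) :=
  h.subst (t := ![t0]) (fun b => by fin_cases b; exact h0)

theorem DP.rel2 {R : M → M → Prop} (h : DP L (fun x : Fin 2 → M => R (x 0) (x 1)))
    {t0 t1 : (α → M) → M} (h0 : DF L t0) (h1 : DF L t1) : DP L (fun x => R (t0 x) (t1 x)) :=
  h.subst (t := ![t0, t1]) (fun b => by fin_cases b; exacts [h0, h1])

theorem DP.rel3 {R : M → M → M → Prop} (h : DP L (fun x : Fin 3 → M => R (x 0) (x 1) (x 2)))
    {t0 t1 t2 : (α → M) → M} (h0 : DF L t0) (h1 : DF L t1) (h2 : DF L t2) :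
    DP L (fun x => R (t0 x) (t1 x) (t2 x)) :=
  h.subst (t := ![t0, t1, t2]) (fun b => by fin_cases b; exacts [h0, h1, h2])

theorem DP.rel4 {R : M → M → M → M → Prop}
    (h : DP L (fun x : Fin 4 → M => R (x 0) (x 1) (x 2) (x 3)))
    {t0 t1 t2 t3 : (α → M) → M} (h0 : DF L t0) (h1 : DF L t1) (h2 : DF L t2) (h3 : DF L t3) :
    DP L (fun x => R (t0 x) (t1 x) (t2 x) (t3 x)) :=
  h.subst (t := ![t0, t1, t2, t3]) (fun b => by fin_cases b; exacts [h0, h1, h2, h3])

/-- application of a definable unary function -/
theorem DF.fun1 {R : M → M} (h : DF L (fun x : Fin 1 → M => R (x 0)))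
    {t0 : (α → M) → M} (h0 : DF L t0) : DF L (fun x => R (t0 x)) :=
  h.subst (t := ![t0]) (fun b => by fin_cases b; exact h0)

theorem DF.fun2 {R : M → M → M} (h : DF L (fun x : Fin 2 → M => R (x 0) (x 1)))
    {t0 t1 : (α → M) → M} (h0 : DF L t0) (h1 : DF L t1) : DF L (fun x => R (t0 x) (t1 x)) :=
  h.subst (t := ![t0, t1]) (fun b => by fin_cases b; exacts [h0, h1])

/-- a function is definable when its graph is a definable predicate -/
theorem DF.of_graph {t : (α → M) → M}
    (h : DP L (fun x : α ⊕ Unit → M => t (fun a => x (Sum.inl a)) = x (Sum.inr ()))) : DF L t := by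
  have := DP.reindex (α := Option α) h (fun | Sum.inl a => some a | Sum.inr _ => none)
  exact this

theorem DF.graph {t : (α → M) → M} (h : DF L t) :
    DP L (fun x : α ⊕ Unit → M => t (fun a => x (Sum.inl a)) = x (Sum.inr ())) := by
  have h' : DP L (fun x : Option α → M => t (fun a => x (some a)) = x none) := h
  exact DP.reindex (α := α ⊕ Unit) h' (fun | some a => Sum.inl a | none => Sum.inr ())

end Calculus

end Pool.Agent.Helper94
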