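import Pool.Agent.Helper94.Setup

/-!
Definability in the group: the copy of arithmetic, integer multiples, congruences.
-/

namespace Pool.Agent.Helper94

open FirstOrder FirstOrder.Language Multiplicative
open scoped commutatorElement

universe u v

namespace Setup

variable {G : Type u} [Group G] {m : ℕ} {V : Type v} [AddCommGroup V] [Module (LR m) V]
  {π : G →* Multiplicative (Fin m → ℤ)} {i : Multiplicative V →* G}

variable (S : Setup π i) {h : G} {j0 : Fin m} (hh : π h = ofAdd (ue j0))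
include S hh

theorem domZ {α : Type} {t : (α → G) → G} (ht : GF t) : GP (fun x => ∃ k : ℤ, t x = h ^ k) := by
  have h1 : GP (fun x : Fin 1 → G => ∃ k : ℤ, x 0 = h ^ k) := by
    have h2 : GP (fun x : Fin 1 → G => x 0 * h = h * x 0 ∧
        ∀ v : V, ∃ w : V, ⁅x 0, i (ofAdd v)⁆ = ⁅h, i (ofAdd w)⁆) := by
      refine DP.and (DP.eq (GF.mul (DF.var _) (DF.const _)) (GF.mul (DF.const _) (DF.var _))) ?_
      refine S.allA (P := fun x y => ∃ w : V, ⁅x 0, y⁆ = ⁅h, i (ofAdd w)⁆) ?_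
      refine S.exA (P := fun x y => ⁅x (Sum.inl 0), x (Sum.inr ())⁆ = ⁅h, y⁆) ?_
      exact DP.eq (GF.comm (DF.var _) (DF.var _)) (GF.comm (DF.const _) (DF.var _))
    exact h2.congr fun x => (S.cyclic hh (x 0)).symm
  exact DP.rel1 (R := fun y => ∃ k : ℤ, y = h ^ k) h1 ht

theorem mulZ {α : Type} {t0 t1 t2 : (α → G) → G} (h0 : GF t0) (h1 : GF t1) (h2 : GF t2) :
    GP (fun x => ∃ k l : ℤ, t0 x = h ^ k ∧ t1 x = h ^ l ∧ t2 x = h ^ (k * l)) := by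
  obtain ⟨b, hb⟩ := S.exists_b hh
  have h3 : GP (fun x : Fin 3 → G => ∃ k l : ℤ, x 0 = h ^ k ∧ x 1 = h ^ l ∧ x 2 = h ^ (k * l)) := by
    have h4 : GP (fun x : Fin 3 → G => ((∃ k : ℤ, x 0 = h ^ k) ∧ (∃ k : ℤ, x 1 = h ^ k) ∧
        (∃ k : ℤ, x 2 = h ^ k)) ∧
        ∃ c : V, (∃ w : V, ⁅x 0, i (ofAdd b)⁆ = ⁅h, i (ofAdd c)⁆ * ⁅h, ⁅h, i (ofAdd w)⁆⁆) ∧
      (∃ w : V, ⁅x 1, i (ofAdd c)⁆ = ⁅x 2, i (ofAdd b)⁆ * ⁅h, ⁅h, i (ofAdd w)⁆⁆)) := by
      refine DP.and (DP.and (S.domZ hh (DF.var _)) (DP.and (S.domZ hh (DF.var _))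
        (S.domZ hh (DF.var _)))) ?_
      refine S.exA (P := fun x c => (∃ w : V, ⁅x 0, i (ofAdd b)⁆ = ⁅h, c⁆ * ⁅h, ⁅h, i (ofAdd w)⁆⁆) ∧
        (∃ w : V, ⁅x 1, c⁆ = ⁅x 2, i (ofAdd b)⁆ * ⁅h, ⁅h, i (ofAdd w)⁆⁆)) ?_
      refine DP.and ?_ ?_
      · refine S.exA (P := fun x w => ⁅x (Sum.inl 0), i (ofAdd b)⁆ = ⁅h, x (Sum.inr ())⁆ * ⁅h, ⁅h, w⁆⁆) ?_
        exact DP.eq (GF.comm (DF.var _) (DF.const _)) (GF.mul (GF.comm (DF.const _) (DF.var _))
          (GF.comm (DF.const _) (GF.comm (DF.const _) (DF.var _))))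
      · refine S.exA (P := fun x w => ⁅x (Sum.inl 1), x (Sum.inr ())⁆ =
          ⁅x (Sum.inl 2), i (ofAdd b)⁆ * ⁅h, ⁅h, w⁆⁆) ?_
        exact DP.eq (GF.comm (DF.var _) (DF.var _)) (GF.mul (GF.comm (DF.var _) (DF.const _))
          (GF.comm (DF.const _) (GF.comm (DF.const _) (DF.var _))))
    refine h4.congr fun x => ?_
    constructor
    · rintro ⟨⟨⟨k, hk⟩, ⟨l, hl⟩, ⟨n, hn⟩⟩, hc⟩
      rw [hk, hl, hn] at hc
      have := (S.mulZ_iff hh hb k l n).mp hc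
      exact ⟨k, l, hk, hl, by rw [hn, this]⟩
    · rintro ⟨k, l, hk, hl, hn⟩
      refine ⟨⟨⟨k, hk⟩, ⟨l, hl⟩, ⟨_, hn⟩⟩, ?_⟩
      rw [hk, hl, hn]
      exact (S.mulZ_iff hh hb k l (k * l)).mpr rfl
  exact DP.rel3 (R := fun a b c => ∃ k l : ℤ, a = h ^ k ∧ b = h ^ l ∧ c = h ^ (k * l)) h3 h0 h1 h2

theorem domN {α : Type} {t : (α → G) → G} (ht : GF t) : GP (fun x => ∃ n : ℕ, t x = h ^ n) := by
  have h1 : GP (fun x : Fin 1 → G => ∃ n : ℕ, x 0 = h ^ n) := by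
    have h2 : GP (fun x : Fin 1 → G => ∃ y : Fin 4 → G, ∃ s : Fin 4 → G,
        (∀ j, ∃ k l : ℤ, y j = h ^ k ∧ y j = h ^ l ∧ s j = h ^ (k * l)) ∧
        x 0 = s 0 * s 1 * s 2 * s 3) := by
      refine DP.exs (DP.exs (DP.and (DP.forall_fin fun j => S.mulZ hh (DF.var _) (DF.var _) (DF.var _))
        (DP.eq (DF.var _) (GF.mul (GF.mul (GF.mul (DF.var _) (DF.var _)) (DF.var _)) (DF.var _)))))
    refine h2.congr fun x => ?_
    constructor
    · rintro ⟨y, s, hs, hx⟩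
      have hsq : ∀ j, ∃ k : ℤ, s j = h ^ (k * k) := by
        intro j
        obtain ⟨k, l, hk, hl, hkl⟩ := hs j
        have : k = l := (S.zpow_inj hh).mp (hk.symm.trans hl)
        subst this
        exact ⟨k, hkl⟩
      choose k hk using hsq
      refine ⟨(k 0 * k 0 + k 1 * k 1 + k 2 * k 2 + k 3 * k 3).toNat, ?_⟩
      have hpos : 0 ≤ k 0 * k 0 + k 1 * k 1 + k 2 * k 2 + k 3 * k 3 := by
        have := mul_self_nonneg (k 0)
        have := mul_self_nonneg (k 1)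
        have := mul_self_nonneg (k 2)
        have := mul_self_nonneg (k 3)
        omega
      rw [← zpow_natCast, Int.toNat_of_nonneg hpos, hx, hk, hk, hk, hk, ← zpow_add, ← zpow_add,
        ← zpow_add]
    · rintro ⟨n, hn⟩
      obtain ⟨a, b, c, d, habcd⟩ := Nat.sum_four_squares n
      refine ⟨![h ^ a, h ^ b, h ^ c, h ^ d], ![h ^ (a * a), h ^ (b * b), h ^ (c * c), h ^ (d * d)],
        ?_, ?_⟩
      · intro j
        fin_cases j
        · exact ⟨a, a, by simp, by simp, by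
            simp only [← Nat.cast_mul, zpow_natCast]; rfl⟩
        · exact ⟨b, b, by simp, by simp, by
            simp only [← Nat.cast_mul, zpow_natCast]; rfl⟩
        · exact ⟨c, c, by simp, by simp, by
            simp only [← Nat.cast_mul, zpow_natCast]; rfl⟩
        · exact ⟨d, d, by simp, by simp, by
            simp only [← Nat.cast_mul, zpow_natCast]; rfl⟩
      · show x 0 = h ^ (a * a) * h ^ (b * b) * h ^ (c * c) * h ^ (d * d)
        rw [hn, ← pow_add, ← pow_add, ← pow_add, ← habcd]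
        congr 1; ring
  exact DP.rel1 (R := fun y => ∃ n : ℕ, y = h ^ n) h1 ht

theorem pow_inj {k l : ℕ} : h ^ k = h ^ l ↔ k = l := by
  rw [← zpow_natCast, ← zpow_natCast, S.zpow_inj hh]
  exact Int.natCast_inj

/-- The copy of arithmetic. -/
theorem arithIn : ArithIn groupLang (fun n : ℕ => h ^ n) where
  inj := fun a b hab => (S.pow_inj hh).mp hab
  dom := S.domN hh (DF.var _)
  add := by
    have h1 : GP (fun x : Fin 3 → G => (∃ n : ℕ, x 0 = h ^ n) ∧ (∃ n : ℕ, x 1 = h ^ n) ∧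
        x 2 = x 0 * x 1) :=
      DP.and (S.domN hh (DF.var _)) (DP.and (S.domN hh (DF.var _)) (DP.eq (DF.var _)
        (GF.mul (DF.var _) (DF.var _))))
    refine h1.congr fun x => ?_
    constructor
    · rintro ⟨⟨a, ha⟩, ⟨b, hb⟩, hc⟩
      exact ⟨a, b, ha, hb, by rw [hc, ha, hb]; exact (pow_add h a b).symm⟩
    · rintro ⟨a, b, ha, hb, hc⟩
      exact ⟨⟨a, ha⟩, ⟨b, hb⟩, by rw [hc, ha, hb]; exact (pow_add h a b)⟩
  mul := by
    have h1 : GP (fun x : Fin 3 → G => (∃ n : ℕ, x 0 = h ^ n) ∧ (∃ n : ℕ, x 1 = h ^ n) ∧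
        ∃ k l : ℤ, x 0 = h ^ k ∧ x 1 = h ^ l ∧ x 2 = h ^ (k * l)) :=
      DP.and (S.domN hh (DF.var _)) (DP.and (S.domN hh (DF.var _))
        (S.mulZ hh (DF.var _) (DF.var _) (DF.var _)))
    refine h1.congr fun x => ?_
    constructor
    · rintro ⟨⟨a, ha⟩, ⟨b, hb⟩, ⟨k, l, hk, hl, hc⟩⟩
      have e1 : (a : ℤ) = k := (S.zpow_inj hh).mp (by rw [← hk, ha, zpow_natCast])
      have e2 : (b : ℤ) = l := (S.zpow_inj hh).mp (by rw [← hl, hb, zpow_natCast])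
      refine ⟨a, b, ha, hb, ?_⟩
      rw [hc, ← e1, ← e2, ← Nat.cast_mul, zpow_natCast]
    · rintro ⟨a, b, ha, hb, hc⟩
      refine ⟨⟨a, ha⟩, ⟨b, hb⟩, a, b, ?_, ?_, ?_⟩
      · rw [ha, zpow_natCast]
      · rw [hb, zpow_natCast]
      · rw [hc, ← Nat.cast_mul, zpow_natCast]

/-- The intersection of the augmentation submodules vanishes. -/
theorem inter {x : V} (hx : ∀ n : ℕ, 0 < n → ∃ w : V, x = (tau π (h ^ n) - 1) • w) : x = 0 := by
  classical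
  have := S.fin
  obtain ⟨n, φ, hφ⟩ := exists_embedding (R := LR m) (V := V) S.tf
  apply hφ
  rw [map_zero]
  funext l
  by_contra hne
  obtain ⟨p, hp, κ, hκ⟩ := sep (φ x l) hne
  apply hκ
  have : Fact p.Prime := ⟨hp⟩
  obtain ⟨w, hw⟩ := hx (p - 1) (Nat.sub_pos_of_lt hp.one_lt)
  rw [hw, map_smul, Pi.smul_apply, smul_eq_mul, map_mul, map_sub, map_one]
  have h1 : ev κ (tau π (h ^ (p - 1))) = 1 := by
    rw [map_pow, map_pow, tau_h1 hh, ev_ue, ← Units.val_pow_eq_pow_val,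
      ZMod.units_pow_card_sub_one_eq_one, Units.val_one]
  rw [h1, sub_self, zero_mul]

/-- Integer multiples are uniformly definable. -/
theorem powA {α : Type} {t0 t1 t2 : (α → G) → G} (h0 : GF t0) (h1 : GF t1) (h2 : GF t2) :
    GP (fun x => ∃ (k : ℕ) (v : V), t0 x = h ^ k ∧ t1 x = i (ofAdd v) ∧ t2 x = i (ofAdd (k • v))) := by
  have h3 : GP (fun x : Fin 3 → G => ∃ (k : ℕ) (v : V), x 0 = h ^ k ∧ x 1 = i (ofAdd v) ∧
      x 2 = i (ofAdd (k • v))) := by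
    have h4 : GP (fun x : Fin 3 → G => ((∃ k : ℕ, x 0 = h ^ k) ∧ (∃ v : V, x 1 = i (ofAdd v)) ∧
        (∃ v : V, x 2 = i (ofAdd v))) ∧ ∀ y, (∃ k : ℤ, y = h ^ k) → y ≠ 1 → ∀ y',
        (∃ k l : ℤ, y = h ^ k ∧ x 0 = h ^ l ∧ y' = h ^ (k * l)) →
        ∃ w : V, ⁅y, x 2⁆ = ⁅y', x 1⁆ * ⁅y, ⁅y, i (ofAdd w)⁆⁆) := by
      refine DP.and (DP.and (S.domN hh (DF.var _)) (DP.and (S.A_def (DF.var _)) (S.A_def (DF.var _)))) ?_
      refine DP.all (DP.imp (S.domZ hh (DF.var _)) (DP.imp (DP.not (DP.eq (DF.var _) (DF.const _)))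
        (DP.all (DP.imp (S.mulZ hh (DF.var _) (DF.var _) (DF.var _)) ?_))))
      refine S.exA (P := fun x w => ⁅x (Sum.inl (Sum.inr ())), x (Sum.inl (Sum.inl 2))⁆ =
        ⁅x (Sum.inr ()), x (Sum.inl (Sum.inl 1))⁆ * ⁅x (Sum.inl (Sum.inr ())),
          ⁅x (Sum.inl (Sum.inr ())), w⁆⁆) ?_
      exact DP.eq (GF.comm (DF.var _) (DF.var _)) (GF.mul (GF.comm (DF.var _) (DF.var _))
          (GF.comm (DF.var _) (GF.comm (DF.var _) (DF.var _))))
    refine h4.congr fun x => ?_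
    constructor
    · rintro ⟨⟨⟨k, hk⟩, ⟨v, hv⟩, ⟨u, hu⟩⟩, hall⟩
      refine ⟨k, v, hk, hv, ?_⟩
      rw [hu, S.i_inj, ← sub_eq_zero]
      refine S.inter hh fun n hn => ?_
      have hne : tau π (h ^ n) - 1 ≠ 0 := by
        have := S.tau_h_ne_zero hh (k := n) (by exact_mod_cast hn.ne')
        rwa [zpow_natCast] at this
      obtain ⟨w, hw⟩ := hall (h ^ n) ⟨n, by rw [zpow_natCast]⟩
        (fun h1 => by rw [h1, map_one, sub_self] at hne; exact hne rfl) (h ^ (n * k))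
        ⟨n, k, by rw [zpow_natCast], by rw [zpow_natCast]; exact hk, by
          rw [← Nat.cast_mul, zpow_natCast]⟩
      rw [hu, hv, S.comm, S.comm, S.comm, S.comm, ← i_add, S.i_inj] at hw
      obtain ⟨r, hr⟩ := zpow_cong (tau π) (h ^ n) k
      rw [zpow_natCast, ← pow_mul] at hr
      refine ⟨w + r • v, ?_⟩
      rw [hr] at hw
      apply S.cancel hne
      have hkv : k • v = (k : LR m) • v := (Nat.cast_smul_eq_nsmul _ _ _).symm
      rw [hkv]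
      push_cast at hw ⊢
      linear_combination (norm := module) (1 : LR m) • hw
    · rintro ⟨k, v, hk, hv, hu⟩
      refine ⟨⟨⟨k, hk⟩, ⟨v, hv⟩, ⟨_, hu⟩⟩, ?_⟩
      rintro y ⟨n, rfl⟩ hy y' ⟨n', k', h1, h2, h3⟩
      have e1 : n = n' := (S.zpow_inj hh).mp h1
      have e2 : (k : ℤ) = k' := (S.zpow_inj hh).mp (by rw [← h2, hk, zpow_natCast])
      subst e1 e2
      obtain ⟨r, hr⟩ := zpow_cong (tau π) (h ^ n) k
      rw [← zpow_mul] at hr
      refine ⟨-(r • v), ?_⟩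
      rw [h3, hu, hv, S.comm, S.comm, S.comm, S.comm, ← i_add, S.i_inj, hr]
      have hkv : k • v = (k : LR m) • v := (Nat.cast_smul_eq_nsmul _ _ _).symm
      rw [hkv]
      push_cast
      module
  exact DP.rel3 (R := fun a b c => ∃ (k : ℕ) (v : V), a = h ^ k ∧ b = i (ofAdd v) ∧
    c = i (ofAdd (k • v))) h3 h0 h1 h2

end Setup

end Pool.Agent.Helper94
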