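import Pool.Agent.Helper94.BiDefs

/-!
Universal equivalence in terms of finite systems of equations and inequations.
-/

namespace Pool.Agent.Helper94

open FirstOrder FirstOrder.Language

universe u v w

/-- Every finite system of equations and inequations in words which is solvable in `G` is solvable
in `H`. -/
def Loc (G : Type u) [Group G] (H : Type v) [Group H] : Prop :=
  ∀ (α : Type) [Finite α] (x : α → G) (S : Set (FreeGroup α)), S.Finite →
    ∃ y : α → H, ∀ w ∈ S, (FreeGroup.lift x w = 1 ↔ FreeGroup.lift y w = 1)

theorem alls_isUniversal {L : FirstOrder.Language.{u, v}} {α : Type w} {n : ℕ}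
    {φ : L.BoundedFormula α n} (h : φ.IsUniversal) : BoundedFormula.IsUniversal φ.alls := by
  induction n with
  | zero => exact h
  | succ n ih => exact ih h.all

theorem foldr_isQF {L : FirstOrder.Language.{u, v}} {α : Type w} {n : ℕ}
    (l : List (L.BoundedFormula α n)) (h : ∀ φ ∈ l, φ.IsQF) :
    (l.foldr (fun x y => x ⊓ y) ⊤).IsQF := by
  induction l with
  | nil => exact BoundedFormula.IsQF.top
  | cons a l ih =>
    exact BoundedFormula.IsQF.inf (h a (List.mem_cons_self ..))
      (ih fun φ hφ => h φ (List.mem_cons_of_mem _ hφ))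

theorem Loc.of_universallyEquivalent {G : Type u} [Group G] {H : Type v} [Group H]
    (h : UniversallyEquivalent groupLang G H) : Loc G H := by
  classical
  intro α _ x S hS
  obtain ⟨k, ⟨E⟩⟩ := Finite.exists_equiv_fin α
  -- terms over the bound variables
  have hterm : ∀ w : FreeGroup α, ∃ t : groupLang.Term (Empty ⊕ Fin k),
      (∀ (x : Fin k → G), t.realize (Sum.elim (default : Empty → G) x) =
        FreeGroup.lift (fun a => x (E a)) w) ∧
      (∀ (x : Fin k → H), t.realize (Sum.elim (default : Empty → H) x) =
        FreeGroup.lift (fun a => x (E a)) w) := by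
    intro w
    have key : ∃ t : groupLang.Term α, (∀ (x : α → G), t.realize x = FreeGroup.lift x w) ∧
        (∀ (x : α → H), t.realize x = FreeGroup.lift x w) := by
      induction w using FreeGroup.induction_on with
      | C1 =>
        refine ⟨Term.func (GrpFunc.one : groupLang.Functions 0) Fin.elim0, fun x => ?_, fun x => ?_⟩ <;>
        · rw [map_one]; rfl
      | of a => exact ⟨Term.var a, fun x => by rw [FreeGroup.lift_apply_of]; rfl,
          fun x => by rw [FreeGroup.lift_apply_of]; rfl⟩
      | inv_of a _ =>
        refine ⟨Term.func (GrpFunc.inv : groupLang.Functions 1) (fun _ => Term.var a),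
          fun x => ?_, fun x => ?_⟩ <;>
        · rw [map_inv, FreeGroup.lift_apply_of]; rfl
      | mul a b ha hb =>
        obtain ⟨s, hs, hs'⟩ := ha
        obtain ⟨t, ht, ht'⟩ := hb
        refine ⟨Term.func (GrpFunc.mul : groupLang.Functions 2) ![s, t], fun x => ?_, fun x => ?_⟩
        · rw [map_mul, ← hs, ← ht]; rfl
        · rw [map_mul, ← hs', ← ht']; rfl
    obtain ⟨t, ht, ht'⟩ := key
    refine ⟨t.relabel (fun a => Sum.inr (E a)), fun x => ?_, fun x => ?_⟩
    · rw [Term.realize_relabel, ← ht]; rfl
    · rw [Term.realize_relabel, ← ht']; rfl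
  choose T hTG hTH using hterm
  let one : groupLang.Term (Empty ⊕ Fin k) := T 1
  let at_ : FreeGroup α → groupLang.BoundedFormula Empty k := fun w =>
    if FreeGroup.lift x w = 1 then (T w).bdEqual one else ∼((T w).bdEqual one)
  let θ : groupLang.BoundedFormula Empty k :=
    (hS.toFinset.toList.map at_).foldr (fun x y => x ⊓ y) ⊤
  have hθ : θ.IsQF := by
    apply foldr_isQF
    intro φ hφ
    rw [List.mem_map] at hφ
    obtain ⟨w, _, rfl⟩ := hφ
    simp only [at_]
    split_ifs
    · exact (BoundedFormula.IsAtomic.equal _ _).isQF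
    · exact ((BoundedFormula.IsAtomic.equal _ _).isQF).not
  have hsent : BoundedFormula.IsUniversal (∼θ).alls := alls_isUniversal (hθ.not.isUniversal)
  have hG : θ.Realize (default : Empty → G) (fun j => x (E.symm j)) := by
    simp only [θ, BoundedFormula.realize_foldr_inf]
    intro φ hφ
    rw [List.mem_map] at hφ
    obtain ⟨w, _, rfl⟩ := hφ
    have e1 : (fun a => (fun j => x (E.symm j)) (E a)) = x := by funext a; simp
    by_cases hw : FreeGroup.lift x w = 1
    · simp only [at_, if_pos hw, BoundedFormula.realize_bdEqual, one, hTG, e1, map_one, hw]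
    · simp only [at_, if_neg hw, BoundedFormula.realize_not, BoundedFormula.realize_bdEqual, one,
        hTG, e1, map_one, hw, not_false_eq_true]
  have hnG : ¬ (G ⊨ ((∼θ).alls : groupLang.Sentence)) := by
    intro h1
    have h2 := (BoundedFormula.realize_alls (φ := ∼θ) (v := (default : Empty → G))).mp h1
    exact h2 _ hG
  rw [h _ hsent] at hnG
  have hH : ∃ y : Fin k → H, θ.Realize (default : Empty → H) y := by
    by_contra h1
    push Not at h1
    apply hnG
    exact (BoundedFormula.realize_alls (φ := ∼θ) (v := (default : Empty → H))).mpr h1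
  obtain ⟨y, hy⟩ := hH
  refine ⟨fun a => y (E a), fun w hw => ?_⟩
  simp only [θ, BoundedFormula.realize_foldr_inf] at hy
  have h1 := hy (at_ w) (List.mem_map.mpr ⟨w, Finset.mem_toList.mpr (hS.mem_toFinset.mpr hw), rfl⟩)
  by_cases hw : FreeGroup.lift x w = 1
  · simp only [at_, if_pos hw, BoundedFormula.realize_bdEqual, one, hTH, map_one] at h1
    exact ⟨fun _ => h1, fun _ => hw⟩
  · simp only [at_, if_neg hw, BoundedFormula.realize_not, BoundedFormula.realize_bdEqual, one,
        hTH, map_one] at h1
    exact ⟨fun h2 => absurd h2 hw, fun h2 => absurd h2 h1⟩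

theorem Loc.comp {G : Type u} [Group G] {H : Type v} [Group H] {K : Type w} [Group K]
    (h : Loc G H) (f : H →* K) (hf : Function.Injective f) : Loc G K := by
  intro α _ x S hS
  obtain ⟨y, hy⟩ := h α x S hS
  refine ⟨fun a => f (y a), fun w hw => ?_⟩
  rw [hy w hw]
  have e : FreeGroup.lift (fun a => f (y a)) = f.comp (FreeGroup.lift y) := by
    ext a; simp
  rw [e, MonoidHom.comp_apply, map_eq_one_iff f hf]

end Pool.Agent.Helper94
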