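import Pool.Agent.Helper94.Alg
import Pool.Agent.Helper94.BiDefs

/-!
The Magnus embedding of the free metabelian group.
-/

namespace Pool.Agent.Helper94

open Multiplicative
open scoped commutatorElement

/-- The group `Z^n` acting on `Z[Z^n]^n`, as a set of pairs. -/
@[ext] structure Aff (n : ℕ) where
  /-- the linear part -/
  q : Multiplicative (Fin n → ℤ)
  /-- the translation part -/
  d : Fin n → LR n

namespace Aff
variable {n : ℕ}

/-- the linear part, as a ring element -/
noncomputable def T (q : Multiplicative (Fin n → ℤ)) : LR n := Tm (toAdd q)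

theorem T_one : T (1 : Multiplicative (Fin n → ℤ)) = 1 := Tm_zero

theorem T_mul (a b : Multiplicative (Fin n → ℤ)) : T (a * b) = T a * T b := by
  unfold T; rw [toAdd_mul, Tm_add]

theorem T_eq_one {a : Multiplicative (Fin n → ℤ)} : T a = 1 ↔ a = 1 := by
  unfold T; rw [← Tm_zero, Tm_inj]; rfl

theorem T_inj {a b : Multiplicative (Fin n → ℤ)} : T a = T b ↔ a = b := by
  unfold T; rw [Tm_inj]; exact toAdd.injective.eq_iff

noncomputable instance : Mul (Aff n) := ⟨fun a b => ⟨a.q * b.q, a.d + T a.q • b.d⟩⟩
noncomputable instance : One (Aff n) := ⟨⟨1, 0⟩⟩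
noncomputable instance : Inv (Aff n) := ⟨fun a => ⟨a.q⁻¹, -(T a.q⁻¹ • a.d)⟩⟩

theorem mul_q (a b : Aff n) : (a * b).q = a.q * b.q := rfl
theorem mul_d (a b : Aff n) : (a * b).d = a.d + T a.q • b.d := rfl
theorem one_q : (1 : Aff n).q = 1 := rfl
theorem one_d : (1 : Aff n).d = 0 := rfl
theorem inv_q (a : Aff n) : (a⁻¹).q = a.q⁻¹ := rfl
theorem inv_d (a : Aff n) : (a⁻¹).d = -(T a.q⁻¹ • a.d) := rfl

noncomputable instance : Group (Aff n) := Group.ofLeftAxioms
  (by
    intro a b c
    apply Aff.ext
    · simp only [mul_q, mul_assoc]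
    · simp only [mul_d, mul_q, T_mul, smul_add, add_assoc, mul_smul])
  (by
    intro a
    apply Aff.ext
    · simp only [mul_q, one_q, one_mul]
    · simp only [mul_d, one_q, one_d, T_one, one_smul, zero_add])
  (by
    intro a
    apply Aff.ext
    · simp only [mul_q, inv_q, one_q, inv_mul_cancel]
    · simp only [mul_d, inv_q, inv_d, one_d, neg_add_cancel])

/-- projection to the linear part -/
noncomputable def qHom : Aff n →* Multiplicative (Fin n → ℤ) where
  toFun := Aff.q
  map_one' := rfl
  map_mul' := mul_q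

theorem qHom_apply (a : Aff n) : qHom a = a.q := rfl

end Aff

variable {n : ℕ}

/-- The abelianization of the free group. -/
noncomputable def ab (n : ℕ) : FreeGroup (Fin n) →* Multiplicative (Fin n → ℤ) :=
  FreeGroup.lift (fun j => ofAdd (ue j))

/-- The Magnus homomorphism. -/
noncomputable def mag (n : ℕ) : FreeGroup (Fin n) →* Aff n :=
  FreeGroup.lift (fun j => ⟨ofAdd (ue j), Pi.single j 1⟩)

theorem mag_q (w : FreeGroup (Fin n)) : (mag n w).q = ab n w := by
  have : Aff.qHom.comp (mag n) = ab n := by
    ext1 j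
    simp [mag, ab, Aff.qHom_apply]
  exact DFunLike.congr_fun this w

theorem ker_ab (w : FreeGroup (Fin n)) (h : ab n w = 1) : w ∈ commutator (FreeGroup (Fin n)) := by
  classical
  rw [← Abelianization.ker_of, MonoidHom.mem_ker]
  let β : Multiplicative (Fin n → ℤ) →* Abelianization (FreeGroup (Fin n)) :=
    { toFun := fun x => ∏ j, (Abelianization.of (FreeGroup.of j)) ^ (toAdd x j)
      map_one' := by simp
      map_mul' := fun x y => by
        rw [← Finset.prod_mul_distrib]
        refine Finset.prod_congr rfl fun j _ => ?_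
        rw [← zpow_add]; rfl }
  have hβ : β.comp (ab n) = Abelianization.of := by
    ext1 j
    rw [MonoidHom.comp_apply]
    show ∏ l, (Abelianization.of (FreeGroup.of l)) ^ (toAdd (ab n (FreeGroup.of j)) l) = _
    rw [Finset.prod_eq_single j]
    · simp [ab]
    · intro l _ hl; simp [ab, hl]
    · intro h0; exact absurd (Finset.mem_univ j) h0
  rw [← hβ, MonoidHom.comp_apply, h, map_one]

/-- The crucial injectivity. -/
theorem mag_inj (w : FreeGroup (Fin n)) (h : mag n w = 1) :
    w ∈ derivedSeries (FreeGroup (Fin n)) 2 := by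
  classical
  let F := FreeGroup (Fin n)
  let N : Subgroup F := commutator F
  have hNn : N.Normal := inferInstance
  have hNab : ∀ u : F, u ∈ N ↔ ab n u = 1 := by
    intro u
    constructor
    · intro hu
      have : commutator F ≤ (ab n).ker := Abelianization.commutator_subset_ker _
      exact this hu
    · exact ker_ab u
  have hsurj : Function.Surjective (ab n) := by
    intro x
    have h1 : x = ofAdd (∑ j, (toAdd x j) • ue j) := by
      apply toAdd.injective
      funext k
      simp [Finset.sum_apply, Pi.single_apply]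
    rw [h1, ofAdd_sum]
    refine ⟨(List.ofFn fun j => (FreeGroup.of j : F) ^ (toAdd x j)).prod, ?_⟩
    rw [map_list_prod, List.map_ofFn, List.prod_ofFn]
    refine Finset.prod_congr rfl fun j _ => ?_
    show (ab n) ((FreeGroup.of j : F) ^ (toAdd x j)) = _
    rw [map_zpow, ofAdd_zsmul]
    simp [ab]
  choose s hs using hsurj
  let A := Additive (Abelianization N)
  have hγmem : ∀ (q : Multiplicative (Fin n → ℤ)) (u : F), s q * u * (s (q * ab n u))⁻¹ ∈ N := by
    intro q u
    rw [hNab, map_mul, map_mul, map_inv, hs, hs, mul_inv_cancel]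
  let γ : Multiplicative (Fin n → ℤ) → F → A := fun q u =>
    Additive.ofMul (Abelianization.of ⟨_, hγmem q u⟩)
  have hγmul : ∀ q u v, γ q (u * v) = γ q u + γ (q * ab n u) v := by
    intro q u v
    show Additive.ofMul _ = Additive.ofMul _ + Additive.ofMul _
    rw [← ofMul_mul, ← map_mul]
    congr 2
    apply Subtype.ext
    show s q * (u * v) * (s (q * ab n (u * v)))⁻¹ =
      (s q * u * (s (q * ab n u))⁻¹) * (s (q * ab n u) * v * (s (q * ab n u * ab n v))⁻¹)
    rw [map_mul, mul_assoc q]
    group
  have hγone : ∀ q, γ q 1 = 0 := by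
    intro q
    have := hγmul q 1 1
    simpa using this
  let σ : (Fin n → LR n) →+ A :=
    ∑ j, ((Finsupp.liftAddHom (fun q : Fin n → ℤ =>
      (zmultiplesHom A (γ (ofAdd q) (FreeGroup.of j))))).comp
        (AddMonoidAlgebra.coeffAddEquiv.toAddMonoidHom)).comp (Pi.evalAddMonoidHom (fun _ => LR n) j)
  have hσ : ∀ (q : Multiplicative (Fin n → ℤ)) (j : Fin n),
      σ (Aff.T q • Pi.single j 1) = γ q (FreeGroup.of j) := by
    intro q j
    have e1 : (Aff.T q • Pi.single j 1 : Fin n → LR n) = Pi.single j (Aff.T q) := by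
      rw [← Pi.single_smul, smul_eq_mul, mul_one]
    rw [e1]
    simp only [σ, AddMonoidHom.coe_finsetSum, Finset.sum_apply, AddMonoidHom.comp_apply]
    rw [Finset.sum_eq_single j]
    · have e2 : Pi.evalAddMonoidHom (fun _ => LR n) j (Pi.single j (Aff.T q)) = Aff.T q := by simp
      rw [e2]
      have e3 : (AddMonoidAlgebra.coeffAddEquiv.toAddMonoidHom (Aff.T q)) =
        Finsupp.single (toAdd q) (1 : ℤ) := rfl
      rw [e3, Finsupp.liftAddHom_apply_single]
      simp
    · intro l _ hl
      have e2 : Pi.evalAddMonoidHom (fun _ => LR n) l (Pi.single j (Aff.T q)) = 0 := by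
        simp [hl]
      rw [e2, map_zero, map_zero]
    · intro h0; exact absurd (Finset.mem_univ j) h0
  have hD1 : (mag n 1).d = 0 := by rw [map_one]; rfl
  have key : ∀ (u : F) (q : Multiplicative (Fin n → ℤ)), σ (Aff.T q • (mag n u).d) = γ q u := by
    intro u
    induction u using FreeGroup.induction_on with
    | C1 => intro q; rw [hD1, smul_zero, map_zero, hγone]
    | of j =>
      intro q
      have : (mag n (FreeGroup.of j)).d = Pi.single j 1 := by simp [mag]
      rw [this, hσ]
    | inv_of j ih =>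
      intro q
      have h1 := hγmul q (FreeGroup.of j)⁻¹ (FreeGroup.of j)
      rw [inv_mul_cancel, hγone] at h1
      have h2 := ih (q * ab n (FreeGroup.of j)⁻¹)
      rw [← h2] at h1
      have h3 : (mag n (FreeGroup.of j)⁻¹).d =
          -(Aff.T (ab n (FreeGroup.of j)⁻¹) • (mag n (FreeGroup.of j)).d) := by
        rw [map_inv, Aff.inv_d, mag_q, map_inv]
      rw [h3, smul_neg, map_neg, smul_smul, ← Aff.T_mul]
      rw [eq_comm, add_eq_zero_iff_eq_neg] at h1
      exact h1.symm
    | mul u v hu hv =>
      intro q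
      rw [hγmul, ← hu q, ← hv (q * ab n u), map_mul, Aff.mul_d, smul_add, map_add, mag_q, smul_smul,
        Aff.T_mul]
  have hw : w ∈ N := by
    rw [hNab, ← mag_q, h]; rfl
  have h1 := key w 1
  rw [h, Aff.one_d, smul_zero, map_zero] at h1
  have h2 : Abelianization.of (⟨_, hγmem 1 w⟩ : N) = 1 := h1.symm
  rw [← MonoidHom.mem_ker, Abelianization.ker_of] at h2
  have h3 : s 1 * w * (s (1 * ab n w))⁻¹ ∈ (commutator N).map N.subtype :=
    ⟨_, h2, rfl⟩
  have hw1 : ab n w = 1 := (hNab w).mp hw
  rw [hw1, mul_one] at h3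
  have h4 : (commutator N).map N.subtype = derivedSeries F 2 := by
    rw [commutator_def, Subgroup.map_commutator, ← MonoidHom.range_eq_map, Subgroup.range_subtype,
      derivedSeries_succ, derivedSeries_one]
  rw [h4] at h3
  have h5 : (derivedSeries F 2).Normal := inferInstance
  have h6 := h5.conj_mem _ h3 (s 1)⁻¹
  have h7 : (s 1)⁻¹ * (s 1 * w * (s 1)⁻¹) * (s 1)⁻¹⁻¹ = w := by group
  rwa [h7] at h6

theorem mag_derived (w : FreeGroup (Fin n)) (h : w ∈ derivedSeries (FreeGroup (Fin n)) 2) :
    mag n w = 1 := by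
  rw [derivedSeries_succ, derivedSeries_one] at h
  have h1 : commutator (FreeGroup (Fin n)) ≤ (ab n).ker := Abelianization.commutator_subset_ker _
  have h2 : ⁅commutator (FreeGroup (Fin n)), commutator (FreeGroup (Fin n))⁆ ≤ (mag n).ker := by
    rw [Subgroup.commutator_le]
    intro u hu v hv
    rw [MonoidHom.mem_ker, map_commutatorElement, commutatorElement_eq_one_iff_mul_comm]
    have hu' : (mag n u).q = 1 := by rw [mag_q]; exact h1 hu
    have hv' : (mag n v).q = 1 := by rw [mag_q]; exact h1 hv
    apply Aff.ext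
    · rw [Aff.mul_q, Aff.mul_q, mul_comm]
    · rw [Aff.mul_d, Aff.mul_d, hu', hv', Aff.T_one, one_smul, one_smul, add_comm]
  exact h2 h

/-- The Magnus embedding of the free metabelian group. -/
noncomputable def magM (n : ℕ) : FreeMetabelian n →* Aff n :=
  QuotientGroup.lift _ (mag n) (fun w h => mag_derived w h)

theorem magM_injective (n : ℕ) : Function.Injective (magM n) := by
  rw [injective_iff_map_eq_one]
  intro x hx
  obtain ⟨w, rfl⟩ := QuotientGroup.mk_surjective x
  have h1 : mag n w = 1 := hx
  exact (QuotientGroup.eq_one_iff w).mpr (mag_inj w h1)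

end Pool.Agent.Helper94
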