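import Pool.Agent.Helper94.Arith

/-!
Transfer of arithmetic definability along a definable copy of arithmetic.
-/

namespace Pool.Agent.Helper94

open FirstOrder FirstOrder.Language

universe u v w

/-- A definable copy of arithmetic on the range of an injective map `e`. -/
structure ArithIn (L : FirstOrder.Language.{u, v}) {M : Type w} [L.Structure M] (e : ℕ → M) :
    Prop where
  inj : Function.Injective e
  dom : DP L (fun x : Fin 1 → M => ∃ n, x 0 = e n)
  add : DP L (fun x : Fin 3 → M => ∃ m n, x 0 = e m ∧ x 1 = e n ∧ x 2 = e (m + n))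
  mul : DP L (fun x : Fin 3 → M => ∃ m n, x 0 = e m ∧ x 1 = e n ∧ x 2 = e (m * n))

variable {L : FirstOrder.Language.{u, v}} {M : Type w} [L.Structure M] {e : ℕ → M}

namespace ArithIn

theorem domP (h : ArithIn L e) {α : Type} {t : (α → M) → M} (ht : DF L t) :
    DP L (fun x : α → M => ∃ n, t x = e n) :=
  DP.rel1 (R := fun a => ∃ n, a = e n) h.dom ht

theorem addP (h : ArithIn L e) {α : Type} {t0 t1 t2 : (α → M) → M} (h0 : DF L t0) (h1 : DF L t1)
    (h2 : DF L t2) :
    DP L (fun x : α → M => ∃ m n, t0 x = e m ∧ t1 x = e n ∧ t2 x = e (m + n)) :=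
  DP.rel3 (R := fun a b c => ∃ m n, a = e m ∧ b = e n ∧ c = e (m + n)) h.add h0 h1 h2

theorem mulP (h : ArithIn L e) {α : Type} {t0 t1 t2 : (α → M) → M} (h0 : DF L t0) (h1 : DF L t1)
    (h2 : DF L t2) :
    DP L (fun x : α → M => ∃ m n, t0 x = e m ∧ t1 x = e n ∧ t2 x = e (m * n)) :=
  DP.rel3 (R := fun a b c => ∃ m n, a = e m ∧ b = e n ∧ c = e (m * n)) h.mul h0 h1 h2

theorem term (h : ArithIn L e) {α : Type} [Finite α] (t : (arithLang[[(Set.univ : Set ℕ)]]).Term α) :
    DP L (fun x : α ⊕ Unit → M => ∃ v : α → ℕ, (∀ i, x (Sum.inl i) = e (v i)) ∧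
      x (Sum.inr ()) = e (t.realize v)) := by
  have hdom : DP L (fun x : α ⊕ Unit → M => ∀ i, ∃ n, x (Sum.inl i) = e n) :=
    DP.forall_fin fun i => h.domP (DF.var _)
  induction t with
  | var i =>
    refine DP.congr (DP.and hdom (DP.eq (DF.var (Sum.inr ())) (DF.var (Sum.inl i)))) fun x => ?_
    constructor
    · rintro ⟨h1, h2⟩
      choose v hv using h1
      exact ⟨v, hv, by rw [h2, hv i]; rfl⟩
    · rintro ⟨v, hv, hv'⟩
      exact ⟨fun i => ⟨v i, hv i⟩, by rw [hv', hv i]; rfl⟩
  | @func k f ts ih =>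
    rcases f with f | c
    · -- a symbol of arithmetic
      cases f with
      | add =>
        have h2 : DP L (fun x : α ⊕ Unit → M => ∃ y : Fin 2 → M,
            (∀ j, ∃ v : α → ℕ, (∀ i, x (Sum.inl i) = e (v i)) ∧ y j = e ((ts j).realize v)) ∧
            ∃ m n, y 0 = e m ∧ y 1 = e n ∧ x (Sum.inr ()) = e (m + n)) := by
          refine DP.exs (DP.and (DP.forall_fin fun j => ?_) ?_)
          · exact DP.reindex (ih j) (fun | Sum.inl i => Sum.inl (Sum.inl i) | Sum.inr _ => Sum.inr j)
          · exact h.addP (DF.var _) (DF.var _) (DF.var _)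
        refine DP.congr h2 fun x => ?_
        constructor
        · rintro ⟨y, hy, m, n, h0, h1, hs⟩
          obtain ⟨v, hv, hv0⟩ := hy 0
          obtain ⟨v', hv', hv1⟩ := hy 1
          have hvv : v = v' := funext fun i => h.inj (by rw [← hv i, ← hv' i])
          subst hvv
          refine ⟨v, hv, ?_⟩
          have e0 : m = (ts 0).realize v := h.inj (by rw [← h0, hv0])
          have e1 : n = (ts 1).realize v := h.inj (by rw [← h1, hv1])
          rw [hs, e0, e1]; rfl
        · rintro ⟨v, hv, hs⟩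
          exact ⟨fun j => e ((ts j).realize v), fun j => ⟨v, hv, rfl⟩,
            (ts 0).realize v, (ts 1).realize v, rfl, rfl, hs⟩
      | mul =>
        have h2 : DP L (fun x : α ⊕ Unit → M => ∃ y : Fin 2 → M,
            (∀ j, ∃ v : α → ℕ, (∀ i, x (Sum.inl i) = e (v i)) ∧ y j = e ((ts j).realize v)) ∧
            ∃ m n, y 0 = e m ∧ y 1 = e n ∧ x (Sum.inr ()) = e (m * n)) := by
          refine DP.exs (DP.and (DP.forall_fin fun j => ?_) ?_)
          · exact DP.reindex (ih j) (fun | Sum.inl i => Sum.inl (Sum.inl i) | Sum.inr _ => Sum.inr j)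
          · exact h.mulP (DF.var _) (DF.var _) (DF.var _)
        refine DP.congr h2 fun x => ?_
        constructor
        · rintro ⟨y, hy, m, n, h0, h1, hs⟩
          obtain ⟨v, hv, hv0⟩ := hy 0
          obtain ⟨v', hv', hv1⟩ := hy 1
          have hvv : v = v' := funext fun i => h.inj (by rw [← hv i, ← hv' i])
          subst hvv
          refine ⟨v, hv, ?_⟩
          have e0 : m = (ts 0).realize v := h.inj (by rw [← h0, hv0])
          have e1 : n = (ts 1).realize v := h.inj (by rw [← h1, hv1])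
          rw [hs, e0, e1]; rfl
        · rintro ⟨v, hv, hs⟩
          exact ⟨fun j => e ((ts j).realize v), fun j => ⟨v, hv, rfl⟩,
            (ts 0).realize v, (ts 1).realize v, rfl, rfl, hs⟩
    · -- a constant
      cases k with
      | zero =>
        refine DP.congr (DP.and hdom (DP.eq (DF.var (Sum.inr ())) (DF.const (e c.1)))) fun x => ?_
        constructor
        · rintro ⟨h1, h2⟩
          choose v hv using h1
          exact ⟨v, hv, by rw [h2]; rfl⟩
        · rintro ⟨v, hv, hv'⟩
          exact ⟨fun i => ⟨v i, hv i⟩, by rw [hv']; rfl⟩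
      | succ k => exact PEmpty.elim c

theorem bounded (h : ArithIn L e) {α : Type} [Finite α] {n : ℕ}
    (φ : (arithLang[[(Set.univ : Set ℕ)]]).BoundedFormula α n) :
    DP L (fun x : α ⊕ Fin n → M => ∃ v : α ⊕ Fin n → ℕ, (∀ i, x i = e (v i)) ∧
      φ.Realize (fun a => v (Sum.inl a)) (fun i => v (Sum.inr i))) := by
  induction φ with
  | falsum =>
    refine DP.congr (DP.const False) fun x => ?_
    simp [BoundedFormula.Realize]
  | @equal n t₁ t₂ =>
    have h2 : DP L (fun x : α ⊕ Fin n → M => ∃ y,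
        (∃ v : α ⊕ Fin n → ℕ, (∀ i, x i = e (v i)) ∧ y = e (t₁.realize v)) ∧
        (∃ v : α ⊕ Fin n → ℕ, (∀ i, x i = e (v i)) ∧ y = e (t₂.realize v))) := by
      refine DP.ex (DP.and ?_ ?_)
      · exact h.term t₁
      · exact h.term t₂
    refine DP.congr h2 fun x => ?_
    constructor
    · rintro ⟨y, ⟨v, hv, h1⟩, ⟨v', hv', h2⟩⟩
      have hvv : v = v' := funext fun i => h.inj (by rw [← hv i, ← hv' i])
      subst hvv
      refine ⟨v, hv, ?_⟩
      have h3 := h.inj (h1.symm.trans h2)
      have hs : (Sum.elim (fun a => v (Sum.inl a)) (fun i => v (Sum.inr i))) = v := by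
        funext i; cases i <;> rfl
      show t₁.realize (Sum.elim _ _) = t₂.realize (Sum.elim _ _)
      rw [hs]; exact h3
    · rintro ⟨v, hv, h3⟩
      have hs : (Sum.elim (fun a => v (Sum.inl a)) (fun i => v (Sum.inr i))) = v := by
        funext i; cases i <;> rfl
      have h4 : t₁.realize (Sum.elim (fun a => v (Sum.inl a)) (fun i => v (Sum.inr i))) =
        t₂.realize (Sum.elim (fun a => v (Sum.inl a)) (fun i => v (Sum.inr i))) := h3
      rw [hs] at h4
      exact ⟨e (t₁.realize v), ⟨v, hv, rfl⟩, ⟨v, hv, by rw [h4]⟩⟩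
  | rel R ts => 
    rcases R with R | R
    · exact Empty.elim R
    · exact isEmptyElim R
  | @imp n f₁ f₂ ih1 ih2 =>
    have hdom : DP L (fun x : α ⊕ Fin n → M => ∀ i, ∃ n, x i = e n) :=
      DP.forall_fin fun i => h.domP (DF.var _)
    refine DP.congr (DP.and hdom (DP.imp ih1 ih2)) fun x => ?_
    constructor
    · rintro ⟨hd, hi⟩
      choose v hv using hd
      refine ⟨v, hv, fun h1 => ?_⟩
      obtain ⟨v', hv', h2⟩ := hi ⟨v, hv, h1⟩
      have hvv : v = v' := funext fun i => h.inj (by rw [← hv i, ← hv' i])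
      subst hvv
      exact h2
    · rintro ⟨v, hv, hi⟩
      refine ⟨fun i => ⟨v i, hv i⟩, ?_⟩
      rintro ⟨v', hv', h1⟩
      have hvv : v = v' := funext fun i => h.inj (by rw [← hv i, ← hv' i])
      subst hvv
      exact ⟨v, hv, hi h1⟩
  | @all n f ih =>
    have hdom : DP L (fun x : α ⊕ Fin n → M => ∀ i, ∃ n, x i = e n) :=
      DP.forall_fin fun i => h.domP (DF.var _)
    have h2 : DP L (fun x : α ⊕ Fin n → M => ∀ y, (∃ n, y = e n) →
        ∃ v : α ⊕ Fin (n + 1) → ℕ,
          (∀ i, (fun i => match i with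
            | Sum.inl a => x (Sum.inl a)
            | Sum.inr j => (Fin.snoc (fun j => x (Sum.inr j)) y : Fin (n + 1) → M) j) i = e (v i)) ∧
          f.Realize (fun a => v (Sum.inl a)) (fun i => v (Sum.inr i))) := by
      refine DP.all (DP.imp (h.domP (DF.var _)) ?_)
      refine DP.subst (β := α ⊕ Fin (n + 1)) ih (t := fun b x => match b with
            | Sum.inl a => x (Sum.inl (Sum.inl a))
            | Sum.inr j => (Fin.snoc (fun j => x (Sum.inl (Sum.inr j))) (x (Sum.inr ())) : Fin (n + 1) → M) j) ?_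
      rintro (a | j)
      · exact DF.var _
      · refine Fin.lastCases ?_ (fun j => ?_) j
        · simp only [Fin.snoc_last]; exact DF.var _
        · simp only [Fin.snoc_castSucc]; exact DF.var _
    refine DP.congr (DP.and hdom h2) fun x => ?_
    constructor
    · rintro ⟨hd, hi⟩
      choose v hv using hd
      refine ⟨v, hv, fun a => ?_⟩
      obtain ⟨v', hv', h2⟩ := hi (e a) ⟨a, rfl⟩
      have e1 : (fun a => v' (Sum.inl a)) = (fun a => v (Sum.inl a)) :=
        funext fun i => h.inj (by rw [← hv, ← hv' (Sum.inl i)])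
      have e2 : (fun j => v' (Sum.inr j)) = (Fin.snoc (fun j => v (Sum.inr j)) a : Fin (n+1) → ℕ) := by
        funext j
        apply h.inj
        rw [← hv' (Sum.inr j)]
        refine Fin.lastCases ?_ (fun j => ?_) j
        · simp only [Fin.snoc_last]
        · simp only [Fin.snoc_castSucc]; exact hv _
      rw [e1, e2] at h2
      exact h2
    · rintro ⟨v, hv, hi⟩
      refine ⟨fun i => ⟨v i, hv i⟩, ?_⟩
      rintro _ ⟨a, rfl⟩
      refine ⟨Sum.elim (fun i => v (Sum.inl i)) (Fin.snoc (fun j => v (Sum.inr j)) a : Fin (n+1) → ℕ),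
        ?_, hi a⟩
      rintro (i | j)
      · exact hv _
      · refine Fin.lastCases ?_ (fun j => ?_) j
        · simp only [Fin.snoc_last, Sum.elim_inr]
        · simp only [Fin.snoc_castSucc, Sum.elim_inr]; exact hv _

/-- Transfer of arithmetic definability. -/
theorem transfer (h : ArithIn L e) {α : Type} [Finite α] {P : (α → ℕ) → Prop} (hP : AP P) :
    DP L (fun x : α → M => ∃ v : α → ℕ, (∀ i, x i = e (v i)) ∧ P v) := by
  obtain ⟨φ, hφ⟩ := hP
  have h1 := DP.subst (h.bounded φ) (α := α) (t := fun b x => match b with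
            | Sum.inl a => x a
            | Sum.inr j => Fin.elim0 j) (by rintro (a | j); exacts [DF.var _, Fin.elim0 j])
  refine DP.congr h1 fun x => ?_
  have key : ∀ v : α → ℕ, P v ↔ φ.Realize v := fun v => by
    have : v ∈ {x | P x} ↔ v ∈ Set.ofPred φ.Realize := by rw [hφ]
    exact this
  constructor
  · rintro ⟨v, hv, h2⟩
    refine ⟨fun a => v (Sum.inl a), fun i => hv (Sum.inl i), ?_⟩
    rw [key]
    unfold Formula.Realize
    exact (congrArg (fun z : Fin 0 → ℕ => BoundedFormula.Realize φ (fun a => v (Sum.inl a)) z)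
      (Subsingleton.elim _ _)).mp h2
  · rintro ⟨v, hv, h2⟩
    refine ⟨Sum.elim v Fin.elim0, ?_, ?_⟩
    · rintro (i | j)
      · exact hv i
      · exact Fin.elim0 j
    · rw [key] at h2
      unfold Formula.Realize at h2
      exact (congrArg (fun z : Fin 0 → ℕ => BoundedFormula.Realize φ v z)
        (Subsingleton.elim _ _)).mp h2

end ArithIn

end Pool.Agent.Helper94
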