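import Pool.Agent.Helper94.Alg
import Pool.Agent.Helper94.Transfer

/-!
The abstract setup: extensions of finite torsion-free modules by free abelian groups, and
definability in such groups.
-/

namespace Pool.Agent.Helper94

open FirstOrder FirstOrder.Language Multiplicative
open scoped commutatorElement

universe u v

section calculus
variable {G : Type u} [Group G] {α : Type}

/-- definable predicates in a group -/
abbrev GP (P : (α → G) → Prop) : Prop := DP groupLang P
/-- definable functions in a group -/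
abbrev GF (t : (α → G) → G) : Prop := DF groupLang t

theorem GF.mul {s t : (α → G) → G} (hs : GF s) (ht : GF t) : GF (fun x => s x * t x) := by
  have h : (∅ : Set G).DefinableFun groupLang
    (Structure.funMap (GrpFunc.mul : groupLang.Functions 2) : (Fin 2 → G) → G) :=
    Set.DefinableFun.fun_symbol _
  have h' : DF groupLang (fun x : Fin 2 → G => x 0 * x 1) := h.of_empty
  exact DF.fun2 h' hs ht

theorem GF.inv {s : (α → G) → G} (hs : GF s) : GF (fun x => (s x)⁻¹) := by
  have h : (∅ : Set G).DefinableFun groupLang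
    (Structure.funMap (GrpFunc.inv : groupLang.Functions 1) : (Fin 1 → G) → G) :=
    Set.DefinableFun.fun_symbol _
  have h' : DF groupLang (fun x : Fin 1 → G => (x 0)⁻¹) := h.of_empty
  exact DF.fun1 h' hs

theorem GF.comm {s t : (α → G) → G} (hs : GF s) (ht : GF t) : GF (fun x => ⁅s x, t x⁆) := by
  simp only [commutatorElement_def]
  exact ((hs.mul ht).mul hs.inv).mul ht.inv

theorem GF.prod {n : ℕ} {s : Fin n → (α → G) → G} (hs : ∀ j, GF (s j)) :
    GF (fun x => (List.ofFn fun j => s j x).prod) := by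
  induction n with
  | zero => simp only [List.ofFn_zero, List.prod_nil]; exact DF.const _
  | succ n ih =>
    simp only [List.ofFn_succ, List.prod_cons]
    exact GF.mul (hs 0) (ih fun j => hs j.succ)

end calculus

/-- Groups which are extensions of a nonzero finite torsion-free module by a free abelian group. -/
structure Setup {G : Type u} [Group G] {m : ℕ} {V : Type v} [AddCommGroup V] [Module (LR m) V]
    (π : G →* Multiplicative (Fin m → ℤ)) (i : Multiplicative V →* G) : Prop where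
  surj : Function.Surjective π
  inj : Function.Injective i
  ker : ∀ g, π g = 1 ↔ ∃ v : V, g = i (ofAdd v)
  conj : ∀ g (v : V), i (ofAdd (Tm (toAdd (π g)) • v)) = g * i (ofAdd v) * g⁻¹
  fin : Module.Finite (LR m) V
  tf : ∀ (r : LR m) (v : V), r • v = 0 → r = 0 ∨ v = 0
  nt : Nontrivial V

namespace Setup

variable {G : Type u} [Group G] {m : ℕ} {V : Type v} [AddCommGroup V] [Module (LR m) V]
  {π : G →* Multiplicative (Fin m → ℤ)} {i : Multiplicative V →* G}

/-- the action -/
noncomputable def tau (π : G →* Multiplicative (Fin m → ℤ)) : G →* LR m :=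
  (AddMonoidAlgebra.of ℤ (Fin m → ℤ)).comp π

theorem tau_eq (g : G) : tau π g = Tm (toAdd (π g)) := rfl

theorem tau_eq_one {g : G} : tau π g = 1 ↔ π g = 1 := by
  rw [tau_eq, ← Tm_zero, Tm_inj]; rfl

theorem i_add (v w : V) : i (ofAdd (v + w)) = i (ofAdd v) * i (ofAdd w) := by
  rw [ofAdd_add, map_mul]

theorem i_zero : i (ofAdd (0 : V)) = 1 := by rw [ofAdd_zero, map_one]

theorem i_neg (v : V) : i (ofAdd (-v)) = (i (ofAdd v))⁻¹ := by rw [ofAdd_neg, map_inv]

theorem i_sub (v w : V) : i (ofAdd (v - w)) = i (ofAdd v) * (i (ofAdd w))⁻¹ := by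
  rw [sub_eq_add_neg, i_add, i_neg]

variable (S : Setup π i)
include S

theorem i_inj {v w : V} : i (ofAdd v) = i (ofAdd w) ↔ v = w := by
  constructor
  · intro h; exact ofAdd.injective (S.inj h)
  · rintro rfl; rfl

theorem i_eq_one {v : V} : i (ofAdd v) = 1 ↔ v = 0 := by
  rw [← i_zero (i := i), S.i_inj]

theorem conj' (g : G) (v : V) : g * i (ofAdd v) * g⁻¹ = i (ofAdd (tau π g • v)) := (S.conj g v).symm

theorem comm (g : G) (v : V) : ⁅g, i (ofAdd v)⁆ = i (ofAdd ((tau π g - 1) • v)) := by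
  rw [commutatorElement_def, S.conj', sub_smul, one_smul, i_sub]

theorem cancel {r : LR m} (hr : r ≠ 0) {v w : V} (h : r • v = r • w) : v = w := by
  have h1 : r • (v - w) = 0 := by rw [smul_sub, h, sub_self]
  rcases S.tf _ _ h1 with h2 | h2
  · exact absurd h2 hr
  · exact sub_eq_zero.mp h2

theorem mem_A {v0 : V} (hv0 : v0 ≠ 0) (g : G) :
    g * i (ofAdd v0) = i (ofAdd v0) * g ↔ ∃ v : V, g = i (ofAdd v) := by
  constructor
  · intro h
    rw [← S.ker]
    have h1 : g * i (ofAdd v0) * g⁻¹ = i (ofAdd v0) := by rw [h]; group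
    rw [S.conj', S.i_inj] at h1
    have h2 : (tau π g - 1) • v0 = 0 := by rw [sub_smul, one_smul, h1, sub_self]
    rcases S.tf _ _ h2 with h3 | h3
    · exact tau_eq_one.mp (sub_eq_zero.mp h3)
    · exact absurd h3 hv0
  · rintro ⟨v, rfl⟩
    rw [← i_add, ← i_add, add_comm]

theorem exists_v0 : ∃ v0 : V, v0 ≠ 0 := by
  have := S.nt
  exact exists_ne 0

theorem A_def {α : Type} {t : (α → G) → G} (ht : GF t) :
    GP (fun x => ∃ v : V, t x = i (ofAdd v)) := by
  obtain ⟨v0, hv0⟩ := S.exists_v0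
  refine DP.congr (DP.eq (GF.mul ht (DF.const (i (ofAdd v0)))) (GF.mul (DF.const (i (ofAdd v0))) ht))
    fun x => ?_
  exact S.mem_A hv0 _

theorem exA {α : Type} {P : (α → G) → G → Prop}
    (h : GP (fun x : α ⊕ Unit → G => P (fun a => x (Sum.inl a)) (x (Sum.inr ())))) :
    GP (fun x => ∃ v : V, P x (i (ofAdd v))) := by
  have h1 : GP (fun x : α → G => ∃ y, (∃ v : V, y = i (ofAdd v)) ∧ P x y) :=
    DP.ex (DP.and (S.A_def (DF.var _)) h)
  refine DP.congr h1 fun x => ?_
  constructor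
  · rintro ⟨y, ⟨v, rfl⟩, hP⟩; exact ⟨v, hP⟩
  · rintro ⟨v, hP⟩; exact ⟨_, ⟨v, rfl⟩, hP⟩

theorem allA {α : Type} {P : (α → G) → G → Prop}
    (h : GP (fun x : α ⊕ Unit → G => P (fun a => x (Sum.inl a)) (x (Sum.inr ())))) :
    GP (fun x => ∀ v : V, P x (i (ofAdd v))) := by
  have h1 : GP (fun x : α → G => ∀ y, (∃ v : V, y = i (ofAdd v)) → P x y) :=
    DP.all (DP.imp (S.A_def (DF.var _)) h)
  refine DP.congr h1 fun x => ?_
  constructor
  · intro h v; exact h _ ⟨v, rfl⟩
  · rintro h y ⟨v, rfl⟩; exact h v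

theorem faithful (r : LR m) (h : ∀ v : V, r • v = 0) : r = 0 := by
  obtain ⟨v0, hv0⟩ := S.exists_v0
  rcases S.tf _ _ (h v0) with h1 | h1
  · exact h1
  · exact absurd h1 hv0

/-- the determinant trick for principal ideals -/
theorem ch' (x y : LR m) (h : ∀ v : V, ∃ w : V, x • v = y • w) : ∃ (n : ℕ) (r : LR m), x ^ n = r * y := by
  have := S.fin
  obtain ⟨n, hn⟩ := ch (V := V) S.faithful (Ideal.span {y}) x (fun v => by
    obtain ⟨w, hw⟩ := h v
    rw [hw]
    exact Submodule.smul_mem_smul (Ideal.mem_span_singleton_self y) trivial)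
  obtain ⟨r, hr⟩ := Ideal.mem_span_singleton'.mp hn
  exact ⟨n, r, hr.symm⟩

variable {h : G} {j0 : Fin m} (hh : π h = ofAdd (ue j0))
include hh

omit S [AddCommGroup V] [Module (LR m) V] in
theorem tau_h (k : ℤ) : tau π (h ^ k) = Tm (k • ue j0) := by
  rw [tau_eq, map_zpow, hh]; rfl

omit S [AddCommGroup V] [Module (LR m) V] in
theorem tau_h1 : tau π h = Tm (ue j0) := by
  rw [tau_eq, hh]; rfl

omit S [AddCommGroup V] [Module (LR m) V] in
theorem tau_h_eq_one {k : ℤ} : tau π (h ^ k) = 1 ↔ k = 0 := by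
  rw [tau_h hh, ← Tm_zero, Tm_inj]
  constructor
  · intro h1
    have := congrFun h1 j0
    simpa using this
  · rintro rfl; simp

theorem tau_h_ne_zero {k : ℤ} (hk : k ≠ 0) : tau π (h ^ k) - 1 ≠ 0 := by
  intro h1
  exact hk ((tau_h_eq_one hh).mp (sub_eq_zero.mp h1))

theorem tau_h1_ne_zero : tau π h - 1 ≠ 0 := by
  have := S.tau_h_ne_zero hh (k := 1) one_ne_zero
  rwa [zpow_one] at this

theorem zpow_inj {k l : ℤ} : h ^ k = h ^ l ↔ k = l := by
  constructor
  · intro h1
    have h2 : h ^ (k - l) = 1 := by rw [zpow_sub, h1, mul_inv_cancel]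
    have h3 : tau π (h ^ (k - l)) = 1 := by rw [h2, map_one]
    have := (tau_h_eq_one hh).mp h3
    omega
  · rintro rfl; rfl

theorem cyclic (x : G) : (∃ k : ℤ, x = h ^ k) ↔
    x * h = h * x ∧ ∀ v : V, ∃ w : V, ⁅x, i (ofAdd v)⁆ = ⁅h, i (ofAdd w)⁆ := by
  classical
  constructor
  · rintro ⟨k, rfl⟩
    refine ⟨?_, fun v => ?_⟩
    · rw [← zpow_add_one, ← zpow_one_add, add_comm]
    · obtain ⟨r, hr⟩ := zpow_cong (tau π) h k
      refine ⟨((k : LR m) + (tau π h - 1) * r) • v, ?_⟩
      rw [S.comm, S.comm, hr, S.i_inj, smul_smul]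
      congr 1; ring
  · rintro ⟨hx, hA⟩
    obtain ⟨n, r, hn⟩ := S.ch' (tau π x - 1) (tau π h - 1) (fun v => by
      obtain ⟨w, hw⟩ := hA v
      rw [S.comm, S.comm, S.i_inj] at hw
      exact ⟨w, hw⟩)
    have hzero : ∀ j, j ≠ j0 → toAdd (π x) j = 0 := by
      intro j hj
      let κ : Fin m → ℚˣ := fun l => if l = j then Units.mk0 2 two_ne_zero else 1
      have h1 := congrArg (ev κ) hn
      rw [map_mul, map_sub, map_one, tau_h1 hh, ev_ue] at h1
      have h2 : (κ j0 : ℚ) = 1 := by simp [κ, Ne.symm hj]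
      rw [h2, sub_self, mul_zero, map_pow, map_sub, map_one, tau_eq, ev_Tm,
        Finset.prod_eq_single j] at h1
      · have h3 := eq_zero_of_pow_eq_zero h1
        simp only [κ, if_true] at h3
        have h4 : (2 : ℚ) ^ (toAdd (π x) j) = 2 ^ (0 : ℤ) := by
          have : (((Units.mk0 (2:ℚ) two_ne_zero) ^ (toAdd (π x) j) : ℚˣ) : ℚ) = 1 := by linarith
          simpa using this
        exact zpow_right_injective₀ (by norm_num) (by norm_num) h4
      · intro l _ hl; simp [κ, hl]
      · intro h0; exact absurd (Finset.mem_univ j) h0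
    refine ⟨toAdd (π x) j0, ?_⟩
    set k := toAdd (π x) j0 with hk
    have hπ : π (x * (h ^ k)⁻¹) = 1 := by
      have h1 : π x = ofAdd (k • ue j0) := by
        apply toAdd.injective
        funext j
        by_cases hj : j = j0
        · subst hj; simp [hk]
        · rw [hzero j hj]; simp [hj]
      rw [map_mul, map_inv, map_zpow, hh, h1, ofAdd_zsmul, mul_inv_cancel]
    obtain ⟨w, hw⟩ := (S.ker _).mp hπ
    have hcomm : ⁅h, x * (h ^ k)⁻¹⁆ = 1 := by
      rw [commutatorElement_eq_one_iff_mul_comm]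
      have h1 : h * (h ^ k)⁻¹ = (h ^ k)⁻¹ * h := by
        rw [← zpow_neg, ← zpow_one_add, ← zpow_add_one, add_comm]
      rw [← mul_assoc, ← hx, mul_assoc, h1, mul_assoc]
    rw [hw, S.comm, S.i_eq_one] at hcomm
    rcases S.tf _ _ hcomm with h1 | h1
    · exact absurd h1 (S.tau_h1_ne_zero hh)
    · rw [h1, i_zero, mul_inv_eq_one] at hw
      exact hw

theorem exists_b : ∃ b : V, ∀ k : ℤ, (∃ w : V, (k : LR m) • b = (tau π h - 1) • w) → k = 0 := by
  classical
  by_contra hcon
  push Not at hcon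
  have := S.fin
  obtain ⟨d, s, hs⟩ := Module.Finite.exists_fin (R := LR m) (M := V)
  choose k hk using hcon
  let K : ℤ := ∏ l, k (s l)
  have hK : K ≠ 0 := Finset.prod_ne_zero_iff.mpr fun l _ => (hk (s l)).2
  obtain ⟨n, r, hn⟩ := S.ch' (K : LR m) (tau π h - 1) (fun v => by
    have hv : v ∈ Submodule.span (LR m) (Set.range s) := by rw [hs]; trivial
    induction hv using Submodule.span_induction with
    | mem x hx =>
      obtain ⟨l, rfl⟩ := hx
      obtain ⟨w, hw⟩ := (hk (s l)).1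
      have hd : k (s l) ∣ K := Finset.dvd_prod_of_mem _ (Finset.mem_univ l)
      obtain ⟨c, hc⟩ := hd
      refine ⟨(c : LR m) • w, ?_⟩
      rw [hc, mul_comm, Int.cast_mul, mul_smul, hw, smul_smul, smul_smul, mul_comm]
    | zero => exact ⟨0, by simp⟩
    | add x y _ _ hx hy =>
      obtain ⟨a, ha⟩ := hx
      obtain ⟨b, hb⟩ := hy
      exact ⟨a + b, by rw [smul_add, smul_add, ha, hb]⟩
    | smul a x _ hx =>
      obtain ⟨b, hb⟩ := hx
      exact ⟨a • b, by rw [smul_smul, mul_comm, mul_smul, hb, smul_smul, smul_smul, mul_comm]⟩)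
  have h1 := congrArg (ev (K := ℚ) (fun _ => 1)) hn
  rw [map_mul, map_sub, map_one, tau_h1 hh, ev_ue, Units.val_one, sub_self, mul_zero, map_pow,
    map_intCast] at h1
  have h3 := eq_zero_of_pow_eq_zero h1
  exact hK (by exact_mod_cast h3)

/-- integers modulo the augmentation -/
theorem mulZ_iff {b : V} (hb : ∀ k : ℤ, (∃ w : V, (k : LR m) • b = (tau π h - 1) • w) → k = 0)
    (k l n : ℤ) : (∃ c : V, (∃ w : V, ⁅h ^ k, i (ofAdd b)⁆ = ⁅h, i (ofAdd c)⁆ * ⁅h, ⁅h, i (ofAdd w)⁆⁆) ∧
      (∃ w : V, ⁅h ^ l, i (ofAdd c)⁆ = ⁅h ^ n, i (ofAdd b)⁆ * ⁅h, ⁅h, i (ofAdd w)⁆⁆)) ↔ k * l = n := by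
  have hne := S.tau_h1_ne_zero hh
  simp only [S.comm, ← i_add, S.i_inj]
  set t := tau π h with ht
  obtain ⟨rk, hrk⟩ := zpow_cong (tau π) h k
  obtain ⟨rl, hrl⟩ := zpow_cong (tau π) h l
  obtain ⟨rn, hrn⟩ := zpow_cong (tau π) h n
  rw [← ht] at hrk hrl hrn
  rw [hrk, hrl, hrn]
  constructor
  · rintro ⟨c, ⟨w, hw⟩, ⟨w', hw'⟩⟩
    have e1 : c = (k : LR m) • b + (t - 1) • (rk • b - w) := by
      apply S.cancel hne
      linear_combination (norm := module) (-1 : LR m) • hw
    have e2 : (l : LR m) • c + (t - 1) • rl • c = (n : LR m) • b + (t - 1) • rn • b + (t - 1) • w' := by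
      apply S.cancel hne
      linear_combination (norm := module) (1 : LR m) • hw'
    have e3 : ((k * l - n : ℤ) : LR m) • b = (t - 1) • (rn • b + w' - rl • c - (l : LR m) • (rk • b - w)) := by
      push_cast
      linear_combination (norm := module) (1 : LR m) • e2 - (l : LR m) • e1
    have := hb _ ⟨_, e3⟩
    omega
  · rintro rfl
    refine ⟨(k : LR m) • b, ⟨rk • b, ?_⟩, ⟨((k : LR m) * rl - rn) • b, ?_⟩⟩
    · simp only [smul_smul, ← add_smul]
      congr 1; ring
    · simp only [smul_smul, ← add_smul]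
      congr 1; push_cast; ring

end Setup

end Pool.Agent.Helper94
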