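import Pool.Agent.Helper94.Arith
import Pool.Agent.Helper94.Setup

/-!
Definable sets of an arithmetically presented group are arithmetic.
-/

namespace Pool.Agent.Helper94

open FirstOrder FirstOrder.Language

universe u

/-- An arithmetic presentation of a group. -/
structure PresIn {G : Type u} [Group G] (ν : ℕ → G) : Prop where
  surj : Function.Surjective ν
  eq : AP (fun x : Fin 2 → ℕ => ν (x 0) = ν (x 1))
  mul : AP (fun x : Fin 3 → ℕ => ν (x 0) * ν (x 1) = ν (x 2))

variable {G : Type u} [Group G] {ν : ℕ → G}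

namespace PresIn

theorem eqP (h : PresIn ν) {α : Type} {s t : (α → ℕ) → ℕ} (hs : AF s) (ht : AF t) :
    AP (fun x => ν (s x) = ν (t x)) :=
  DP.rel2 (R := fun a b => ν a = ν b) h.eq hs ht

theorem mulP (h : PresIn ν) {α : Type} {s t r : (α → ℕ) → ℕ} (hs : AF s) (ht : AF t) (hr : AF r) :
    AP (fun x => ν (s x) * ν (t x) = ν (r x)) :=
  DP.rel3 (R := fun a b c => ν a * ν b = ν c) h.mul hs ht hr

theorem term (h : PresIn ν) {α : Type} [Finite α] (t : (groupLang[[(Set.univ : Set G)]]).Term α) :
    AP (fun x : α ⊕ Unit → ℕ => t.realize (fun a => ν (x (Sum.inl a))) = ν (x (Sum.inr ()))) := by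
  obtain ⟨c1, hc1⟩ := h.surj 1
  induction t with
  | var i => exact h.eqP (DF.var _) (DF.var _)
  | @func k f ts ih =>
    rcases f with f | c
    · cases f with
      | one =>
        refine DP.congr (h.eqP (DF.const c1) (DF.var (Sum.inr ()))) fun x => ?_
        rw [hc1]; rfl
      | inv =>
        have h2 : AP (fun x : α ⊕ Unit → ℕ => ∃ y : ℕ,
            (ts 0).realize (fun a => ν (x (Sum.inl a))) = ν y ∧ ν y * ν (x (Sum.inr ())) = ν c1) := by
          refine DP.ex (DP.and ?_ (h.mulP (DF.var _) (DF.var _) (DF.const _)))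
          exact DP.reindex (ih 0) (fun | Sum.inl i => Sum.inl (Sum.inl i) | Sum.inr _ => Sum.inr ())
        refine DP.congr h2 fun x => ?_
        have h3 : (Term.func (Sum.inl GrpFunc.inv) ts : (groupLang[[(Set.univ : Set G)]]).Term α).realize
          (fun a => ν (x (Sum.inl a))) = ((ts 0).realize (fun a => ν (x (Sum.inl a))))⁻¹ := rfl
        rw [h3, hc1]
        constructor
        · rintro ⟨y, hy, hy'⟩
          rw [hy]; exact inv_eq_of_mul_eq_one_right hy'
        · intro h4
          obtain ⟨y, hy⟩ := h.surj ((ts 0).realize (fun a => ν (x (Sum.inl a))))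
          exact ⟨y, hy.symm, by rw [hy, ← h4, mul_inv_cancel]⟩
      | mul =>
        have h2 : AP (fun x : α ⊕ Unit → ℕ => ∃ y : Fin 2 → ℕ,
            (∀ j, (ts j).realize (fun a => ν (x (Sum.inl a))) = ν (y j)) ∧
            ν (y 0) * ν (y 1) = ν (x (Sum.inr ()))) := by
          refine DP.exs (DP.and (DP.forall_fin fun j => ?_) (h.mulP (DF.var _) (DF.var _) (DF.var _)))
          exact DP.reindex (ih j) (fun | Sum.inl i => Sum.inl (Sum.inl i) | Sum.inr _ => Sum.inr j)
        refine DP.congr h2 fun x => ?_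
        have h3 : (Term.func (Sum.inl GrpFunc.mul) ts : (groupLang[[(Set.univ : Set G)]]).Term α).realize
          (fun a => ν (x (Sum.inl a))) = (ts 0).realize (fun a => ν (x (Sum.inl a))) *
            (ts 1).realize (fun a => ν (x (Sum.inl a))) := rfl
        rw [h3]
        constructor
        · rintro ⟨y, hy, hy'⟩
          rw [hy, hy]; exact hy'
        · intro h4
          choose y hy using fun j => h.surj ((ts j).realize (fun a => ν (x (Sum.inl a))))
          exact ⟨y, fun j => (hy j).symm, by rw [hy, hy]; exact h4⟩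
    · cases k with
      | zero =>
        obtain ⟨cc, hcc⟩ := h.surj c.1
        refine DP.congr (h.eqP (DF.const cc) (DF.var (Sum.inr ()))) fun x => ?_
        rw [hcc]; rfl
      | succ k => exact PEmpty.elim c

theorem bounded (h : PresIn ν) {α : Type} [Finite α] {n : ℕ}
    (φ : (groupLang[[(Set.univ : Set G)]]).BoundedFormula α n) :
    AP (fun x : α ⊕ Fin n → ℕ =>
      φ.Realize (fun a => ν (x (Sum.inl a))) (fun i => ν (x (Sum.inr i)))) := by
  induction φ with
  | falsum => exact DP.const False
  | @equal n t₁ t₂ =>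
    have h2 : AP (fun x : α ⊕ Fin n → ℕ => ∃ y : ℕ,
        t₁.realize (fun a => ν (x a)) = ν y ∧ t₂.realize (fun a => ν (x a)) = ν y) := by
      refine DP.ex (DP.and ?_ ?_)
      · exact h.term t₁
      · exact h.term t₂
    refine DP.congr h2 fun x => ?_
    have hs : (Sum.elim (fun a => ν (x (Sum.inl a))) (fun i => ν (x (Sum.inr i)))) =
        fun a => ν (x a) := by
      funext i; cases i <;> rfl
    show _ ↔ t₁.realize (Sum.elim _ _) = t₂.realize (Sum.elim _ _)
    rw [hs]
    constructor
    · rintro ⟨y, h1, h2⟩; rw [h1, h2]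
    · intro h1
      obtain ⟨y, hy⟩ := h.surj (t₁.realize (fun a => ν (x a)))
      exact ⟨y, hy.symm, by rw [hy, h1]⟩
  | rel R ts =>
    rcases R with R | R
    · exact Empty.elim R
    · exact isEmptyElim R
  | @imp n f₁ f₂ ih1 ih2 => exact DP.imp ih1 ih2
  | @all n f ih =>
    have h2 : AP (fun x : α ⊕ Fin n → ℕ => ∀ y : ℕ,
        f.Realize (fun a => ν (x (Sum.inl a)))
          (fun i => ν ((Fin.snoc (fun j => x (Sum.inr j)) y : Fin (n + 1) → ℕ) i))) := by
      refine DP.all ?_
      refine DP.subst (β := α ⊕ Fin (n + 1)) ih (t := fun b x => match b with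
            | Sum.inl a => x (Sum.inl (Sum.inl a))
            | Sum.inr j => (Fin.snoc (fun j => x (Sum.inl (Sum.inr j))) (x (Sum.inr ())) : Fin (n + 1) → ℕ) j) ?_
      rintro (a | j)
      · exact DF.var _
      · refine Fin.lastCases ?_ (fun j => ?_) j
        · simp only [Fin.snoc_last]; exact DF.var _
        · simp only [Fin.snoc_castSucc]; exact DF.var _
    refine DP.congr h2 fun x => ?_
    have hsnoc : ∀ y : ℕ, (fun i => ν ((Fin.snoc (fun j => x (Sum.inr j)) y : Fin (n + 1) → ℕ) i)) =
        (Fin.snoc (fun j => ν (x (Sum.inr j))) (ν y) : Fin (n + 1) → G) := by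
      intro y
      funext i
      refine Fin.lastCases ?_ (fun j => ?_) i
      · simp only [Fin.snoc_last]
      · simp only [Fin.snoc_castSucc]
    show (∀ y : ℕ, _) ↔ ∀ g : G, f.Realize _ (Fin.snoc _ g)
    constructor
    · intro h3 g
      obtain ⟨y, rfl⟩ := h.surj g
      have := h3 y
      rwa [hsnoc] at this
    · intro h3 y
      rw [hsnoc]
      exact h3 (ν y)

/-- Definable sets pull back to arithmetic sets. -/
theorem pull (h : PresIn ν) {α : Type} [Finite α] {P : (α → G) → Prop} (hP : GP P) :
    AP (fun x : α → ℕ => P (fun a => ν (x a))) := by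
  obtain ⟨φ, hφ⟩ := hP
  have h1 := DP.subst (h.bounded φ) (α := α) (t := fun b x => match b with
            | Sum.inl a => x a
            | Sum.inr j => Fin.elim0 j) (by rintro (a | j); exacts [DF.var _, Fin.elim0 j])
  refine DP.congr h1 fun x => ?_
  have key : ∀ v : α → G, P v ↔ φ.Realize v := fun v => by
    have : v ∈ {x | P x} ↔ v ∈ Set.ofPred φ.Realize := by rw [hφ]
    exact this
  rw [key]
  unfold Formula.Realize
  exact iff_of_eq (congrArg (fun z : Fin 0 → G => BoundedFormula.Realize φ (fun a => ν (x a)) z)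
    (Subsingleton.elim _ _))

end PresIn

end Pool.Agent.Helper94
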