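import Pool.Agent.Helper94.Struct
import Pool.Agent.Helper94.Magnus
import Pool.Agent.Helper94.Loc

/-!
Finitely generated non-abelian rigid metabelian groups fit the abstract setup.
-/

namespace Pool.Agent.Helper94

open Multiplicative
open scoped commutatorElement

universe u v

namespace Aff
variable {n : ℕ}

theorem comm_q (x y : Aff n) : (⁅x, y⁆ : Aff n).q = 1 := by
  rw [commutatorElement_def, mul_q, mul_q, mul_q, inv_q, inv_q, mul_comm x.q, mul_assoc y.q,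
    mul_inv_cancel, mul_one, mul_inv_cancel]

/-- the translations -/
noncomputable def tr : Multiplicative (Fin n → LR n) →* Aff n where
  toFun d := ⟨1, toAdd d⟩
  map_one' := rfl
  map_mul' a b := by
    apply Aff.ext
    · rw [mul_q, one_mul]
    · rw [mul_d, T_one, one_smul]; rfl

theorem tr_inj {a b : Fin n → LR n} : tr (ofAdd a) = tr (ofAdd b) ↔ a = b := by
  constructor
  · intro h; exact congrArg Aff.d h
  · rintro rfl; rfl

theorem eq_tr {c : Aff n} (hc : c.q = 1) : c = tr (ofAdd c.d) := Aff.ext hc rfl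

theorem tr_comm (a b : Multiplicative (Fin n → LR n)) : tr a * tr b = tr b * tr a := by
  rw [← map_mul tr, mul_comm, map_mul tr]

theorem conj_tr (g : Aff n) (d : Fin n → LR n) : g * tr (ofAdd d) * g⁻¹ = tr (ofAdd (T g.q • d)) := by
  rw [mul_inv_eq_iff_eq_mul]
  apply Aff.ext
  · rw [mul_q, mul_q]
    show g.q * 1 = 1 * g.q
    rw [mul_one, one_mul]
  · rw [mul_d, mul_d]
    show g.d + T g.q • d = T g.q • d + T 1 • g.d
    rw [T_one, one_smul, add_comm]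

theorem smul_eq_zero' {r : LR n} {d : Fin n → LR n} (h : r • d = 0) (hd : d ≠ 0) : r = 0 := by
  obtain ⟨l, hl⟩ := Function.ne_iff.mp hd
  have h1 := congrFun h l
  rw [Pi.smul_apply, smul_eq_mul, Pi.zero_apply, mul_eq_zero] at h1
  rcases h1 with h1 | h1
  · exact h1
  · exact absurd h1 hl

theorem comm_iff {c u : Aff n} (hq : c.q = 1) (hc : c ≠ 1) : ⁅c, u⁆ = 1 ↔ u.q = 1 := by
  have hd : c.d ≠ 0 := by
    intro h; apply hc; exact Aff.ext hq h
  constructor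
  · intro h
    rw [commutatorElement_eq_one_iff_mul_comm] at h
    have h1 : u * tr (ofAdd c.d) * u⁻¹ = tr (ofAdd c.d) := by
      rw [← eq_tr hq, ← h]; group
    rw [conj_tr, tr_inj] at h1
    have h2 : (T u.q - 1) • c.d = 0 := by rw [sub_smul, one_smul, h1, sub_self]
    have h3 := smul_eq_zero' h2 hd
    exact T_eq_one.mp (sub_eq_zero.mp h3)
  · intro h
    rw [commutatorElement_eq_one_iff_mul_comm, eq_tr hq, eq_tr h, tr_comm]

end Aff

section

variable {G : Type u} [Group G] {n : ℕ} (hL : Loc G (Aff n)) {x0 y0 : G} (hc : ⁅x0, y0⁆ ≠ 1)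
include hL hc

theorem G1 {u v : G} (hu : ⁅⁅x0, y0⁆, u⁆ = 1) (hv : ⁅⁅x0, y0⁆, v⁆ = 1) : u * v = v * u := by
  classical
  let X : Fin 4 → FreeGroup (Fin 4) := fun j => FreeGroup.of j
  obtain ⟨y, hy⟩ := hL (Fin 4) ![x0, y0, u, v]
    {⁅X 0, X 1⁆, ⁅⁅X 0, X 1⁆, X 2⁆, ⁅⁅X 0, X 1⁆, X 3⁆, ⁅X 2, X 3⁆} (Set.toFinite _)
  have e1 := hy ⁅X 0, X 1⁆ (by simp)
  have e2 := hy ⁅⁅X 0, X 1⁆, X 2⁆ (by simp)
  have e3 := hy ⁅⁅X 0, X 1⁆, X 3⁆ (by simp)
  have e4 := hy ⁅X 2, X 3⁆ (by simp)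
  simp only [map_commutatorElement, X, FreeGroup.lift_apply_of] at e1 e2 e3 e4
  have f1 : ¬ (⁅y 0, y 1⁆ = 1) := fun h => hc (e1.mpr h)
  have f2 : ⁅⁅y 0, y 1⁆, y 2⁆ = 1 := e2.mp hu
  have f3 : ⁅⁅y 0, y 1⁆, y 3⁆ = 1 := e3.mp hv
  rw [Aff.comm_iff (Aff.comm_q _ _) f1] at f2 f3
  have f4 : ⁅y 2, y 3⁆ = 1 := by
    rw [commutatorElement_eq_one_iff_mul_comm, Aff.eq_tr f2, Aff.eq_tr f3, Aff.tr_comm]
  exact commutatorElement_eq_one_iff_mul_comm.mp (e4.mpr f4)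

theorem G2 {u : G} {k : ℕ} (hk : k ≠ 0) (hu : ⁅⁅x0, y0⁆, u ^ k⁆ = 1) : ⁅⁅x0, y0⁆, u⁆ = 1 := by
  classical
  let X : Fin 3 → FreeGroup (Fin 3) := fun j => FreeGroup.of j
  obtain ⟨y, hy⟩ := hL (Fin 3) ![x0, y0, u]
    {⁅X 0, X 1⁆, ⁅⁅X 0, X 1⁆, X 2 ^ k⁆, ⁅⁅X 0, X 1⁆, X 2⁆} (Set.toFinite _)
  have e1 := hy ⁅X 0, X 1⁆ (by simp)
  have e2 := hy ⁅⁅X 0, X 1⁆, X 2 ^ k⁆ (by simp)
  have e3 := hy ⁅⁅X 0, X 1⁆, X 2⁆ (by simp)
  simp only [map_commutatorElement, X, FreeGroup.lift_apply_of, map_pow] at e1 e2 e3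
  have f1 : ¬ (⁅y 0, y 1⁆ = 1) := fun h => hc (e1.mpr h)
  have f2 : ⁅⁅y 0, y 1⁆, y 2 ^ k⁆ = 1 := e2.mp hu
  refine e3.mpr ?_
  rw [Aff.comm_iff (Aff.comm_q _ _) f1] at f2 ⊢
  have f3 : (y 2).q ^ k = 1 := by
    rw [← Aff.qHom_apply, ← map_pow]; exact f2
  have f4 : k • toAdd (y 2).q = 0 := congrArg toAdd f3
  apply toAdd.injective
  funext l
  have f5 := congrFun f4 l
  rw [Pi.smul_apply, Pi.zero_apply, smul_eq_zero] at f5
  rcases f5 with f5 | f5
  · exact absurd f5 hk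
  · exact f5

theorem G3 {r : ℕ} (g : Fin r → G) (k : Fin r → ℤ) (v : G) (hv : ⁅⁅x0, y0⁆, v⁆ = 1) (hr : 0 < r)
    (hk : ∀ i, k i ≠ 0) (hg : ∀ i j, i ≠ j → ⁅⁅x0, y0⁆, (g i)⁻¹ * g j⁆ ≠ 1)
    (hP : (List.ofFn fun i => (g i * v * (g i)⁻¹) ^ (k i)).prod = 1) : v = 1 := by
  classical
  let X : Fin 3 ⊕ Fin r → FreeGroup (Fin 3 ⊕ Fin r) := fun j => FreeGroup.of j
  let a : Fin 3 → FreeGroup (Fin 3 ⊕ Fin r) := fun j => X (Sum.inl j)
  let b : Fin r → FreeGroup (Fin 3 ⊕ Fin r) := fun j => X (Sum.inr j)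
  obtain ⟨y, hy⟩ := hL (Fin 3 ⊕ Fin r) (Sum.elim ![x0, y0, v] g)
    ({⁅a 0, a 1⁆, ⁅⁅a 0, a 1⁆, a 2⁆, (List.ofFn fun i => (b i * a 2 * (b i)⁻¹) ^ (k i)).prod, a 2} ∪
      Set.range (fun p : Fin r × Fin r => ⁅⁅a 0, a 1⁆, (b p.1)⁻¹ * b p.2⁆)) (Set.toFinite _)
  have e1 := hy ⁅a 0, a 1⁆ (by simp)
  have e2 := hy ⁅⁅a 0, a 1⁆, a 2⁆ (by simp)
  have e3 := hy (List.ofFn fun i => (b i * a 2 * (b i)⁻¹) ^ (k i)).prod (by simp)
  have e4 := hy (a 2) (by simp)
  have e5 := fun i j => hy ⁅⁅a 0, a 1⁆, (b i)⁻¹ * b j⁆ (Or.inr ⟨(i, j), rfl⟩)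
  simp only [map_commutatorElement, X, a, b, FreeGroup.lift_apply_of, map_mul, map_inv,
    map_list_prod, List.map_ofFn, Function.comp_def, map_zpow, Sum.elim_inl, Sum.elim_inr] at e1 e2 e3 e4 e5
  have f1 : ¬ (⁅y (Sum.inl 0), y (Sum.inl 1)⁆ = 1) := fun h => hc (e1.mpr h)
  have f2 : ⁅⁅y (Sum.inl 0), y (Sum.inl 1)⁆, y (Sum.inl 2)⁆ = 1 := e2.mp hv
  have f3 := e3.mp hP
  have f5 : ∀ i j, i ≠ j → ¬ (⁅⁅y (Sum.inl 0), y (Sum.inl 1)⁆, (y (Sum.inr i))⁻¹ * y (Sum.inr j)⁆ = 1) :=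
    fun i j hij h => hg i j hij ((e5 i j).mpr h)
  refine e4.mpr ?_
  rw [Aff.comm_iff (Aff.comm_q _ _) f1] at f2
  simp only [Aff.comm_iff (Aff.comm_q _ _) f1, Aff.mul_q, Aff.inv_q, inv_mul_eq_one] at f5
  set w := y (Sum.inl 2)
  by_contra hw
  have hd : w.d ≠ 0 := fun h => hw (Aff.ext f2 h)
  have h1 : ∀ i, (y (Sum.inr i) * w * (y (Sum.inr i))⁻¹) ^ (k i) =
      Aff.tr (ofAdd (k i • Aff.T (y (Sum.inr i)).q • w.d)) := by
    intro i
    rw [Aff.eq_tr f2, Aff.conj_tr, ofAdd_zsmul, map_zpow]; rfl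
  simp only [h1] at f3
  have h3 : (List.ofFn fun i => Aff.tr (ofAdd (k i • Aff.T (y (Sum.inr i)).q • w.d)))
      = (List.ofFn fun i => ofAdd (k i • Aff.T (y (Sum.inr i)).q • w.d)).map Aff.tr := by
    rw [List.map_ofFn]; rfl
  rw [h3, ← map_list_prod, List.prod_ofFn, ← ofAdd_sum] at f3
  have h4 : ∑ i, k i • Aff.T (y (Sum.inr i)).q • w.d = 0 := by
    rw [← Aff.tr_inj, f3, ofAdd_zero, map_one]
  have h5 : (∑ i, k i • Aff.T (y (Sum.inr i)).q) • w.d = 0 := by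
    rw [Finset.sum_smul, ← h4]
    refine Finset.sum_congr rfl fun i _ => ?_
    rw [smul_assoc]
  have h6 := Aff.smul_eq_zero' h5 hd
  -- the coefficient at the first element
  let i0 : Fin r := ⟨0, hr⟩
  have h7 := congrArg (fun f : LR n => f.coeff (toAdd (y (Sum.inr i0)).q)) h6
  have h8 : (∑ i, k i • Aff.T (y (Sum.inr i)).q : LR n).coeff (toAdd (y (Sum.inr i0)).q) = k i0 := by
    have h9 : (∑ i, k i • Aff.T (y (Sum.inr i)).q : LR n).coeff =
        ∑ i, (k i • Aff.T (y (Sum.inr i)).q : LR n).coeff :=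
      map_sum (AddMonoidAlgebra.coeffAddEquiv (R := ℤ) (M := Fin n → ℤ)) _ _
    rw [h9, Finsupp.finsetSum_apply, Finset.sum_eq_single i0]
    · have : (k i0 • Aff.T (y (Sum.inr i0)).q : LR n).coeff =
        k i0 • Finsupp.single (toAdd (y (Sum.inr i0)).q) (1 : ℤ) := rfl
      rw [this]; simp
    · intro j _ hj
      have : (k j • Aff.T (y (Sum.inr j)).q : LR n).coeff =
        k j • Finsupp.single (toAdd (y (Sum.inr j)).q) (1 : ℤ) := rfl
      rw [this]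
      have hne : toAdd (y (Sum.inr j)).q ≠ toAdd (y (Sum.inr i0)).q := fun h =>
        f5 j i0 hj (toAdd.injective h)
      simp [hne]
    · intro h; exact absurd (Finset.mem_univ i0) h
  simp only [h8] at h7
  exact hk i0 h7

theorem exists_setup [Group.FG G] (hmet : ∀ x y z w : G, ⁅⁅x, y⁆, ⁅z, w⁆⁆ = 1) :
    ∃ (m : ℕ) (V : Type u) (_ : AddCommGroup V) (_ : Module (LR m) V)
      (π : G →* Multiplicative (Fin m → ℤ)) (i : Multiplicative V →* G), 0 < m ∧ Setup π i := by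
  classical
  let A : Subgroup G := Subgroup.centralizer {⁅x0, y0⁆}
  have hA : ∀ g, g ∈ A ↔ ⁅⁅x0, y0⁆, g⁆ = 1 := by
    intro g
    rw [Subgroup.mem_centralizer_singleton_iff, commutatorElement_eq_one_iff_mul_comm]
    constructor <;> intro h <;> exact h.symm
  have hcomm : ∀ x y : G, ⁅x, y⁆ ∈ A := fun x y => (hA _).mpr (hmet _ _ _ _)
  have hAn : A.Normal := ⟨fun a ha g => by
    have : g * a * g⁻¹ = ⁅g, a⁆ * a := by rw [commutatorElement_def]; group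
    rw [this]
    exact A.mul_mem (hcomm g a) ha⟩
  let cg : CommGroup (G ⧸ A) := { (inferInstance : Group (G ⧸ A)) with
    mul_comm := fun a b => by
      obtain ⟨x, rfl⟩ := QuotientGroup.mk_surjective a
      obtain ⟨y, rfl⟩ := QuotientGroup.mk_surjective b
      show (QuotientGroup.mk (x * y) : G ⧸ A) = QuotientGroup.mk (y * x)
      rw [QuotientGroup.eq]
      have : (x * y)⁻¹ * (y * x) = ⁅y⁻¹, x⁻¹⁆ := by rw [commutatorElement_def]; group
      rw [this]; exact hcomm _ _ }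
  let Q := Additive (G ⧸ A)
  have hfg : Group.FG (G ⧸ A) := QuotientGroup.fg A
  have hfin : Module.Finite ℤ Q := by
    rw [Module.Finite.iff_addGroup_fg]
    exact GroupFG.iff_add_fg.mp hfg
  have htf : IsAddTorsionFree Q := by
    refine ⟨fun k hk a b hab => ?_⟩
    obtain ⟨x, hx⟩ := QuotientGroup.mk_surjective (Additive.toMul (a - b))
    have h1 : k • (a - b) = 0 := by
      rw [smul_sub]; exact sub_eq_zero.mpr hab
    have h2 : (QuotientGroup.mk (x ^ k) : G ⧸ A) = 1 := by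
      have : (QuotientGroup.mk (x ^ k) : G ⧸ A) = (QuotientGroup.mk x) ^ k := rfl
      rw [this, hx]
      exact congrArg Additive.toMul h1
    have h3 : x ^ k ∈ A := (QuotientGroup.eq_one_iff _).mp h2
    have h4 : x ∈ A := (hA _).mpr (G2 hL hc hk ((hA _).mp h3))
    have h5 : (QuotientGroup.mk x : G ⧸ A) = 1 := (QuotientGroup.eq_one_iff _).mpr h4
    rw [hx] at h5
    have h6 : a - b = 0 := Additive.toMul.injective h5
    exact sub_eq_zero.mp h6
  have hfree : Module.Free ℤ Q := Module.free_of_finite_type_torsion_free'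
  let m := Module.finrank ℤ Q
  let e : Q ≃ₗ[ℤ] (Fin m → ℤ) := (Module.finBasis ℤ Q).equivFun
  let π : G →* Multiplicative (Fin m → ℤ) :=
    { toFun := fun g => ofAdd (e (Additive.ofMul (QuotientGroup.mk g : G ⧸ A)))
      map_one' := by
        show ofAdd (e (Additive.ofMul (1 : G ⧸ A))) = 1
        rw [ofMul_one, map_zero, ofAdd_zero]
      map_mul' := fun x y => by
        show ofAdd (e (Additive.ofMul ((QuotientGroup.mk x : G ⧸ A) * (QuotientGroup.mk y)))) = _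
        rw [ofMul_mul, map_add, ofAdd_add] }
  have hsurj : Function.Surjective π := by
    intro x
    obtain ⟨g, hg⟩ := QuotientGroup.mk_surjective (Additive.toMul (e.symm (toAdd x)))
    refine ⟨g, ?_⟩
    show ofAdd (e (Additive.ofMul (QuotientGroup.mk g : G ⧸ A))) = x
    rw [hg, ofMul_toMul, LinearEquiv.apply_symm_apply, ofAdd_toAdd]
  have hker : ∀ g, π g = 1 ↔ g ∈ A := by
    intro g
    rw [← QuotientGroup.eq_one_iff]
    constructor
    · intro h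
      have h1 : e (Additive.ofMul (QuotientGroup.mk g : G ⧸ A)) = e 0 := by
        rw [map_zero]; exact h
      exact e.injective h1
    · intro h
      show ofAdd (e (Additive.ofMul (QuotientGroup.mk g : G ⧸ A))) = 1
      rw [h, ofMul_one, map_zero, ofAdd_zero]
  have hAcomm : ∀ a ∈ A, ∀ b ∈ A, a * b = b * a := fun a ha b hb =>
    G1 hL hc ((hA a).mp ha) ((hA b).mp hb)
  have hm : 0 < m := by
    by_contra hm
    have hm0 : m = 0 := by omega
    have h1 : ∀ g, g ∈ A := by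
      intro g
      rw [← hker]
      apply toAdd.injective
      funext j
      exact (Fin.elim0 (Fin.cast hm0 j))
    exact hc (commutatorElement_eq_one_iff_mul_comm.mpr (hAcomm _ (h1 x0) _ (h1 y0)))
  obtain ⟨V, iV, iM, i, hS⟩ := setup_of A hAcomm π hsurj hker
    (fun r g k v hv hr hk hg hP => G3 hL hc g k v ((hA v).mp hv) hr hk
      (fun i j hij h => hg i j hij ((hA _).mpr h)) hP)
    ⟨⁅x0, y0⁆, hcomm x0 y0, hc⟩
  exact ⟨m, V, iV, iM, π, i, hm, hS⟩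

end

/-- Every finitely generated non-abelian rigid metabelian group is bi-interpretable with
arithmetic. -/
theorem main {G : Type u} [Group G] [Group.FG G] (hG : IsRigidMetabelian G)
    (hna : ¬ ∀ x y : G, x * y = y * x) : BiInterpretable groupLang G arithLang ℕ := by
  obtain ⟨hmet, n, _, hU⟩ := hG
  push Not at hna
  obtain ⟨x0, y0, hxy⟩ := hna
  have hc : ⁅x0, y0⁆ ≠ 1 := fun h => hxy (commutatorElement_eq_one_iff_mul_comm.mp h)
  have hL : Loc G (Aff n) := (Loc.of_universallyEquivalent hU).comp (magM n) (magM_injective n)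
  obtain ⟨m, V, iV, iM, π, i, hm, hS⟩ := exists_setup hL hc hmet
  exact hS.biInterpretable hm

end Pool.Agent.Helper94
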