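import Pool.Agent.Helper94.Assemble

/-!
From a normal abelian subgroup with free abelian quotient to the abstract setup.
-/

namespace Pool.Agent.Helper94

open Multiplicative
open scoped commutatorElement

universe u v

section fin

variable {G : Type u} [Group G] {m : ℕ} {V : Type v} [AddCommGroup V] [Module (LR m) V]
  {π : G →* Multiplicative (Fin m → ℤ)} {i : Multiplicative V →* G}

theorem finite_of_fg [Group.FG G] (hsurj : Function.Surjective π) (hinj : Function.Injective i)
    (hker : ∀ g, π g = 1 ↔ ∃ v : V, g = i (ofAdd v))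
    (hconj : ∀ g (v : V), i (ofAdd (Tm (toAdd (π g)) • v)) = g * i (ofAdd v) * g⁻¹) :
    Module.Finite (LR m) V := by
  classical
  choose g hg using fun j : Fin m => hsurj (ofAdd (ue j))
  obtain ⟨n, T, -, hT⟩ := (Group.fg_iff' (G := G)).mp inferInstance
  let H0 : Subgroup G := Subgroup.closure (Set.range g)
  have hH0 : ∀ q : Multiplicative (Fin m → ℤ), ∃ y ∈ H0, π y = q := by
    intro q
    have h1 : q = ofAdd (∑ j, (toAdd q j) • ue j) := by
      apply toAdd.injective
      funext k
      simp [Finset.sum_apply, Pi.single_apply]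
    refine ⟨(List.ofFn fun j => (g j) ^ (toAdd q j)).prod, ?_, ?_⟩
    · apply Subgroup.list_prod_mem
      intro x hx
      rw [List.mem_ofFn] at hx
      obtain ⟨j, rfl⟩ := hx
      have h2 : g j ∈ H0 := Subgroup.subset_closure ⟨j, rfl⟩
      exact H0.zpow_mem h2 _
    · conv_rhs => rw [h1]
      rw [ofAdd_sum, map_list_prod, List.map_ofFn, List.prod_ofFn]
      refine Finset.prod_congr rfl fun j _ => ?_
      show π ((g j) ^ (toAdd q j)) = _
      rw [map_zpow, ofAdd_zsmul, hg]
  have hdec : ∀ x : G, ∃ v : V, ∃ y ∈ H0, x = y * i (ofAdd v) := by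
    intro x
    obtain ⟨y, hy, hyx⟩ := hH0 (π x)
    have : π (y⁻¹ * x) = 1 := by rw [map_mul, map_inv, hyx, inv_mul_cancel]
    obtain ⟨v, hv⟩ := (hker _).mp this
    exact ⟨v, y, hy, by rw [← hv]; group⟩
  choose vt yt hyt hvt using hdec
  have hcomm : ∀ j k, ∃ v : V, ⁅g j, g k⁆ = i (ofAdd v) := by
    intro j k
    rw [← hker, map_commutatorElement, commutatorElement_eq_one_iff_mul_comm, mul_comm]
  choose cc hcc using hcomm
  let X : Finset V := T.image vt ∪ Finset.univ.image (fun p : Fin m × Fin m => cc p.1 p.2)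
  let W : Submodule (LR m) V := Submodule.span (LR m) (X : Set V)
  have hWX : ∀ x ∈ X, x ∈ W := fun x hx => Submodule.subset_span hx
  -- the corresponding normal subgroup
  let N : Subgroup G :=
    { carrier := {x | ∃ w ∈ W, x = i (ofAdd w)}
      mul_mem' := by
        rintro _ _ ⟨w, hw, rfl⟩ ⟨w', hw', rfl⟩
        exact ⟨w + w', W.add_mem hw hw', by rw [ofAdd_add, map_mul]⟩
      one_mem' := ⟨0, W.zero_mem, by rw [ofAdd_zero, map_one]⟩
      inv_mem' := by
        rintro _ ⟨w, hw, rfl⟩
        exact ⟨-w, W.neg_mem hw, by rw [ofAdd_neg, map_inv]⟩ }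
  have hN : N.Normal := ⟨by
    rintro _ ⟨w, hw, rfl⟩ x
    exact ⟨_, W.smul_mem _ hw, (hconj x w).symm⟩⟩
  have htop : ∀ x : G, ∃ w ∈ N, ∃ y ∈ H0, x = y * w := by
    have h1 : H0 ⊔ N = ⊤ := by
      rw [eq_top_iff, ← hT, Subgroup.closure_le]
      intro t ht
      rw [hvt t]
      refine Subgroup.mul_mem_sup (hyt t) ⟨vt t, hWX _ ?_, rfl⟩
      exact Finset.mem_union_left _ (Finset.mem_image_of_mem _ ht)
    intro x
    have h2 : x ∈ H0 ⊔ N := by rw [h1]; trivial
    obtain ⟨y, hy, w, hw, hyw⟩ := Subgroup.mem_sup_of_normal_right.mp h2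
    exact ⟨w, hw, y, hy, hyw.symm⟩
  -- the quotient
  let mk : G →* G ⧸ N := QuotientGroup.mk' N
  have hmkcomm : ∀ x ∈ Set.range (fun j => mk (g j)), ∀ y ∈ Set.range (fun j => mk (g j)),
      x * y = y * x := by
    rintro _ ⟨j, rfl⟩ _ ⟨k, rfl⟩
    rw [← commutatorElement_eq_one_iff_mul_comm, ← map_commutatorElement, hcc]
    refine (QuotientGroup.eq_one_iff _).mpr ⟨cc j k, hWX _ ?_, rfl⟩
    exact Finset.mem_union_right _ (Finset.mem_image_of_mem (fun p : Fin m × Fin m => cc p.1 p.2)
      (Finset.mem_univ (j, k)))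
  let C : Subgroup (G ⧸ N) := Subgroup.closure (Set.range (fun j => mk (g j)))
  have hCc : ∀ a b : C, a * b = b * a := by
    have := Subgroup.isMulCommutative_closure hmkcomm
    intro a b
    exact this.is_comm.comm a b
  let cg : CommGroup C := { (inferInstance : Group C) with mul_comm := hCc }
  let γ : Fin m → C := fun j => ⟨mk (g j), Subgroup.subset_closure ⟨j, rfl⟩⟩
  let θ : Multiplicative (Fin m → ℤ) →* C :=
    { toFun := fun x => ∏ j, (γ j) ^ (toAdd x j)
      map_one' := by simp
      map_mul' := fun x y => by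
        rw [← Finset.prod_mul_distrib]
        refine Finset.prod_congr rfl fun j _ => ?_
        rw [← zpow_add]; rfl }
  have hθ : ∀ j, θ (ofAdd (ue j)) = γ j := by
    intro j
    show ∏ l, (γ l) ^ (toAdd (ofAdd (ue j)) l) = _
    rw [Finset.prod_eq_single j]
    · simp
    · intro l _ hl; simp [hl]
    · intro h0; exact absurd (Finset.mem_univ j) h0
  have hmkθ : ∀ y ∈ H0, mk y = (θ (π y) : G ⧸ N) := by
    intro y hy
    induction hy using Subgroup.closure_induction with
    | mem x hx => obtain ⟨j, rfl⟩ := hx; rw [hg, hθ]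
    | one => simp
    | mul x y _ _ hx hy => rw [map_mul, map_mul, map_mul, hx, hy]; rfl
    | inv x _ hx => rw [map_inv, map_inv, map_inv, hx]; rfl
  have hall : ∀ v : V, v ∈ W := by
    intro v
    obtain ⟨_, ⟨w, hw, rfl⟩, y, hy, hyw⟩ := htop (i (ofAdd v))
    have h1 : π y = 1 := by
      have h2 : π (i (ofAdd v)) = 1 := (hker _).mpr ⟨v, rfl⟩
      have h3 : π (i (ofAdd w)) = 1 := (hker _).mpr ⟨w, rfl⟩
      rw [hyw, map_mul, h3, mul_one] at h2
      exact h2
    have h2 := hmkθ y hy
    rw [h1, map_one] at h2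
    have h3 : y ∈ N := (QuotientGroup.eq_one_iff y).mp h2
    obtain ⟨w', hw', rfl⟩ := h3
    rw [← map_mul, ← ofAdd_add] at hyw
    have h4 := ofAdd.injective (hinj hyw)
    rw [h4]
    exact W.add_mem hw' hw
  exact ⟨⟨X, by rw [eq_top_iff]; intro v _; exact hall v⟩⟩

end fin

section mod

variable {G : Type u} [Group G]

theorem setup_of [Group.FG G] (A : Subgroup G) (hAcomm : ∀ a ∈ A, ∀ b ∈ A, a * b = b * a) {m : ℕ}
    (π : G →* Multiplicative (Fin m → ℤ)) (hsurj : Function.Surjective π)
    (hker : ∀ g, π g = 1 ↔ g ∈ A)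
    (htf : ∀ (r : ℕ) (g : Fin r → G) (k : Fin r → ℤ) (v : G), v ∈ A → 0 < r → (∀ i, k i ≠ 0) →
      (∀ i j, i ≠ j → (g i)⁻¹ * g j ∉ A) →
      (List.ofFn fun i => (g i * v * (g i)⁻¹) ^ (k i)).prod = 1 → v = 1)
    (hnt : ∃ a ∈ A, a ≠ 1) :
    ∃ (V : Type u) (_ : AddCommGroup V) (_ : Module (LR m) V) (i : Multiplicative V →* G),
      Setup π i := by
  classical
  have hAn : ∀ g : G, ∀ a ∈ A, g * a * g⁻¹ ∈ A := by
    intro g a ha
    rw [← hker] at ha ⊢
    rw [map_mul, map_mul, ha, mul_one, map_inv, mul_inv_cancel]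
  let cg : CommGroup A := { (inferInstance : Group A) with
    mul_comm := fun a b => Subtype.ext (hAcomm a.1 a.2 b.1 b.2) }
  let V := Additive A
  let κ : G → Module.End ℤ V := fun g => AddMonoidHom.toIntLinearMap
    { toFun := fun a => Additive.ofMul ⟨g * (a.toMul : G) * g⁻¹, hAn g _ a.toMul.2⟩
      map_zero' := by
        apply Additive.toMul.injective
        apply Subtype.ext
        show g * 1 * g⁻¹ = 1
        group
      map_add' := fun a b => by
        apply Additive.toMul.injective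
        apply Subtype.ext
        show g * ((a.toMul : G) * (b.toMul : G)) * g⁻¹ = (g * (a.toMul : G) * g⁻¹) *
          (g * (b.toMul : G) * g⁻¹)
        group }
  have hκ : ∀ g (a : V), (((κ g) a).toMul : G) = g * (a.toMul : G) * g⁻¹ := fun g a => rfl
  have hκmul : ∀ g g', κ (g * g') = κ g * κ g' := by
    intro g g'
    ext a
    show (g * g') * _ * (g * g')⁻¹ = g * (g' * _ * g'⁻¹) * g⁻¹
    group
  have hκA : ∀ a ∈ A, κ a = 1 := by
    intro a ha
    ext b
    show a * (b.toMul : G) * a⁻¹ = (b.toMul : G)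
    rw [hAcomm a ha _ b.toMul.2]
    group
  choose sec hsec using hsurj
  have hκsec : ∀ g, κ (sec (π g)) = κ g := by
    intro g
    have h1 : (sec (π g))⁻¹ * g ∈ A := by rw [← hker, map_mul, map_inv, hsec, inv_mul_cancel]
    have h2 : κ g = κ (sec (π g)) * κ ((sec (π g))⁻¹ * g) := by
      rw [← hκmul]; congr 1; group
    rw [h2, hκA _ h1, mul_one]
  let ρ : Multiplicative (Fin m → ℤ) →* Module.End ℤ V :=
    { toFun := fun x => κ (sec x)
      map_one' := by
        apply hκA
        rw [← hker, hsec]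
      map_mul' := fun x y => by
        rw [← hκmul, ← hκsec (sec x * sec y), map_mul, hsec, hsec] }
  let mod : Module (LR m) V := Module.compHom V
    ((AddMonoidAlgebra.lift ℤ (Module.End ℤ V) (Fin m → ℤ)) ρ).toRingHom
  have hsmul : ∀ (f : LR m) (v : V), f • v =
      ((AddMonoidAlgebra.lift ℤ (Module.End ℤ V) (Fin m → ℤ)) ρ f) v := fun _ _ => rfl
  have hT : ∀ (x : Fin m → ℤ) (v : V), Tm x • v = κ (sec (ofAdd x)) v := by
    intro x v
    rw [hsmul, Tm, AddMonoidAlgebra.lift_single, one_smul]; rfl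
  let i : Multiplicative V →* G :=
    { toFun := fun a => ((toAdd a).toMul : G)
      map_one' := rfl
      map_mul' := fun a b => rfl }
  have hi : ∀ v : V, i (ofAdd v) = (v.toMul : G) := fun _ => rfl
  have hinj : Function.Injective i := by
    intro a b hab
    apply toAdd.injective
    apply Additive.toMul.injective
    exact Subtype.ext hab
  have hker' : ∀ g, π g = 1 ↔ ∃ v : V, g = i (ofAdd v) := by
    intro g
    rw [hker]
    constructor
    · intro hg; exact ⟨Additive.ofMul ⟨g, hg⟩, rfl⟩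
    · rintro ⟨v, rfl⟩; exact v.toMul.2
  have hconj : ∀ g (v : V), i (ofAdd (Tm (toAdd (π g)) • v)) = g * i (ofAdd v) * g⁻¹ := by
    intro g v
    rw [hT, hi, hi, ofAdd_toAdd, hκsec, hκ]
  have hsurj : Function.Surjective π := fun x => ⟨sec x, hsec x⟩
  refine ⟨V, inferInstance, mod, i, ⟨hsurj, hinj, hker', hconj,
    finite_of_fg hsurj hinj hker' hconj, ?_, ?_⟩⟩
  · intro f v hfv
    by_contra hcon
    push Not at hcon
    obtain ⟨hf, hv⟩ := hcon
    apply hv
    -- enumerate the support
    let S := f.coeff.support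
    have hS : S.Nonempty := by
      by_contra h
      rw [Finset.not_nonempty_iff_eq_empty] at h
      apply hf
      have h0 : f.coeff = 0 := Finsupp.support_eq_empty.mp h
      ext x
      rw [h0]; rfl
    let E := S.equivFin
    have h1 : (List.ofFn fun l : Fin S.card => (sec (ofAdd (E.symm l).1) * (v.toMul : G) *
        (sec (ofAdd (E.symm l).1))⁻¹) ^ (f.coeff (E.symm l).1)).prod = 1 := by
      have h2 : ∀ x : Fin m → ℤ, (sec (ofAdd x) * (v.toMul : G) * (sec (ofAdd x))⁻¹) ^ (f.coeff x) =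
          i (ofAdd (f.coeff x • Tm x • v)) := by
        intro x
        rw [ofAdd_zsmul, map_zpow, hT, hi, hκ]
      simp only [h2]
      have h3 : (List.ofFn fun l : Fin S.card => i (ofAdd (f.coeff (E.symm l).1 • Tm (E.symm l).1 • v)))
          = (List.ofFn fun l : Fin S.card => ofAdd (f.coeff (E.symm l).1 • Tm (E.symm l).1 • v)).map i := by
        rw [List.map_ofFn]; rfl
      rw [h3, ← map_list_prod, List.prod_ofFn, ← ofAdd_sum]
      have h4 : ∑ l : Fin S.card, f.coeff (E.symm l).1 • Tm (E.symm l).1 • v =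
          ∑ x : S, f.coeff x.1 • Tm x.1 • v :=
        Equiv.sum_comp E.symm (fun x : S => f.coeff x.1 • Tm x.1 • v)
      have h5 : ∑ x : S, f.coeff x.1 • Tm x.1 • v = ∑ x ∈ S, f.coeff x • Tm x • v :=
        Finset.sum_coe_sort S (fun x => f.coeff x • Tm x • v)
      have h6 : f • v = ∑ x ∈ S, f.coeff x • Tm x • v := by
        rw [hsmul, AddMonoidAlgebra.lift_apply]
        simp only [Finsupp.sum]
        rw [LinearMap.sum_apply]
        refine Finset.sum_congr rfl fun x _ => ?_
        rw [hT]; rfl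
      rw [h4, h5, ← h6, hfv, ofAdd_zero, map_one]
    have h2 := htf S.card (fun l => sec (ofAdd (E.symm l).1)) (fun l => f.coeff (E.symm l).1)
      (v.toMul : G) v.toMul.2 (Finset.card_pos.mpr hS)
      (fun l => Finsupp.mem_support_iff.mp (E.symm l).2) (fun a b hab => by
        rw [← hker, map_mul, map_inv, hsec, hsec]
        intro h3
        rw [inv_mul_eq_one] at h3
        have h4 := ofAdd.injective h3
        exact hab (E.symm.injective (Subtype.ext h4))) h1
    apply Additive.toMul.injective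
    exact Subtype.ext h2
  · obtain ⟨a, ha, hane⟩ := hnt
    refine ⟨⟨Additive.ofMul ⟨a, ha⟩, 0, fun h => hane ?_⟩⟩
    exact congrArg (fun v : V => (v.toMul : G)) h

end mod

end Pool.Agent.Helper94
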